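import Pool.Agent.Q64.LP.Stm

open MeasureTheory Filter Topology Set Metric
open scoped ENNReal NNReal RealInnerProductSpace ContDiff Gradient

namespace Pool.Agent.Q64.LP

namespace ADM

theorem wm_one {n : ℕ} : wm (fun _ : E n => (1 : ℝ)) = (volume : Measure (E n)) := by
  unfold wm
  simp

end ADM

theorem t_ADM (cl : S_CL) (sob : S_SOB) (poi : S_POI) : S_ADM where
  one_lt := by norm_num
  meas := measurable_const
  nonneg := fun _ => zero_le_one
  pos := Eventually.of_forall fun _ => one_pos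
  locInt := locallyIntegrable_const 1
  doubling := by
    refine ⟨8, fun x r hr => ?_⟩
    rw [ADM.wm_one]
    have h := Measure.addHaar_ball_mul_of_pos (volume : Measure (E 3)) x (by norm_num : (0 : ℝ) < 2) r
    rw [h, Measure.addHaar_ball_center (volume : Measure (E 3)) x r]
    have h3 : Module.finrank ℝ (E 3) = 3 := by simp
    rw [h3]
    have h8 : ENNReal.ofReal ((2 : ℝ) ^ 3) = ((8 : ℝ≥0) : ℝ≥0∞) := by norm_num
    rw [h8]
  closable := by
    intro D hD φ v hφ hv h1 h2
    rw [ADM.wm_one] at *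
    exact cl 3 (5 / 4) (by norm_num) D hD φ v hφ hv h1 h2
  sobolev := by
    obtain ⟨C, hC, h⟩ := sob
    refine ⟨C, hC, fun x r hr φ hφ => ?_⟩
    rw [ADM.wm_one]
    exact h x r hr φ hφ
  poincare := by
    obtain ⟨C, hC, h⟩ := poi
    refine ⟨C, hC, fun x r hr φ hφ hb => ?_⟩
    rw [ADM.wm_one]
    exact h x r hr φ hφ hb

end Pool.Agent.Q64.LP
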