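import Pool.Agent.Q64.LP.UL

/-! # The averages of the supersolution over small balls (project LP, job AV) -/

open MeasureTheory Filter Topology Set Metric
open scoped ENNReal NNReal RealInnerProductSpace ContDiff Gradient

namespace Pool.Agent.Q64.LP.AV

open Pool.Agent.Q64.LP.Cy

/-- the lower bound as a radial function -/
noncomputable def Hg (a s ρ : ℝ) : ℝ≥0∞ :=
  if s < a then (if s ^ (3 / 2 : ℝ) < ρ then (if ρ < s then
    ENNReal.ofReal (1 / 3 * (s ^ (7 / 2 : ℝ) * ρ ^ (-3 : ℝ))) else 0) else 0) else 0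

theorem Hg_meas (a : ℝ) : Measurable (Function.uncurry (Hg a)) := by
  unfold Hg Function.uncurry
  refine Measurable.ite (measurableSet_lt measurable_fst measurable_const) ?_ measurable_const
  refine Measurable.ite (measurableSet_lt (by fun_prop) measurable_snd) ?_ measurable_const
  exact Measurable.ite (measurableSet_lt measurable_snd measurable_fst) (by fun_prop)
    measurable_const

theorem pointwise (r : ℝ) (x : E 3) (hx : x ∈ ball (0 : E 3) r) :
    Hg (r / 2) (ss x) (rr x) ≤ ENNReal.ofReal (uu x + 7 / 3 * Real.sqrt r) ∧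
      0 ≤ uu x + 7 / 3 * Real.sqrt r := by
  have h1 := ss_lt hx
  have h2 := rr_lt hx
  have q1 : Real.sqrt (ss x) ≤ Real.sqrt r := Real.sqrt_le_sqrt h1.le
  have q2 : Real.sqrt (rr x) ≤ Real.sqrt r := Real.sqrt_le_sqrt h2.le
  have q0 := Real.sqrt_nonneg (rr x)
  have hOT : 0 ≤ uu x + 7 / 3 * Real.sqrt r := by
    rw [uu]
    split_ifs with a1 a2
    · linarith
    · have : 0 ≤ ss x ^ (7 / 2 : ℝ) / (3 * rr x ^ 3) := by
        have := ss_nonneg x; have := rr_nonneg x; positivity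
      linarith
    · have : 0 ≤ 1 / (3 * ss x) := by
        have := ss_nonneg x; positivity
      linarith
  refine ⟨?_, hOT⟩
  rw [Hg]
  split_ifs with b1 b2 b3
  · refine ENNReal.ofReal_le_ofReal ?_
    have hs : 0 < ss x := lt_of_le_of_lt (rr_nonneg x) b3
    have hrp : 0 < rr x := lt_trans (Real.rpow_pos_of_pos hs _) b2
    rw [uu, if_neg (not_le.2 b3), if_pos b2.le]
    have e1 : ss x ^ (7 / 2 : ℝ) / (3 * rr x ^ 3) =
        1 / 3 * (ss x ^ (7 / 2 : ℝ) * rr x ^ (-3 : ℝ)) := by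
      rw [Real.rpow_neg hrp.le, Real.rpow_ofNat]
      field_simp
    rw [e1]
    linarith
  · exact zero_le
  · exact zero_le
  · exact zero_le

theorem Hg_support (r : ℝ) (hr : 0 < r) (x : E 3) (hx : x ∉ ball (0 : E 3) r) :
    Hg (r / 2) (ss x) (rr x) = 0 := by
  rw [Hg]
  split_ifs with b1 b2 b3
  · exfalso
    apply hx
    have h := norm_sq x
    have : ‖x‖ ^ 2 < r ^ 2 := by
      have := ss_nonneg x
      have := rr_nonneg x
      nlinarith
    have h2 : ‖x‖ < r := lt_of_pow_lt_pow_left₀ 2 hr.le this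
    simpa using h2
  · rfl
  · rfl
  · rfl

theorem inner_ge (a s : ℝ) (hs : 0 < s) (hsa : s < a) (ha : a ≤ 1 / 10000) :
    ENNReal.ofReal (33 / 100 * s ^ 2) ≤ ∫⁻ ρ in Ioi (0 : ℝ), ENNReal.ofReal ρ * Hg a s ρ := by
  have hs0 : 0 < s ^ (3 / 2 : ℝ) := Real.rpow_pos_of_pos hs _
  have hs1 : s < 1 := by linarith
  have hle : s ^ (3 / 2 : ℝ) ≤ s := by
    have := Real.rpow_le_rpow_of_exponent_ge hs hs1.le (show (1 : ℝ) ≤ 3 / 2 by norm_num)
    rwa [Real.rpow_one] at this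
  have h1 : ∫⁻ ρ in Ioo (s ^ (3 / 2 : ℝ)) s,
      ENNReal.ofReal (1 / 3 * s ^ (7 / 2 : ℝ) * ρ ^ (-2 : ℝ)) ≤
      ∫⁻ ρ in Ioi (0 : ℝ), ENNReal.ofReal ρ * Hg a s ρ := by
    have hsub : Ioo (s ^ (3 / 2 : ℝ)) s ⊆ Ioi 0 := fun y hy => hs0.trans hy.1
    refine le_trans ?_ (lintegral_mono_set hsub)
    refine le_of_eq (setLIntegral_congr_fun measurableSet_Ioo (fun ρ hρ => ?_))
    have hρ0 : 0 < ρ := hs0.trans hρ.1
    simp only [Hg, if_pos hsa, if_pos hρ.1, if_pos hρ.2]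
    rw [← ENNReal.ofReal_mul hρ0.le]
    congr 1
    rw [show (-2 : ℝ) = -3 + 1 by norm_num, Real.rpow_add_one hρ0.ne']
    ring
  refine le_trans ?_ h1
  rw [setLIntegral_congr Ioo_ae_eq_Ioc]
  have h0 : (0 : ℝ) ∉ uIcc (s ^ (3 / 2 : ℝ)) s := by
    rw [uIcc_of_le hle]; intro h; linarith [h.1]
  have hint : IntervalIntegrable (fun ρ : ℝ => 1 / 3 * s ^ (7 / 2 : ℝ) * ρ ^ (-2 : ℝ)) volume
      (s ^ (3 / 2 : ℝ)) s :=
    (intervalIntegral.intervalIntegrable_rpow (Or.inr h0)).const_mul _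
  rw [← ofReal_integral_eq_lintegral_ofReal
    ((intervalIntegrable_iff_integrableOn_Ioc_of_le hle).1 hint)]
  · refine ENNReal.ofReal_le_ofReal ?_
    rw [← intervalIntegral.integral_of_le hle, intervalIntegral.integral_const_mul,
      integral_rpow (Or.inr ⟨by norm_num, h0⟩)]
    have e : 1 / 3 * s ^ (7 / 2 : ℝ) * ((s ^ ((-2 : ℝ) + 1) - (s ^ (3 / 2 : ℝ)) ^ ((-2 : ℝ) + 1)) /
        (-2 + 1)) = 1 / 3 * (s ^ 2 - s ^ 2 * s ^ (1 / 2 : ℝ)) := by
      have e1 : s ^ 2 = s ^ (7 / 2 : ℝ) * (s ^ (3 / 2 : ℝ)) ^ ((-2 : ℝ) + 1) := by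
        rw [← Real.rpow_mul hs.le, ← Real.rpow_add hs]; norm_num
      have e2 : s ^ 2 * s ^ (1 / 2 : ℝ) = s ^ (7 / 2 : ℝ) * s ^ ((-2 : ℝ) + 1) := by
        rw [← Real.rpow_add hs, ← Real.rpow_two, ← Real.rpow_add hs]; norm_num
      rw [e2, e1]; ring
    rw [e]
    have hsq : s ^ (1 / 2 : ℝ) ≤ 1 / 100 := by
      rw [← Real.sqrt_eq_rpow]
      rw [Real.sqrt_le_left (by norm_num)]
      nlinarith
    nlinarith [sq_nonneg s, mul_le_mul_of_nonneg_left hsq (sq_nonneg s)]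
  · refine (ae_restrict_mem measurableSet_Ioc).mono (fun ρ hρ => ?_)
    have hρ0 : 0 < ρ := hs0.trans hρ.1
    simp only [Pi.zero_apply]
    positivity

theorem total_ge (cyl : S_CYL) (meas : S_MEAS) (a : ℝ) (ha0 : 0 < a) (ha : a ≤ 1 / 10000) :
    ENNReal.ofReal (4 * Real.pi) * ENNReal.ofReal (11 / 100 * a ^ 3) ≤
      ∫⁻ x : E 3, Hg a (ss x) (rr x) := by
  rw [cyl_lint cyl meas (Hg a) (Hg_meas a)]
  refine mul_le_mul_right ?_ _
  have h1 : ∫⁻ s in Ioo (0 : ℝ) a, ENNReal.ofReal (33 / 100 * s ^ 2) ≤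
      ∫⁻ s in Ioi (0 : ℝ), ∫⁻ ρ in Ioi (0 : ℝ), ENNReal.ofReal ρ * Hg a s ρ := by
    refine le_trans (setLIntegral_mono' measurableSet_Ioo (fun s hs => inner_ge a s hs.1 hs.2 ha))
      (lintegral_mono_set (fun y hy => hy.1))
  refine le_trans ?_ h1
  rw [setLIntegral_congr Ioo_ae_eq_Ioc]
  have hint : IntervalIntegrable (fun s : ℝ => 33 / 100 * s ^ 2) volume 0 a :=
    (Continuous.intervalIntegrable (by fun_prop) _ _)
  rw [← ofReal_integral_eq_lintegral_ofReal
    ((intervalIntegrable_iff_integrableOn_Ioc_of_le ha0.le).1 hint)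
    (Eventually.of_forall (fun s => by simp only [Pi.zero_apply]; positivity))]
  refine ENNReal.ofReal_le_ofReal ?_
  rw [← intervalIntegral.integral_of_le ha0.le, intervalIntegral.integral_const_mul, integral_pow]
  norm_num
  apply le_of_eq; ring

theorem integrable_ball (cyl : S_CYL) (meas : S_MEAS) : IntegrableOn uu (ball (0 : E 3) 1) := by
  refine ⟨meas.2.2.1.aestronglyMeasurable, ?_⟩
  rw [hasFiniteIntegral_iff_norm]
  have hb : ∀ x : E 3, ENNReal.ofReal ‖uu x‖ ≤ 1 + ENNReal.ofReal (|uu x| ^ (5 / 4 : ℝ)) := by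
    intro x
    rw [← ENNReal.ofReal_one, ← ENNReal.ofReal_add zero_le_one (by positivity)]
    refine ENNReal.ofReal_le_ofReal ?_
    rw [Real.norm_eq_abs]
    rcases le_total |uu x| 1 with h | h
    · have : 0 ≤ |uu x| ^ (5 / 4 : ℝ) := by positivity
      linarith
    · have := Real.rpow_le_rpow_of_exponent_le h (show (1 : ℝ) ≤ 5 / 4 by norm_num)
      rw [Real.rpow_one] at this
      linarith
  refine lt_of_le_of_lt (lintegral_mono hb) ?_
  rw [lintegral_add_left measurable_const]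
  refine ENNReal.add_lt_top.2 ⟨?_, ?_⟩
  · rw [lintegral_const, Measure.restrict_apply MeasurableSet.univ, univ_inter, one_mul]
    exact measure_ball_lt_top
  · exact (UL.key cyl meas 1 zero_lt_one le_rfl).trans_lt
      (ENNReal.mul_lt_top ENNReal.ofReal_lt_top ENNReal.ofReal_lt_top)

end Pool.Agent.Q64.LP.AV

namespace Pool.Agent.Q64.LP

open Pool.Agent.Q64.LP.Cy Pool.Agent.Q64.LP.AV

theorem t_AV (cyl : S_CYL) (meas : S_MEAS) : S_AV := by
  refine ⟨integrable_ball cyl meas, ?_⟩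
  intro r hr hr1
  have hI : IntegrableOn uu (ball (0 : E 3) r) :=
    (integrable_ball cyl meas).mono_set (ball_subset_ball (by linarith))
  have hc : IntegrableOn (fun _ : E 3 => 7 / 3 * Real.sqrt r) (ball (0 : E 3) r) :=
    integrableOn_const (measure_ball_lt_top).ne
  have hvol : (volume (ball (0 : E 3) r)).toReal = r ^ 3 * (Real.pi * 4 / 3) := by
    rw [EuclideanSpace.volume_ball_fin_three, ENNReal.toReal_mul, ENNReal.toReal_pow,
      ENNReal.toReal_ofReal hr.le, ENNReal.toReal_ofReal (by positivity)]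
  have hvp : 0 < r ^ 3 * (Real.pi * 4 / 3) := by positivity
  have h1 : ENNReal.ofReal (4 * Real.pi * (11 / 100 * (r / 2) ^ 3)) ≤
      ENNReal.ofReal (∫ x in ball (0 : E 3) r, (uu x + 7 / 3 * Real.sqrt r)) := by
    have hIc : IntegrableOn (fun x : E 3 => uu x + 7 / 3 * Real.sqrt r) (ball (0 : E 3) r) :=
      hI.add hc
    rw [ofReal_integral_eq_lintegral_ofReal hIc
      ((ae_restrict_mem measurableSet_ball).mono (fun x hx => (pointwise r x hx).2)),
      ENNReal.ofReal_mul (by positivity)]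
    refine (total_ge cyl meas (r / 2) (by linarith) (by linarith)).trans ?_
    rw [← lintegral_indicator measurableSet_ball]
    refine lintegral_mono (fun x => ?_)
    by_cases hx : x ∈ ball (0 : E 3) r
    · rw [indicator_of_mem hx]; exact (pointwise r x hx).1
    · rw [indicator_of_notMem hx, Hg_support r hr x hx]
  have h2 : 4 * Real.pi * (11 / 100 * (r / 2) ^ 3) ≤
      ∫ x in ball (0 : E 3) r, (uu x + 7 / 3 * Real.sqrt r) :=
    (ENNReal.ofReal_le_ofReal_iff' .. |>.1 h1).elim id (fun h => absurd h (not_le.2 (by positivity)))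
  rw [integral_add hI hc, setIntegral_const, measureReal_def, hvol, smul_eq_mul] at h2
  rw [setAverage_eq, measureReal_def, hvol, smul_eq_mul, ← div_eq_inv_mul, le_div_iff₀ hvp]
  have hq : Real.sqrt r ≤ 1 / 100 := by
    rw [Real.sqrt_le_left (by norm_num)]
    norm_num; linarith
  have h3 : r ^ 3 * (Real.pi * 4 / 3) * (7 / 3 * Real.sqrt r) ≤
      r ^ 3 * (Real.pi * 4 / 3) * (7 / 3 * (1 / 100)) :=
    mul_le_mul_of_nonneg_left (by linarith) hvp.le
  have h4 : 0 < Real.pi * r ^ 3 := by positivity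
  nlinarith

end Pool.Agent.Q64.LP
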