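import Pool.Agent.Q64.LP.Stm

/-! Job AX of project LP: integration by parts on the axis. -/

set_option autoImplicit false

open MeasureTheory Filter Topology Set Metric
open scoped ENNReal NNReal

namespace Pool.Agent.Q64.LP

namespace AX

theorem half {a : ℝ} (ha : 0 < a) {ψ : ℝ → ℝ} (hψ : ContDiff ℝ 1 ψ) (hc : HasCompactSupport ψ)
    (hi : IntegrableOn (fun t => -(t ^ (-(1 / 2) : ℝ)) * deriv ψ t
      + 1 / 2 * t ^ (-(3 / 2) : ℝ) * ψ t) (Ioi a)) :
    ∫ t in Ioi a, (-(t ^ (-(1 / 2) : ℝ)) * deriv ψ t + 1 / 2 * t ^ (-(3 / 2) : ℝ) * ψ t) =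
      a ^ (-(1 / 2) : ℝ) * ψ a := by
  have hd : ∀ t : ℝ, 0 < t → HasDerivAt (fun t => -(t ^ (-(1 / 2) : ℝ)) * ψ t)
      (-(t ^ (-(1 / 2) : ℝ)) * deriv ψ t + 1 / 2 * t ^ (-(3 / 2) : ℝ) * ψ t) t := by
    intro t ht
    have h1 : HasDerivAt (fun t : ℝ => t ^ (-(1 / 2) : ℝ)) (-(1 / 2) * t ^ (-(1 / 2) - 1 : ℝ)) t :=
      Real.hasDerivAt_rpow_const (Or.inl ht.ne')
    have h2 : HasDerivAt ψ (deriv ψ t) t :=
      (hψ.differentiable (by norm_num)).differentiableAt.hasDerivAt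
    have h3 := h1.neg.mul h2
    have e : (-(1 / 2) - 1 : ℝ) = -(3 / 2) := by norm_num
    rw [e] at h3
    refine h3.congr_deriv ?_
    simp only [Pi.neg_apply]
    ring
  have hz : Tendsto (fun t => -(t ^ (-(1 / 2) : ℝ)) * ψ t) atTop (𝓝 0) := by
    obtain ⟨R, hR, h⟩ := hc.exists_pos_le_norm
    refine tendsto_const_nhds.congr' ?_
    filter_upwards [eventually_ge_atTop R] with t ht
    rw [h t (le_trans ht (le_abs_self t)), mul_zero]
  rw [integral_Ioi_of_hasDerivAt_of_tendsto (hd a ha).continuousAt.continuousWithinAt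
    (fun t ht => hd t (ha.trans ht)) hi hz]
  ring

end AX

open AX

/-- JOB AX -/
theorem t_AX : S_AX := by
  intro a ha ψ hψ hc h0
  set f : ℝ → ℝ := fun t => (if a < |t| then -((SignType.sign t : ℝ) * |t| ^ (-(1 / 2) : ℝ)) *
    deriv ψ t + 1 / 2 * |t| ^ (-(3 / 2) : ℝ) * ψ t else 0) with hf
  by_cases hi : Integrable f
  swap
  · rw [integral_undef hi]
  have key : ∀ χ : ℝ → ℝ, ContDiff ℝ 1 χ → HasCompactSupport χ → (∀ r, 0 ≤ χ r) →
      ∀ g : ℝ → ℝ, (∀ t, 0 < t → g t = if a < t then -(t ^ (-(1 / 2) : ℝ)) * deriv χ t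
      + 1 / 2 * t ^ (-(3 / 2) : ℝ) * χ t else 0) → IntegrableOn g (Ioi 0) →
      0 ≤ ∫ t in Ioi (0 : ℝ), g t := by
    intro χ hχ hcχ h0χ g hg hgi
    have e1 : EqOn g ((Ioi a).indicator fun t => -(t ^ (-(1 / 2) : ℝ)) * deriv χ t
      + 1 / 2 * t ^ (-(3 / 2) : ℝ) * χ t) (Ioi 0) := by
      intro t ht
      rw [hg t ht]
      by_cases h : a < t
      · rw [if_pos h, indicator_of_mem (show t ∈ Ioi a from h)]
      · rw [if_neg h, indicator_of_notMem (show t ∉ Ioi a from h)]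
    have e2 : Ioi (0 : ℝ) ∩ Ioi a = Ioi a := by
      rw [inter_eq_right]
      exact Ioi_subset_Ioi ha.le
    rw [setIntegral_congr_fun measurableSet_Ioi e1, setIntegral_indicator measurableSet_Ioi, e2,
      half ha hχ hcχ]
    · exact mul_nonneg (Real.rpow_nonneg ha.le _) (h0χ a)
    · have h1 : IntegrableOn g (Ioi a) := hgi.mono_set (Ioi_subset_Ioi ha.le)
      refine h1.congr_fun (fun t ht => ?_) measurableSet_Ioi
      rw [hg t (ha.trans ht), if_pos (show a < t from ht)]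
  rw [← intervalIntegral.integral_Iic_add_Ioi (b := (0 : ℝ)) hi.integrableOn hi.integrableOn]
  refine add_nonneg ?_ ?_
  · have e : ∫ t in Iic (0 : ℝ), f t = ∫ t in Ioi (0 : ℝ), f (-t) := by
      rw [integral_comp_neg_Ioi, neg_zero]
    rw [e]
    refine key (fun t => ψ (-t)) (hψ.comp contDiff_neg) ?_ (fun r => h0 _) _ ?_ ?_
    · exact hc.comp_homeomorph (Homeomorph.neg ℝ)
    · intro t ht
      have hd : deriv (fun t => ψ (-t)) t = -deriv ψ (-t) := deriv_comp_neg ψ t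
      simp only [hf, abs_neg, abs_of_pos ht, hd, Left.sign_neg, sign_pos ht]
      by_cases h : a < t
      · rw [if_pos h, if_pos h]
        push_cast
        simp only [SignType.coe_one]
        ring
      · rw [if_neg h, if_neg h]
    · exact (hi.comp_neg).integrableOn
  · refine key ψ hψ hc h0 _ ?_ hi.integrableOn
    intro t ht
    simp only [hf, abs_of_pos ht, sign_pos ht]
    by_cases h : a < t
    · rw [if_pos h, if_pos h]
      push_cast
      simp only [SignType.coe_one]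
      ring
    · rw [if_neg h, if_neg h]

end Pool.Agent.Q64.LP
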