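import Pool.Agent.Q64.LP.Stm

/-!
# Project LP (helper64), job CL: closability of the gradient
-/

set_option autoImplicit false

open MeasureTheory Filter Topology Set Metric
open scoped ENNReal NNReal RealInnerProductSpace ContDiff Gradient

namespace Pool.Agent.Q64.LP

namespace CL

theorem l1 {α F : Type*} [MeasurableSpace α] [NormedAddCommGroup F] {μ : Measure α}
    [IsFiniteMeasure μ] {p : ℝ} (hp : 1 ≤ p) (w : ℕ → α → F)
    (hw : ∀ i, AEStronglyMeasurable (w i) μ)
    (h : Tendsto (fun i => ∫⁻ x, ENNReal.ofReal (‖w i x‖ ^ p) ∂μ) atTop (𝓝 0)) :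
    Tendsto (fun i => ∫⁻ x, ‖w i x‖ₑ ∂μ) atTop (𝓝 0) := by
  have hp0 : 0 < p := by linarith
  have e : ∀ i x, ENNReal.ofReal (‖w i x‖ ^ p) = ‖w i x‖ₑ ^ p := by
    intro i x
    rw [← ENNReal.ofReal_rpow_of_nonneg (norm_nonneg _) hp0.le, ofReal_norm]
  simp only [e] at h
  have hq1 : (1 : ℝ≥0∞) ≤ ENNReal.ofReal p := by
    rw [← ENNReal.ofReal_one]
    exact ENNReal.ofReal_le_ofReal hp
  have h1 : ∀ i, ∫⁻ x, ‖w i x‖ₑ ∂μ ≤ (∫⁻ x, ‖w i x‖ₑ ^ p ∂μ) ^ (1 / p) * μ univ ^ (1 - 1 / p) := by
    intro i
    have h2 := eLpNorm_le_eLpNorm_mul_rpow_measure_univ hq1 (hw i)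
    rw [eLpNorm_one_eq_lintegral_enorm, eLpNorm_eq_lintegral_rpow_enorm_toReal (by positivity)
      ENNReal.ofReal_ne_top, ENNReal.toReal_ofReal hp0.le, ENNReal.toReal_one, div_one] at h2
    exact h2
  have h2 : Tendsto (fun i => (∫⁻ x, ‖w i x‖ₑ ^ p ∂μ) ^ (1 / p)) atTop (𝓝 0) := by
    have h3 := (ENNReal.continuous_rpow_const (y := 1 / p)).tendsto (0 : ℝ≥0∞)
    rw [ENNReal.zero_rpow_of_pos (by positivity)] at h3
    exact h3.comp h
  have hC : μ univ ^ (1 - 1 / p) ≠ ⊤ := by
    refine ENNReal.rpow_ne_top_of_nonneg ?_ (measure_ne_top _ _)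
    rw [sub_nonneg, div_le_one hp0]
    exact hp
  have h3 := ENNReal.Tendsto.mul_const h2 (Or.inr hC)
  rw [zero_mul] at h3
  exact tendsto_of_tendsto_of_tendsto_of_le_of_le tendsto_const_nhds h3 (fun _ => zero_le) h1

theorem cont_grad {n : ℕ} {φ : E n → ℝ} (h : ContDiff ℝ ∞ φ) : Continuous (∇ φ) := by
  have h1 : Continuous (fderiv ℝ φ) := h.continuous_fderiv (by simp)
  exact (InnerProductSpace.toDual ℝ (E n)).symm.continuous.comp h1

theorem inner_grad {n : ℕ} (φ : E n → ℝ) (x e : E n) : ⟪∇ φ x, e⟫ = fderiv ℝ φ x e := by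
  unfold gradient
  exact InnerProductSpace.toDual_symm_apply

theorem grad_support {n : ℕ} {φ : E n → ℝ} {x : E n} (hx : x ∉ tsupport φ) : ∇ φ x = 0 := by
  unfold gradient
  rw [fderiv_of_notMem_tsupport ℝ hx, map_zero]

/-- products with a bounded function with support in `K` -/
theorem l1' {n : ℕ} {F : Type*} [NormedAddCommGroup F] [NormedSpace ℝ F] {K : Set (E n)}
    (hK : MeasurableSet K) (C : ℝ) (A : ℕ → E n → F) (W : ℕ → E n → ℝ≥0∞)
    (hA : ∀ i x, x ∉ K → A i x = 0) (hAW : ∀ i x, ‖A i x‖ₑ ≤ ENNReal.ofReal C * W i x)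
    (h : Tendsto (fun i => ∫⁻ x in K, W i x) atTop (𝓝 0)) :
    Tendsto (fun i => ∫⁻ x, ‖A i x‖ₑ) atTop (𝓝 0) := by
  have h1 : ∀ i, ∫⁻ x, ‖A i x‖ₑ ≤ ENNReal.ofReal C * ∫⁻ x in K, W i x := by
    intro i
    rw [← lintegral_const_mul' _ _ ENNReal.ofReal_ne_top, ← lintegral_indicator hK]
    refine lintegral_mono fun x => ?_
    by_cases hx : x ∈ K
    · rw [indicator_of_mem hx]
      exact hAW i x
    · rw [hA i x hx]
      simp
  have h3 := ENNReal.Tendsto.const_mul h (Or.inr (ENNReal.ofReal_ne_top (r := C)))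
  rw [mul_zero] at h3
  exact tendsto_of_tendsto_of_tendsto_of_le_of_le tendsto_const_nhds h3 (fun _ => zero_le) h1

/-- integration by parts -/
theorem ibp {n : ℕ} {g φ : E n → ℝ} (hg : ContDiff ℝ ∞ g) (hgc : HasCompactSupport g)
    (hφ : ContDiff ℝ ∞ φ) : ∫ x, g x • ∇ φ x = -∫ x, φ x • ∇ g x := by
  have hcg := cont_grad hg
  have hcφ := cont_grad hφ
  have hi1 : Integrable (fun x => g x • ∇ φ x) := by
    refine Continuous.integrable_of_hasCompactSupport (hg.continuous.smul hcφ) ?_
    exact HasCompactSupport.smul_right (f' := ∇ φ) hgc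
  have hgs : HasCompactSupport (∇ g) := by
    refine HasCompactSupport.of_support_subset_isCompact hgc fun x hx => ?_
    by_contra h
    exact hx (grad_support h)
  have hi2 : Integrable (fun x => φ x • ∇ g x) := by
    refine Continuous.integrable_of_hasCompactSupport (hφ.continuous.smul hcg) ?_
    exact HasCompactSupport.smul_left (f := φ) hgs
  refine ext_inner_left ℝ fun e => ?_
  rw [inner_neg_right, ← integral_inner hi1, ← integral_inner hi2]
  have e1 : ∀ x, ⟪e, g x • ∇ φ x⟫ = g x * fderiv ℝ φ x e := by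
    intro x
    rw [inner_smul_right, real_inner_comm, inner_grad]
  have e2 : ∀ x, ⟪e, φ x • ∇ g x⟫ = fderiv ℝ g x e * φ x := by
    intro x
    rw [inner_smul_right, real_inner_comm, inner_grad, mul_comm]
  simp only [e1, e2]
  refine integral_mul_fderiv_eq_neg_fderiv_mul_of_integrable ?_ ?_ ?_
    (fun x _ => hg.differentiable (by simp) x) (fun x _ => hφ.differentiable (by simp) x)
  · have := hi2.const_inner (𝕜 := ℝ) e
    simp only [e2] at this
    exact this
  · have := hi1.const_inner (𝕜 := ℝ) e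
    simp only [e1] at this
    exact this
  · exact Continuous.integrable_of_hasCompactSupport (hg.continuous.mul hφ.continuous)
      hgc.mul_right

end CL

open CL in
theorem t_CL : S_CL := by
  intro n p hp D hD φ v hφ hv h1 h2
  have hcg : ∀ i, Continuous (∇ (φ i)) := fun i => cont_grad (hφ i).1
  have hK : ∀ K : Set (E n), K ⊆ D → IsCompact K →
      Tendsto (fun i => ∫⁻ x in K, ‖φ i x‖ₑ) atTop (𝓝 0) ∧
      Tendsto (fun i => ∫⁻ x in K, ‖∇ (φ i) x - v x‖ₑ) atTop (𝓝 0) := by
    intro K hKD hKc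
    have : IsFiniteMeasure ((volume : Measure (E n)).restrict K) :=
      ⟨by rw [Measure.restrict_apply_univ]; exact hKc.measure_lt_top⟩
    constructor
    · refine l1 hp (fun i x => φ i x) (fun i => (hφ i).1.continuous.aestronglyMeasurable) ?_
      refine tendsto_of_tendsto_of_tendsto_of_le_of_le tendsto_const_nhds h1 (fun _ => zero_le)
        fun i => ?_
      simp only [Real.norm_eq_abs]
      exact lintegral_mono_set hKD
    · refine l1 hp (fun i x => ∇ (φ i) x - v x)
        (fun i => ((hcg i).measurable.sub hv).aestronglyMeasurable) ?_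
      refine tendsto_of_tendsto_of_tendsto_of_le_of_le tendsto_const_nhds h2 (fun _ => zero_le)
        fun i => ?_
      exact lintegral_mono_set hKD
  have hint : ∀ K : Set (E n), K ⊆ D → IsCompact K → IntegrableOn v K := by
    intro K hKD hKc
    obtain ⟨i, hi⟩ := ((hK K hKD hKc).2.eventually (gt_mem_nhds (zero_lt_one))).exists
    have ha : IntegrableOn (∇ (φ i)) K := (hcg i).continuousOn.integrableOn_compact hKc
    have hb : IntegrableOn (fun x => ∇ (φ i) x - v x) K := by
      refine ⟨((hcg i).measurable.sub hv).aestronglyMeasurable, ?_⟩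
      rw [hasFiniteIntegral_iff_enorm]
      exact hi.trans ENNReal.one_lt_top
    have hc := ha.sub hb
    have e : (∇ (φ i) - fun x => ∇ (φ i) x - v x) = v := by
      funext x
      simp
    rwa [e] at hc
  have hloc : LocallyIntegrableOn v D := by
    rw [locallyIntegrableOn_iff hD.isLocallyClosed]
    exact fun K hKD hKc => hint K hKD hKc
  have key : ∀ g : E n → ℝ, ContDiff ℝ ∞ g → HasCompactSupport g → tsupport g ⊆ D →
      ∫ x, g x • v x = 0 := by
    intro g hg hgc hgD
    have hKm : MeasurableSet (tsupport g) := (isClosed_tsupport g).measurableSet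
    obtain ⟨ha, hb⟩ := hK (tsupport g) hgD hgc
    obtain ⟨M, hM⟩ := hg.continuous.bounded_above_of_compact_support hgc
    have hgs : HasCompactSupport (∇ g) := by
      refine HasCompactSupport.of_support_subset_isCompact hgc fun x hx => ?_
      by_contra h
      exact hx (grad_support h)
    obtain ⟨M', hM'⟩ := (cont_grad hg).bounded_above_of_compact_support hgs
    have hiv : Integrable (fun x => g x • v x) := by
      rw [← integrableOn_iff_integrable_of_support_subset (s := tsupport g)]
      · refine Integrable.mono' ((hint _ hgD hgc).norm.const_mul M)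
          (hg.continuous.measurable.smul hv).aestronglyMeasurable (ae_of_all _ fun x => ?_)
        rw [norm_smul]
        exact mul_le_mul_of_nonneg_right (hM x) (norm_nonneg _)
      · intro x hx
        by_contra h
        apply hx
        change g x • v x = 0
        rw [image_eq_zero_of_notMem_tsupport h, zero_smul]
    have hA1 := l1' hKm M (fun i x => g x • ∇ (φ i) x - g x • v x)
      (fun i x => ‖∇ (φ i) x - v x‖ₑ) (fun i x hx => by
        change g x • ∇ (φ i) x - g x • v x = 0
        rw [image_eq_zero_of_notMem_tsupport hx, zero_smul, zero_smul, sub_zero]) (fun i x => by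
        change ‖g x • ∇ (φ i) x - g x • v x‖ₑ ≤ ENNReal.ofReal M * ‖∇ (φ i) x - v x‖ₑ
        rw [← smul_sub, enorm_smul]
        refine mul_le_mul_left ?_ _
        rw [← ofReal_norm]
        exact ENNReal.ofReal_le_ofReal (hM x)) hb
    have hB1 := l1' hKm M' (fun i x => φ i x • ∇ g x - 0)
      (fun i x => ‖φ i x‖ₑ) (fun i x hx => by
        change φ i x • ∇ g x - 0 = 0
        rw [grad_support hx, smul_zero, sub_zero]) (fun i x => by
        change ‖φ i x • ∇ g x - 0‖ₑ ≤ ENNReal.ofReal M' * ‖φ i x‖ₑ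
        rw [sub_zero, enorm_smul, mul_comm]
        refine mul_le_mul_left ?_ _
        rw [← ofReal_norm]
        exact ENNReal.ofReal_le_ofReal (hM' x)) ha
    have hiA : ∀ i, Integrable (fun x => g x • ∇ (φ i) x) := fun i =>
      Continuous.integrable_of_hasCompactSupport (hg.continuous.smul (hcg i))
        (HasCompactSupport.smul_right (f' := ∇ (φ i)) hgc)
    have hiB : ∀ i, Integrable (fun x => φ i x • ∇ g x) := fun i =>
      Continuous.integrable_of_hasCompactSupport ((hφ i).1.continuous.smul (cont_grad hg))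
        (HasCompactSupport.smul_left (f := φ i) hgs)
    have hA : Tendsto (fun i => ∫ x, g x • ∇ (φ i) x) atTop (𝓝 (∫ x, g x • v x)) :=
      tendsto_integral_of_L1 (fun x => g x • v x) hiv.1 (Eventually.of_forall hiA) hA1
    have hB : Tendsto (fun i => ∫ x, φ i x • ∇ g x) atTop (𝓝 (∫ _x : E n, (0 : E n))) :=
      tendsto_integral_of_L1 (fun _ => (0 : E n)) aestronglyMeasurable_const
        (Eventually.of_forall hiB) hB1
    rw [integral_zero] at hB
    have hAB : (fun i => ∫ x, g x • ∇ (φ i) x) = fun i => -∫ x, φ i x • ∇ g x := by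
      funext i
      exact ibp hg hgc (hφ i).1
    rw [hAB] at hA
    have h0 := hB.neg
    rw [neg_zero] at h0
    exact tendsto_nhds_unique hA h0
  have hfin := hD.ae_eq_zero_of_integral_contDiff_smul_eq_zero hloc key
  rwa [ae_restrict_iff' hD.measurableSet]

end Pool.Agent.Q64.LP
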