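import Pool.Agent.Q64.LP.Stm

open MeasureTheory Filter Topology Set Metric
open scoped ENNReal NNReal RealInnerProductSpace ContDiff Gradient

namespace Pool.Agent.Q64.LP

namespace CMP

theorem rr_sq (x : E 3) : rr x ^ 2 = x 1 ^ 2 + x 2 ^ 2 := by
  unfold rr; exact Real.sq_sqrt (by positivity)

theorem rr_nonneg (x : E 3) : 0 ≤ rr x := Real.sqrt_nonneg _

theorem norm3 (a b c : ℝ) : ‖(!₂[a, b, c] : E 3)‖ = Real.sqrt (a ^ 2 + b ^ 2 + c ^ 2) := by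
  rw [EuclideanSpace.norm_eq]
  simp [Fin.sum_univ_three]

theorem inner3 (a b c a' b' c' : ℝ) :
    ⟪(!₂[a, b, c] : E 3), !₂[a', b', c']⟫ = a * a' + b * b' + c * c' := by
  simp [PiLp.inner_apply, Fin.sum_univ_three, mul_comm]

theorem normv (x : E 3) (a b : ℝ) :
    ‖(!₂[a, b * x 1, b * x 2] : E 3)‖ = Real.sqrt (a ^ 2 + (b * rr x) ^ 2) := by
  rw [norm3]; congr 1; rw [mul_pow b (rr x), rr_sq]; ring

theorem innerv (x : E 3) (a b a' b' : ℝ) :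
    ⟪(!₂[a, b * x 1, b * x 2] : E 3), !₂[a', b' * x 1, b' * x 2]⟫
      = a * a' + b * b' * rr x ^ 2 := by
  rw [inner3, rr_sq]; ring

/-- regions O and K -/
theorem core {A g N : ℝ} (hg : 0 < g) (hA : |A| ≤ 7 / 6 * g) (hN : N = Real.sqrt (A ^ 2 + g ^ 2)) :
    1 / 4 * N ^ (5 / 4 : ℝ) ≤ g ^ (1 / 4 : ℝ) * g ∧ g ^ (1 / 4 : ℝ) ≤ 2 * N ^ (5 / 4 - 1 : ℝ) := by
  have hA2 : A ^ 2 ≤ (7 / 6 * g) ^ 2 := by rw [← sq_abs]; exact pow_le_pow_left₀ (abs_nonneg _) hA 2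
  have h1 : g ≤ N := by
    rw [hN]; apply Real.le_sqrt_of_sq_le; nlinarith [sq_nonneg A]
  have h2 : N ≤ 2 * g := by
    rw [hN]; apply Real.sqrt_le_iff.mpr; constructor
    · positivity
    · nlinarith
  have hN0 : 0 ≤ N := hg.le.trans h1
  constructor
  · have h3 : N ^ (5 / 4 : ℝ) ≤ (2 * g) ^ (5 / 4 : ℝ) := Real.rpow_le_rpow hN0 h2 (by norm_num)
    have h4 : (2 * g) ^ (5 / 4 : ℝ) = (2 : ℝ) ^ (5 / 4 : ℝ) * g ^ (5 / 4 : ℝ) :=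
      Real.mul_rpow (by norm_num) hg.le
    have h5 : g ^ (5 / 4 : ℝ) = g ^ (1 / 4 : ℝ) * g := by
      rw [show (5 / 4 : ℝ) = 1 / 4 + 1 by norm_num, Real.rpow_add hg, Real.rpow_one]
    have h6 : (2 : ℝ) ^ (5 / 4 : ℝ) ≤ 4 := by
      calc (2 : ℝ) ^ (5 / 4 : ℝ) ≤ (2 : ℝ) ^ (2 : ℝ) :=
            Real.rpow_le_rpow_of_exponent_le (by norm_num) (by norm_num)
        _ = 4 := by norm_num
    have h7 : 0 ≤ g ^ (5 / 4 : ℝ) := by positivity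
    rw [← h5]
    nlinarith [mul_le_mul_of_nonneg_right h6 h7]
  · have h3 : g ^ (1 / 4 : ℝ) ≤ N ^ (1 / 4 : ℝ) := Real.rpow_le_rpow hg.le h1 (by norm_num)
    have h4 : 0 ≤ N ^ (1 / 4 : ℝ) := by positivity
    rw [show (5 / 4 - 1 : ℝ) = 1 / 4 by norm_num]
    linarith

/-- region T -/
theorem coreT {m b F s ρ : ℝ} (hs : 0 < s) (hs1 : s < 1) (hρ0 : 0 ≤ ρ) (hρ : ρ < s ^ (3 / 2 : ℝ))
    (hm : m = 1 / 3 * s ^ (-2 : ℝ) + 7 / 6 * s ^ (-(1 / 2) : ℝ)) (hb : b = s ^ (-(1 / 2) : ℝ))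
    (hF : F = Real.sqrt (b ^ 2 + (1 / 4 * s ^ (-(3 / 2) : ℝ) * ρ) ^ 2)) :
    1 / 4 * m ^ (5 / 4 : ℝ) ≤ b * m ∧ F ≤ 2 * m ^ (5 / 4 - 1 : ℝ) := by
  obtain ⟨a, ha, rfl⟩ : ∃ a : ℝ, 0 < a ∧ s = a ^ 2 := ⟨Real.sqrt s, Real.sqrt_pos.mpr hs,
    (Real.sq_sqrt hs.le).symm⟩
  have ha1 : a < 1 := by nlinarith
  have e1 : (a ^ 2) ^ (-2 : ℝ) = (a ^ 4)⁻¹ := by
    rw [← Real.rpow_natCast, ← Real.rpow_mul ha.le, ← Real.rpow_natCast, ← Real.rpow_neg ha.le]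
    norm_num
  have e2 : (a ^ 2) ^ (-(1 / 2) : ℝ) = a⁻¹ := by
    rw [← Real.rpow_natCast, ← Real.rpow_mul ha.le, ← Real.rpow_neg_one]
    norm_num
  have e3 : (a ^ 2) ^ (3 / 2 : ℝ) = a ^ 3 := by
    rw [← Real.rpow_natCast, ← Real.rpow_mul ha.le, ← Real.rpow_natCast]
    norm_num
  have e4 : (a ^ 2) ^ (-(3 / 2) : ℝ) = (a ^ 3)⁻¹ := by
    rw [← Real.rpow_natCast, ← Real.rpow_mul ha.le, ← Real.rpow_natCast, ← Real.rpow_neg ha.le]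
    norm_num
  rw [e1, e2] at hm
  rw [e2] at hb
  rw [e4] at hF
  rw [e3] at hρ
  have hi1 : a⁻¹ ≤ (a ^ 4)⁻¹ := by
    apply inv_anti₀ (by positivity)
    calc a ^ 4 ≤ a ^ 1 := pow_le_pow_of_le_one ha.le ha1.le (by norm_num)
      _ = a := pow_one a
  have hi0 : 0 < a⁻¹ := by positivity
  have hi4 : 0 < (a ^ 4)⁻¹ := by positivity
  have hm1 : m ≤ 256 * (a ^ 4)⁻¹ := by rw [hm]; nlinarith
  have hm2 : 1 / 3 * (a ^ 4)⁻¹ ≤ m := by rw [hm]; nlinarith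
  have hm0 : 0 < m := by nlinarith
  have hq : m ^ (1 / 4 : ℝ) ≤ 4 * a⁻¹ := by
    have : (4 * a⁻¹ : ℝ) = ((4 * a⁻¹) ^ 4) ^ (1 / 4 : ℝ) := by
      rw [← Real.rpow_natCast, ← Real.rpow_mul (by positivity)]; norm_num
    rw [this]
    apply Real.rpow_le_rpow hm0.le _ (by norm_num)
    rw [mul_pow, inv_pow]; norm_num; exact hm1
  have hq2 : 3 / 4 * a⁻¹ ≤ m ^ (1 / 4 : ℝ) := by
    have : (3 / 4 * a⁻¹ : ℝ) = ((3 / 4 * a⁻¹) ^ 4) ^ (1 / 4 : ℝ) := by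
      rw [← Real.rpow_natCast, ← Real.rpow_mul (by positivity)]; norm_num
    rw [this]
    apply Real.rpow_le_rpow (by positivity) _ (by norm_num)
    rw [mul_pow, inv_pow]; norm_num; linarith
  constructor
  · have h5 : m ^ (5 / 4 : ℝ) = m ^ (1 / 4 : ℝ) * m := by
      rw [show (5 / 4 : ℝ) = 1 / 4 + 1 by norm_num, Real.rpow_add hm0, Real.rpow_one]
    rw [h5, hb]
    nlinarith [mul_le_mul_of_nonneg_right hq hm0.le]
  · rw [show (5 / 4 - 1 : ℝ) = 1 / 4 by norm_num]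
    have hF2 : F ≤ 5 / 4 * a⁻¹ := by
      rw [hF, hb]
      apply Real.sqrt_le_iff.mpr
      constructor
      · positivity
      · have h6 : (a ^ 3)⁻¹ * ρ ≤ 1 := by
          rw [inv_mul_le_iff₀ (by positivity)]; linarith
        have h7 : 0 ≤ (a ^ 3)⁻¹ * ρ := by positivity
        have h8 : (1 / 4 * (a ^ 3)⁻¹ * ρ) ^ 2 ≤ 1 / 16 := by nlinarith
        have h9 : 1 ≤ a⁻¹ := (one_le_inv₀ ha).mpr ha1.le
        nlinarith
    linarith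

end CMP

open CMP in
theorem t_CMP : S_CMP := by
  refine ⟨1 / 4, 2, by norm_num, fun x hx => ?_⟩
  have hρ0 := rr_nonneg x
  have hs0 : 0 ≤ ss x := abs_nonneg _
  have hs1 : ss x < 1 := by
    have h1 : |x 0| ≤ ‖x‖ := by
      have := PiLp.norm_apply_le x 0
      simpa using this
    have h2 : ‖x‖ < 1 := by simpa using hx
    exact lt_of_le_of_lt h1 h2
  by_cases hO : ss x ≤ rr x
  · -- region O
    unfold GG FF
    rw [if_pos hO, if_pos hO, normv, normv, innerv]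
    rcases hρ0.eq_or_lt with h0 | hpos
    · rw [← h0]; simp
      norm_num
    · have e1 : -(rr x ^ (-(3 / 2) : ℝ)) * rr x = -(rr x ^ (-(1 / 2) : ℝ)) := by
        rw [neg_mul, ← Real.rpow_add_one hpos.ne']; norm_num
      have e2 : -(rr x ^ (-(9 / 8) : ℝ)) * rr x = -(rr x ^ (-(1 / 8) : ℝ)) := by
        rw [neg_mul, ← Real.rpow_add_one hpos.ne']; norm_num
      have hg : 0 < rr x ^ (-(1 / 2) : ℝ) := by positivity
      have hgf : (rr x ^ (-(1 / 2) : ℝ)) ^ (1 / 4 : ℝ) = rr x ^ (-(1 / 8) : ℝ) := by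
        rw [← Real.rpow_mul hρ0]; norm_num
      have hc := core (A := 0) (N := Real.sqrt (0 ^ 2 + (rr x ^ (-(1 / 2) : ℝ)) ^ 2)) hg
        (by simp; positivity) rfl
      rw [e1, e2]
      have e3 : 0 * 0 + -(rr x ^ (-(9 / 8) : ℝ)) * -(rr x ^ (-(3 / 2) : ℝ)) * rr x ^ 2
          = rr x ^ (-(1 / 8) : ℝ) * rr x ^ (-(1 / 2) : ℝ) := by
        have : 0 * 0 + -(rr x ^ (-(9 / 8) : ℝ)) * -(rr x ^ (-(3 / 2) : ℝ)) * rr x ^ 2
          = (-(rr x ^ (-(9 / 8) : ℝ)) * rr x) * (-(rr x ^ (-(3 / 2) : ℝ)) * rr x) := by ring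
        rw [this, e1, e2]; ring
      rw [e3]
      rw [hgf] at hc
      have e4 : Real.sqrt (0 ^ 2 + (-(rr x ^ (-(1 / 8) : ℝ))) ^ 2) = rr x ^ (-(1 / 8) : ℝ) := by
        rw [zero_pow (by norm_num), zero_add, neg_sq, Real.sqrt_sq (by positivity)]
      rw [e4, neg_sq]
      exact hc
  · have hs : 0 < ss x := lt_of_le_of_lt hρ0 (not_le.mp hO)
    have hsgn : |(SignType.sign (x 0) : ℝ)| = 1 := by
      have hx0 : x 0 ≠ 0 := by
        intro h; unfold ss at hs; rw [h] at hs; simp at hs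
      rcases lt_or_gt_of_ne hx0 with h | h
      · rw [sign_neg h]; simp
      · rw [sign_pos h]; simp
    have hsg2 : (SignType.sign (x 0) : ℝ) * (SignType.sign (x 0) : ℝ) = 1 := by
      rw [← abs_mul_abs_self, hsgn]; norm_num
    by_cases hK : ss x ^ (3 / 2 : ℝ) ≤ rr x
    · -- region K
      have hpos : 0 < rr x := lt_of_lt_of_le (by positivity) hK
      unfold GG FF
      rw [if_neg hO, if_neg hO, if_pos hK, if_pos hK, normv, normv, innerv]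
      set s := ss x with hsdef
      set ρ := rr x with hρdef
      have e5 : ρ ^ (-5 : ℝ) * ρ = ρ ^ (-4 : ℝ) := by
        rw [← Real.rpow_add_one hpos.ne']; norm_num
      have e6 : ρ ^ (-2 : ℝ) * ρ = ρ ^ (-1 : ℝ) := by
        rw [← Real.rpow_add_one hpos.ne']; norm_num
      have e1 : -(s ^ (7 / 2 : ℝ) * ρ ^ (-5 : ℝ)) * ρ = -(s ^ (7 / 2 : ℝ) * ρ ^ (-4 : ℝ)) := by
        rw [← e5]; ring
      have e2 : -(s ^ (7 / 8 : ℝ) * ρ ^ (-2 : ℝ)) * ρ = -(s ^ (7 / 8 : ℝ) * ρ ^ (-1 : ℝ)) := by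
        rw [← e6]; ring
      have hg : 0 < s ^ (7 / 2 : ℝ) * ρ ^ (-4 : ℝ) := by positivity
      have hgf : (s ^ (7 / 2 : ℝ) * ρ ^ (-4 : ℝ)) ^ (1 / 4 : ℝ) = s ^ (7 / 8 : ℝ) * ρ ^ (-1 : ℝ) := by
        rw [Real.mul_rpow (by positivity) (by positivity), ← Real.rpow_mul hs0,
          ← Real.rpow_mul hρ0]; norm_num
      have hA : |(SignType.sign (x 0) : ℝ) * (7 / 6 * (s ^ (5 / 2 : ℝ) * ρ ^ (-3 : ℝ) -
          s ^ (-(1 / 2) : ℝ)))| ≤ 7 / 6 * (s ^ (7 / 2 : ℝ) * ρ ^ (-4 : ℝ)) := by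
        rw [abs_mul, hsgn, one_mul, abs_mul, abs_of_pos (by norm_num : (0 : ℝ) < 7 / 6)]
        apply mul_le_mul_of_nonneg_left _ (by norm_num)
        have hle : ρ ≤ s := (not_le.mp hO).le
        have h1 : s ^ (5 / 2 : ℝ) * ρ ^ (-3 : ℝ) ≤ s ^ (7 / 2 : ℝ) * ρ ^ (-4 : ℝ) := by
          have a1 : s ^ (7 / 2 : ℝ) = s ^ (5 / 2 : ℝ) * s := by
            rw [← Real.rpow_add_one hs.ne']; norm_num
          have a2 : ρ ^ (-3 : ℝ) = ρ ^ (-4 : ℝ) * ρ := by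
            rw [← Real.rpow_add_one hpos.ne']; norm_num
          rw [a1, a2]
          have : 0 ≤ s ^ (5 / 2 : ℝ) * ρ ^ (-4 : ℝ) := by positivity
          nlinarith
        have h2 : s ^ (-(1 / 2) : ℝ) ≤ s ^ (7 / 2 : ℝ) * ρ ^ (-4 : ℝ) := by
          have a1 : s ^ (7 / 2 : ℝ) = s ^ (-(1 / 2) : ℝ) * s ^ (4 : ℝ) := by
            rw [← Real.rpow_add hs]; norm_num
          have a3 : 1 ≤ s ^ (4 : ℝ) * ρ ^ (-4 : ℝ) := by
            rw [Real.rpow_neg hρ0, ← div_eq_mul_inv, one_le_div (by positivity)]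
            exact Real.rpow_le_rpow hρ0 hle (by norm_num)
          rw [a1, mul_assoc]
          have : 0 ≤ s ^ (-(1 / 2) : ℝ) := by positivity
          nlinarith
        have h3 : 0 ≤ s ^ (5 / 2 : ℝ) * ρ ^ (-3 : ℝ) := by positivity
        have h4 : 0 ≤ s ^ (-(1 / 2) : ℝ) := by positivity
        rw [abs_le]; constructor <;> linarith
      have hc := core hg hA rfl
      rw [hgf] at hc
      rw [e1, e2, neg_sq, neg_sq, zero_mul, zero_add]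
      have e3 : -(s ^ (7 / 8 : ℝ) * ρ ^ (-2 : ℝ)) * -(s ^ (7 / 2 : ℝ) * ρ ^ (-5 : ℝ)) * ρ ^ 2
          = s ^ (7 / 8 : ℝ) * ρ ^ (-1 : ℝ) * (s ^ (7 / 2 : ℝ) * ρ ^ (-4 : ℝ)) := by
        rw [← e5, ← e6]; ring
      have e4 : Real.sqrt (0 ^ 2 + (s ^ (7 / 8 : ℝ) * ρ ^ (-1 : ℝ)) ^ 2)
          = s ^ (7 / 8 : ℝ) * ρ ^ (-1 : ℝ) := by
        rw [zero_pow (by norm_num), zero_add, Real.sqrt_sq (by positivity)]
      rw [e3, e4]
      exact hc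
    · -- region T
      have hT := not_le.mp hK
      have hc := coreT hs hs1 hρ0 hT rfl rfl rfl
      have hG : GG x = !₂[(SignType.sign (x 0) : ℝ) * (-(1 / 3) * ss x ^ (-2 : ℝ) -
          7 / 6 * ss x ^ (-(1 / 2) : ℝ)), 0 * x 1, 0 * x 2] := by
        unfold GG; rw [if_neg hO, if_neg hK]; simp
      have hF : FF x = !₂[-((SignType.sign (x 0) : ℝ) * ss x ^ (-(1 / 2) : ℝ)),
          -(1 / 4 * ss x ^ (-(3 / 2) : ℝ)) * x 1, -(1 / 4 * ss x ^ (-(3 / 2) : ℝ)) * x 2] := by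
        unfold FF; rw [if_neg hO, if_neg hK]
      rw [hG, hF, normv, normv, innerv]
      have e1 : Real.sqrt (((SignType.sign (x 0) : ℝ) * (-(1 / 3) * ss x ^ (-2 : ℝ) -
          7 / 6 * ss x ^ (-(1 / 2) : ℝ))) ^ 2 + (0 * rr x) ^ 2) =
          1 / 3 * ss x ^ (-2 : ℝ) + 7 / 6 * ss x ^ (-(1 / 2) : ℝ) := by
        rw [mul_pow, sq (SignType.sign (x 0) : ℝ), hsg2, zero_mul, zero_pow (by norm_num), add_zero,
          one_mul, show (-(1 / 3) * ss x ^ (-2 : ℝ) - 7 / 6 * ss x ^ (-(1 / 2) : ℝ)) =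
          -(1 / 3 * ss x ^ (-2 : ℝ) + 7 / 6 * ss x ^ (-(1 / 2) : ℝ)) by ring, neg_sq,
          Real.sqrt_sq (by positivity)]
      have e2 : -((SignType.sign (x 0) : ℝ) * ss x ^ (-(1 / 2) : ℝ)) *
          ((SignType.sign (x 0) : ℝ) * (-(1 / 3) * ss x ^ (-2 : ℝ) -
          7 / 6 * ss x ^ (-(1 / 2) : ℝ))) + -(1 / 4 * ss x ^ (-(3 / 2) : ℝ)) * 0 * rr x ^ 2
          = ss x ^ (-(1 / 2) : ℝ) *
            (1 / 3 * ss x ^ (-2 : ℝ) + 7 / 6 * ss x ^ (-(1 / 2) : ℝ)) := by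
        linear_combination (ss x ^ (-(1 / 2) : ℝ) *
            (1 / 3 * ss x ^ (-2 : ℝ) + 7 / 6 * ss x ^ (-(1 / 2) : ℝ))) * hsg2
      have e3 : Real.sqrt ((-((SignType.sign (x 0) : ℝ) * ss x ^ (-(1 / 2) : ℝ))) ^ 2 +
          (-(1 / 4 * ss x ^ (-(3 / 2) : ℝ)) * rr x) ^ 2) =
          Real.sqrt ((ss x ^ (-(1 / 2) : ℝ)) ^ 2 + (1 / 4 * ss x ^ (-(3 / 2) : ℝ) * rr x) ^ 2) := by
        congr 1
        linear_combination (ss x ^ (-(1 / 2) : ℝ)) ^ 2 * hsg2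
      rw [e1, e2, e3]
      exact hc

end Pool.Agent.Q64.LP
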