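import Pool.Agent.Q64.LP.Stm

/-! Jobs CYL, CYB and AXF of project LP: cylindrical coordinates. -/

set_option autoImplicit false

open MeasureTheory Filter Topology Set Metric
open scoped ENNReal NNReal

namespace Pool.Agent.Q64.LP


namespace CYL

/-- The coordinates. -/
noncomputable def eqv : E 3 ≃ᵐ ℝ × (ℝ × ℝ) :=
  (MeasurableEquiv.toLp 2 (Fin 3 → ℝ)).symm.trans
    ((MeasurableEquiv.piFinSuccAbove (fun _ : Fin 3 => ℝ) 0).trans
      (MeasurableEquiv.prodCongr (MeasurableEquiv.refl ℝ) MeasurableEquiv.finTwoArrow))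

theorem eqv_symm (q : ℝ × (ℝ × ℝ)) : eqv.symm q = !₂[q.1, q.2.1, q.2.2] := by
  rw [MeasurableEquiv.symm_apply_eq]
  rfl

theorem mp : MeasurePreserving eqv (volume : Measure (E 3)) volume := by
  refine (EuclideanSpace.volume_preserving_symm_measurableEquiv_toLp (Fin 3)).trans ?_
  refine (volume_preserving_piFinSuccAbove (fun _ : Fin 3 => ℝ) 0).trans ?_
  exact (MeasurePreserving.id _).prod (volume_preserving_finTwoArrow ℝ)

theorem mps : MeasurePreserving eqv.symm (volume : Measure (ℝ × (ℝ × ℝ)))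
    (volume : Measure (E 3)) := mp.symm

theorem meas_vec : Measurable fun q : ℝ × (ℝ × ℝ) => (!₂[q.1, q.2.1, q.2.2] : E 3) := by
  have : (fun q : ℝ × (ℝ × ℝ) => (!₂[q.1, q.2.1, q.2.2] : E 3)) = eqv.symm := by
    funext q
    rw [eqv_symm]
  rw [this]
  exact eqv.symm.measurable

theorem lint (g : E 3 → ℝ≥0∞) (hg : Measurable g) :
    ∫⁻ x, g x = ∫⁻ t : ℝ, ∫⁻ y : ℝ × ℝ, g (!₂[t, y.1, y.2]) := by
  have h1 : ∫⁻ x, g x = ∫⁻ q : ℝ × (ℝ × ℝ), g (eqv.symm q) :=
    (mps.lintegral_comp_emb eqv.symm.measurableEmbedding g).symm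
  rw [h1]
  simp_rw [eqv_symm]
  rw [Measure.volume_eq_prod, lintegral_prod]
  exact (hg.comp meas_vec).aemeasurable

theorem int' (g : E 3 → ℝ) : ∫ x, g x = ∫ q : ℝ × (ℝ × ℝ), g (!₂[q.1, q.2.1, q.2.2]) := by
  have h1 : ∫ x, g x = ∫ q : ℝ × (ℝ × ℝ), g (eqv.symm q) :=
    (mps.integral_comp eqv.symm.measurableEmbedding g).symm
  rw [h1]
  simp_rw [eqv_symm]

theorem integrable' {g : E 3 → ℝ} (hg : Integrable g) :
    Integrable (fun q : ℝ × (ℝ × ℝ) => g (!₂[q.1, q.2.1, q.2.2])) volume := by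
  have h1 := (mps.integrable_comp_emb eqv.symm.measurableEmbedding (g := g)).2 hg
  have h2 : g ∘ eqv.symm = fun q : ℝ × (ℝ × ℝ) => g (!₂[q.1, q.2.1, q.2.2]) := by
    funext q
    simp [Function.comp, eqv_symm]
  rwa [h2] at h1

theorem target_eq : polarCoord.target = Ioi (0 : ℝ) ×ˢ Ioo (-Real.pi) Real.pi := rfl

theorem polar_lint (f : ℝ × ℝ → ℝ≥0∞) (hf : Measurable f) :
    ∫⁻ y, f y = ∫⁻ θ in Ioo (-Real.pi) Real.pi, ∫⁻ r in Ioi (0 : ℝ),
      ENNReal.ofReal r * f (r * Real.cos θ, r * Real.sin θ) := by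
  rw [← lintegral_comp_polarCoord_symm, target_eq, Measure.volume_eq_prod, ← Measure.prod_restrict,
    lintegral_prod_symm]
  · rfl
  · refine (Measurable.mul ?_ ?_).aemeasurable
    · exact ENNReal.measurable_ofReal.comp measurable_fst
    · refine hf.comp ?_
      change Measurable fun p : ℝ × ℝ => (p.1 * Real.cos p.2, p.1 * Real.sin p.2)
      fun_prop

theorem polar_int (f : ℝ × ℝ → ℝ) (hf : Integrable f volume) :
    ∫ y, f y = ∫ θ in Ioo (-Real.pi) Real.pi, ∫ r in Ioi (0 : ℝ),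
      r * f (r * Real.cos θ, r * Real.sin θ) := by
  have hi : IntegrableOn (fun p : ℝ × ℝ => |(fderivPolarCoordSymm p).det| • f (polarCoord.symm p))
      polarCoord.target volume := by
    rw [← integrableOn_image_iff_integrableOn_abs_det_fderiv_smul volume
      polarCoord.open_target.measurableSet
      (fun p _ => (hasFDerivAt_polarCoord_symm p).hasFDerivWithinAt) polarCoord.symm.injOn]
    exact hf.integrableOn
  have hi2 : IntegrableOn (fun p : ℝ × ℝ => p.1 • f (polarCoord.symm p))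
      polarCoord.target volume := by
    refine hi.congr_fun (fun p hp => ?_) polarCoord.open_target.measurableSet
    simp only [det_fderivPolarCoordSymm]
    rw [abs_of_pos hp.1]
  rw [← integral_comp_polarCoord_symm]
  rw [target_eq, Measure.volume_eq_prod] at hi2 ⊢
  rw [IntegrableOn, ← Measure.prod_restrict] at hi2
  rw [← Measure.prod_restrict, integral_prod_symm _ hi2]
  rfl

end CYL

open CYL

/-- JOB CYL -/
theorem t_CYL : S_CYL := by
  intro g hg
  rw [lint g hg]
  refine lintegral_congr fun t => ?_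
  rw [polar_lint (fun y => g (!₂[t, y.1, y.2]))]
  · rfl
  · exact hg.comp (meas_vec.comp (measurable_const.prodMk measurable_id))

/-- JOB CYB -/
theorem t_CYB : S_CYB := by
  intro g hg
  have h1 := integrable' hg
  rw [int' g, Measure.volume_eq_prod, integral_prod _ h1]
  refine integral_congr_ae ?_
  filter_upwards [h1.prod_right_ae] with t ht
  rw [polar_int (fun y => g (!₂[t, y.1, y.2])) ht]
  rfl

/-- JOB AXF -/
theorem t_AXF : S_AXF := by
  intro g hg
  have h1 := integrable' hg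
  rw [int' g, Measure.volume_eq_prod, integral_prod_symm _ h1]

end Pool.Agent.Q64.LP
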