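import Pool.Agent.Q64.LP.Stm

/-! Lemma DIF of project LP (helper195): `uu` has the gradient `GG` almost everywhere. -/

set_option autoImplicit false

open MeasureTheory Filter Topology Set Metric
open scoped ENNReal NNReal RealInnerProductSpace ContDiff Gradient

namespace Pool.Agent.Q64.LP.DIF

/-- the coordinate functionals -/
noncomputable def P (i : Fin 3) : E 3 →L[ℝ] ℝ := EuclideanSpace.proj i

theorem P_apply (i : Fin 3) (v : E 3) : P i v = v i := rfl

theorem hasGrad_of {f : E 3 → ℝ} {x : E 3} {a b c : ℝ}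
    (h : HasFDerivAt f (a • P 0 + b • P 1 + c • P 2) x) : HasGradientAt f !₂[a, b, c] x := by
  rw [hasGradientAt_iff_hasFDerivAt]
  refine h.congr_fderiv ?_
  ext v
  rw [InnerProductSpace.toDual_apply_apply, PiLp.inner_apply, Fin.sum_univ_three]
  simp [P_apply]
  ring

theorem rr_pt {t r θ : ℝ} (hr : 0 ≤ r) : rr (pt t r θ) = r := by
  unfold rr pt
  have h : (r * Real.cos θ) ^ 2 + (r * Real.sin θ) ^ 2 = r ^ 2 := by
    have := Real.sin_sq_add_cos_sq θ
    linear_combination r ^ 2 * this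
  simp only [Matrix.cons_val_one, Matrix.cons_val_zero, Matrix.cons_val]
  rw [h, Real.sqrt_sq hr]

theorem ss_pt {t r θ : ℝ} : ss (pt t r θ) = |t| := by
  unfold ss pt
  simp

theorem cont_ss : Continuous ss := by
  unfold ss
  fun_prop

theorem cont_rr : Continuous rr := by
  unfold rr
  fun_prop

/-- surfaces of revolution are null sets -/
theorem null (cyl : S_CYL) {h : ℝ → ℝ} (hh : Continuous h) :
    volume {x : E 3 | rr x = h (ss x)} = 0 := by
  have hm : MeasurableSet {x : E 3 | rr x = h (ss x)} :=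
    (isClosed_eq cont_rr (hh.comp cont_ss)).measurableSet
  rw [← lintegral_indicator_one hm, cyl _ (measurable_one.indicator hm)]
  have h1 : ∀ t θ : ℝ, ∫⁻ r in Ioi (0 : ℝ), ENNReal.ofReal r *
      {x : E 3 | rr x = h (ss x)}.indicator 1 (pt t r θ) = 0 := by
    intro t θ
    rw [lintegral_eq_zero_iff' ?_]
    · rw [EventuallyEq, ae_restrict_iff' measurableSet_Ioi]
      have h2 : ∀ᵐ r : ℝ, r ≠ h |t| := by
        rw [ae_iff]
        have : {a : ℝ | ¬ a ≠ h |t|} = {h |t|} := by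
          ext a; simp
        rw [this]
        exact Real.volume_singleton
      filter_upwards [h2] with r hr h0
      have h3 : pt t r θ ∉ {x : E 3 | rr x = h (ss x)} := by
        rw [Set.mem_ofPred_eq, rr_pt (le_of_lt h0), ss_pt]
        exact hr
      rw [indicator_of_notMem h3, mul_zero]
      rfl
    · refine Measurable.aemeasurable ?_
      refine (ENNReal.measurable_ofReal).mul ?_
      refine (measurable_one.indicator hm).comp ?_
      unfold pt
      fun_prop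
  simp only [h1, lintegral_zero]

theorem dss {x : E 3} (h : x 0 ≠ 0) : HasFDerivAt ss ((SignType.sign (x 0) : ℝ) • P 0) x := by
  have h1 : HasFDerivAt (fun y : E 3 => y 0) (P 0) x := (P 0).hasFDerivAt
  exact (hasDerivAt_abs h).comp_hasFDerivAt x h1

theorem drr {x : E 3} (h : rr x ≠ 0) :
    HasFDerivAt rr ((x 1 / rr x) • P 1 + (x 2 / rr x) • P 2) x := by
  have h1 : HasFDerivAt (fun y : E 3 => y 1) (P 1) x := (P 1).hasFDerivAt
  have h2 : HasFDerivAt (fun y : E 3 => y 2) (P 2) x := (P 2).hasFDerivAt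
  have h3 := (h1.pow 2).add (h2.pow 2)
  have h4 : x 1 ^ 2 + x 2 ^ 2 ≠ 0 := fun h0 => h (by unfold rr; rw [h0, Real.sqrt_zero])
  have h5 := h3.sqrt (by simpa using h4)
  refine h5.congr_fderiv ?_
  ext v
  have e : √(x 1 ^ 2 + x 2 ^ 2) = rr x := rfl
  simp [P_apply, e]
  field_simp

/-- region O -/
theorem caseO {x : E 3} (h : ss x < rr x) : HasGradientAt uu (GG x) x := by
  have h0 : 0 < rr x := (abs_nonneg _).trans_lt h
  have hev : uu =ᶠ[𝓝 x] fun y => -2 * Real.sqrt (rr y) := by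
    filter_upwards [(cont_ss.continuousAt (x := x)).eventually_lt cont_rr.continuousAt h] with y hy
    unfold uu
    rw [if_pos hy.le]
  have hG : GG x = !₂[0, -(rr x ^ (-(3 / 2) : ℝ)) * x 1, -(rr x ^ (-(3 / 2) : ℝ)) * x 2] := by
    unfold GG
    rw [if_pos h.le]
  rw [hG]
  refine hasGrad_of ?_
  have h1 := ((Real.hasDerivAt_sqrt h0.ne').const_mul (-2)).comp_hasFDerivAt x (drr h0.ne')
  refine HasFDerivAt.congr_of_eventuallyEq (h1.congr_fderiv ?_) hev
  have e1 : rr x ^ (-(3 / 2) : ℝ) = (√(rr x))⁻¹ / rr x := by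
    rw [show (-(3 / 2) : ℝ) = -(1 / 2) - 1 by norm_num, Real.rpow_sub_one h0.ne', Real.rpow_neg h0.le,
      Real.sqrt_eq_rpow]
  rw [e1]
  have h2 : 0 < √(rr x) := Real.sqrt_pos.2 h0
  ext v
  simp [P_apply]
  field_simp

/-- region K -/
theorem caseK {x : E 3} (h : rr x < ss x) (h' : ss x ^ (3 / 2 : ℝ) < rr x) :
    HasGradientAt uu (GG x) x := by
  have hs : 0 < ss x := (Real.sqrt_nonneg _).trans_lt h
  have h0 : 0 < rr x := (Real.rpow_nonneg hs.le _).trans_lt h'
  have hx0 : x 0 ≠ 0 := fun h => by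
    unfold ss at hs
    rw [h, abs_zero] at hs
    exact lt_irrefl _ hs
  have c1 : Continuous fun y : E 3 => ss y ^ (3 / 2 : ℝ) :=
    cont_ss.rpow_const fun _ => Or.inr (by norm_num)
  have hev : uu =ᶠ[𝓝 x] fun y => ss y ^ (7 / 2 : ℝ) * (3 * rr y ^ 3)⁻¹ - 7 / 3 * Real.sqrt (ss y) := by
    filter_upwards [(cont_rr.continuousAt (x := x)).eventually_lt cont_ss.continuousAt h,
      (c1.continuousAt (x := x)).eventually_lt cont_rr.continuousAt h'] with y hy hy'
    unfold uu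
    rw [if_neg (not_le.2 hy), if_pos hy'.le, div_eq_mul_inv]
  have hG : GG x = !₂[SignType.sign (x 0) * (7 / 6 * (ss x ^ (5 / 2 : ℝ) * rr x ^ (-3 : ℝ) - ss x ^ (-(1 / 2) : ℝ))),
      -(ss x ^ (7 / 2 : ℝ) * rr x ^ (-5 : ℝ)) * x 1,
      -(ss x ^ (7 / 2 : ℝ) * rr x ^ (-5 : ℝ)) * x 2] := by
    unfold GG
    rw [if_neg (not_le.2 h), if_pos h'.le]
  rw [hG]
  refine hasGrad_of ?_
  have d1 := (Real.hasDerivAt_rpow_const (x := ss x) (p := 7 / 2) (Or.inl hs.ne')).comp_hasFDerivAt x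
    (dss hx0)
  have d2 := ((((hasDerivAt_id (rr x)).pow 3).const_mul 3).inv (by
    simp; exact h0.ne')).comp_hasFDerivAt x (drr h0.ne')
  have d3 := ((Real.hasDerivAt_sqrt hs.ne').const_mul (7 / 3)).comp_hasFDerivAt x (dss hx0)
  have d4 := (d1.mul d2).sub d3
  refine HasFDerivAt.congr_of_eventuallyEq (h₁ := ?_) (h := d4.congr_fderiv ?_)
  rotate_left
  · filter_upwards [hev] with y hy
    rw [hy]
    simp
  have hw : 0 < √(ss x) := Real.sqrt_pos.2 hs
  have e1 : ss x ^ (7 / 2 : ℝ) = ss x ^ 3 * √(ss x) := by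
    rw [show (7 / 2 : ℝ) = (3 : ℕ) + 1 / 2 by norm_num, Real.rpow_add hs, Real.rpow_natCast,
      Real.sqrt_eq_rpow]
  have e2 : ss x ^ (5 / 2 : ℝ) = ss x ^ 2 * √(ss x) := by
    rw [show (5 / 2 : ℝ) = (2 : ℕ) + 1 / 2 by norm_num, Real.rpow_add hs, Real.rpow_natCast,
      Real.sqrt_eq_rpow]
  have e3 : ss x ^ (-(1 / 2) : ℝ) = (√(ss x))⁻¹ := by
    rw [Real.rpow_neg hs.le, Real.sqrt_eq_rpow]
  have e4 : rr x ^ (-3 : ℝ) = (rr x ^ 3)⁻¹ := by
    rw [Real.rpow_neg h0.le, show (3 : ℝ) = (3 : ℕ) by norm_num, Real.rpow_natCast]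
  have e5 : rr x ^ (-5 : ℝ) = (rr x ^ 5)⁻¹ := by
    rw [Real.rpow_neg h0.le, show (5 : ℝ) = (5 : ℕ) by norm_num, Real.rpow_natCast]
  have e6 : (7 / 2 - 1 : ℝ) = 5 / 2 := by norm_num
  rw [e1, e2, e3, e4, e5]
  ext v
  simp [P_apply, e1, e2, e6]
  field_simp
  ring

/-- region T -/
theorem caseT {x : E 3} (h : rr x < ss x) (h' : rr x < ss x ^ (3 / 2 : ℝ)) :
    HasGradientAt uu (GG x) x := by
  have hs : 0 < ss x := (Real.sqrt_nonneg _).trans_lt h
  have hx0 : x 0 ≠ 0 := fun h => by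
    unfold ss at hs
    rw [h, abs_zero] at hs
    exact lt_irrefl _ hs
  have c1 : Continuous fun y : E 3 => ss y ^ (3 / 2 : ℝ) :=
    cont_ss.rpow_const fun _ => Or.inr (by norm_num)
  have hev : uu =ᶠ[𝓝 x] fun y => (3 * ss y)⁻¹ - 7 / 3 * Real.sqrt (ss y) := by
    filter_upwards [(cont_rr.continuousAt (x := x)).eventually_lt cont_ss.continuousAt h,
      (cont_rr.continuousAt (x := x)).eventually_lt c1.continuousAt h'] with y hy hy'
    unfold uu
    rw [if_neg (not_le.2 hy), if_neg (not_le.2 hy'), one_div]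
  have hG : GG x = !₂[SignType.sign (x 0) * (-(1 / 3) * ss x ^ (-2 : ℝ) - 7 / 6 * ss x ^ (-(1 / 2) : ℝ)), 0, 0] := by
    unfold GG
    rw [if_neg (not_le.2 h), if_neg (not_le.2 h')]
  rw [hG]
  refine hasGrad_of ?_
  have d2 := (((hasDerivAt_id (ss x)).const_mul 3).inv (by
    simp; exact hs.ne')).comp_hasFDerivAt x (dss hx0)
  have d3 := ((Real.hasDerivAt_sqrt hs.ne').const_mul (7 / 3)).comp_hasFDerivAt x (dss hx0)
  have d4 := d2.sub d3
  refine HasFDerivAt.congr_of_eventuallyEq (h₁ := ?_) (h := d4.congr_fderiv ?_)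
  rotate_left
  · filter_upwards [hev] with y hy
    rw [hy]
    simp
  have hw : 0 < √(ss x) := Real.sqrt_pos.2 hs
  have e3 : ss x ^ (-(1 / 2) : ℝ) = (√(ss x))⁻¹ := by
    rw [Real.rpow_neg hs.le, Real.sqrt_eq_rpow]
  have e4 : ss x ^ (-2 : ℝ) = (ss x ^ 2)⁻¹ := by
    rw [Real.rpow_neg hs.le, show (2 : ℝ) = (2 : ℕ) by norm_num, Real.rpow_natCast]
  rw [e3, e4]
  ext v
  simp [P_apply]
  field_simp
  ring

end Pool.Agent.Q64.LP.DIF

namespace Pool.Agent.Q64.LP

open DIF in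
theorem t_DIF (cyl : S_CYL) : S_DIF := by
  have n1 : ∀ᵐ x : E 3, rr x ≠ ss x := by
    rw [ae_iff]
    simpa using null cyl (h := fun t => t) continuous_id
  have n2 : ∀ᵐ x : E 3, rr x ≠ ss x ^ (3 / 2 : ℝ) := by
    rw [ae_iff]
    simpa using null cyl (h := fun t => t ^ (3 / 2 : ℝ))
      (Real.continuous_rpow_const (by norm_num))
  refine ae_restrict_of_ae ?_
  filter_upwards [n1, n2] with x h1 h2
  rcases lt_or_gt_of_ne h1 with h | h
  · rcases lt_or_gt_of_ne h2 with h' | h'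
    · exact caseT h h'
    · exact caseK h h'
  · exact caseO h

end Pool.Agent.Q64.LP
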