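import Pool.Agent.Q64.LP.Stm

open MeasureTheory Filter Topology Set Metric
open scoped ENNReal NNReal RealInnerProductSpace ContDiff Gradient

namespace Pool.Agent.Q64.LP

theorem t_EI : S_EI := by
  intro r hr
  -- the open set
  have hcs : Continuous ss := by unfold ss; fun_prop
  have hcr : Continuous rr := by unfold rr; fun_prop
  have hopen : IsOpen ({x : E 3 | ss x < rr x} ∩ ball 0 r) :=
    (isOpen_lt hcs hcr).inter isOpen_ball
  have hne : ({x : E 3 | ss x < rr x} ∩ ball 0 r).Nonempty := by
    refine ⟨!₂[0, r / 2, 0], ?_, ?_⟩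
    · simp only [mem_setOf_eq, ss, rr]
      simp
      positivity
    · rw [mem_ball_zero_iff, EuclideanSpace.norm_eq]
      simp [Fin.sum_univ_three]
      rw [Real.sqrt_sq (by positivity)]
      linarith
  have hpos : 0 < (volume : Measure (E 3)) ({x : E 3 | ss x < rr x} ∩ ball 0 r) :=
    hopen.measure_pos _ hne
  by_contra hcon
  rw [not_le] at hcon
  have hae := ae_lt_of_lt_essInf hcon
  have h0 : (volume : Measure (E 3)) ({x : E 3 | ss x < rr x} ∩ ball 0 r) = 0 := by
    rw [ae_restrict_iff' measurableSet_ball] at hae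
    refine measure_mono_null ?_ (ae_iff.mp hae)
    rintro x ⟨hx1, hx2⟩
    simp only [mem_setOf_eq] at hx1 ⊢
    rw [Classical.not_imp, not_lt]
    refine ⟨hx2, ?_⟩
    have : uu x ≤ 0 := by
      unfold uu
      rw [if_pos hx1.le]
      have := Real.sqrt_nonneg (rr x)
      linarith
    exact_mod_cast this
  exact hpos.ne' h0

end Pool.Agent.Q64.LP
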