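import Pool.Agent.Q64.LP.Cy

/-! # The gradient field of the example is in `L^(5/4)` of the unit ball (project LP, job GL) -/

open MeasureTheory Filter Topology Set Metric
open scoped ENNReal NNReal RealInnerProductSpace ContDiff Gradient

namespace Pool.Agent.Q64.LP.GL

open Pool.Agent.Q64.LP.Cy

/-- the radial bound -/
noncomputable def HG (s r : ℝ) : ℝ≥0∞ :=
  if s < 1 then (if r < 1 then (if s ≤ r then ENNReal.ofReal (r ^ (-(5 / 8) : ℝ))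
    else if s ^ (3 / 2 : ℝ) ≤ r then ENNReal.ofReal (4 * s ^ (35 / 8 : ℝ) * r ^ (-5 : ℝ))
    else ENNReal.ofReal (4 * s ^ (-(5 / 2) : ℝ))) else 0) else 0

theorem HG_meas : Measurable (Function.uncurry HG) := by
  unfold HG Function.uncurry
  refine Measurable.ite (measurableSet_lt measurable_fst measurable_const) ?_ measurable_const
  refine Measurable.ite (measurableSet_lt measurable_snd measurable_const) ?_ measurable_const
  refine Measurable.ite (measurableSet_le measurable_fst measurable_snd) (by fun_prop) ?_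
  exact Measurable.ite (measurableSet_le (by fun_prop) measurable_snd) (by fun_prop) (by fun_prop)

theorem le_of_sq {a M : ℝ} (ha : 0 ≤ a) (hM : 0 ≤ M) (h : a ^ 2 ≤ M ^ 2) : a ≤ M :=
  (pow_le_pow_iff_left₀ ha hM two_ne_zero).1 h

theorem sign_sq_le (t : ℝ) : ((SignType.sign t : ℝ)) ^ 2 ≤ 1 := by
  rcases lt_trichotomy t 0 with h | h | h <;> simp [h]

/-- region O -/
theorem boundO (x : E 3) (h : ss x ≤ rr x) (hr : 0 < rr x) :
    ‖GG x‖ = rr x ^ (-(1 / 2) : ℝ) := by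
  have h1 : ‖GG x‖ ^ 2 = (rr x ^ (-(1 / 2) : ℝ)) ^ 2 := by
    rw [GG, if_pos h, norm_sq3]
    have e : rr x ^ (-(1 / 2) : ℝ) = rr x ^ (-(3 / 2) : ℝ) * rr x := by
      rw [← Real.rpow_add_one hr.ne']; norm_num
    rw [e]
    have := rr_sq x
    ring_nf
    nlinarith [this]
  exact (pow_left_inj₀ (norm_nonneg _) (Real.rpow_nonneg hr.le _) two_ne_zero).1 h1

/-- region K -/
theorem boundK (x : E 3) (h : ¬ ss x ≤ rr x) (h2 : ss x ^ (3 / 2 : ℝ) ≤ rr x) (hs : 0 < ss x) :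
    ‖GG x‖ ≤ 2 * (ss x ^ (7 / 2 : ℝ) * rr x ^ (-4 : ℝ)) := by
  have hr : 0 < rr x := lt_of_lt_of_le (Real.rpow_pos_of_pos hs _) h2
  push Not at h
  set s := ss x with hsdef
  set r := rr x with hrdef
  have hb0 : 0 < s ^ (-(1 / 2) : ℝ) := Real.rpow_pos_of_pos hs _
  have ha0 : 0 < s ^ (5 / 2 : ℝ) * r ^ (-3 : ℝ) := by positivity
  have hba : s ^ (-(1 / 2) : ℝ) ≤ s ^ (5 / 2 : ℝ) * r ^ (-3 : ℝ) := by
    have e : s ^ (-(1 / 2) : ℝ) = s ^ (5 / 2 : ℝ) * s ^ (-3 : ℝ) := by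
      rw [← Real.rpow_add hs]; norm_num
    rw [e]
    exact mul_le_mul_of_nonneg_left (Real.rpow_le_rpow_of_nonpos hr h.le (by norm_num))
      (by positivity)
  have hg : s ^ (7 / 2 : ℝ) * r ^ (-4 : ℝ) = (s ^ (5 / 2 : ℝ) * r ^ (-3 : ℝ)) * (s / r) := by
    rw [show (7 / 2 : ℝ) = 5 / 2 + 1 by norm_num, show (-4 : ℝ) = -3 - 1 by norm_num,
      Real.rpow_add_one hs.ne', Real.rpow_sub_one hr.ne']
    ring
  have hag : s ^ (5 / 2 : ℝ) * r ^ (-3 : ℝ) ≤ s ^ (7 / 2 : ℝ) * r ^ (-4 : ℝ) := by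
    rw [hg]
    refine le_mul_of_one_le_right ha0.le ?_
    rw [le_div_iff₀ hr]; linarith
  have hk : s ^ (7 / 2 : ℝ) * r ^ (-5 : ℝ) * r = s ^ (7 / 2 : ℝ) * r ^ (-4 : ℝ) := by
    rw [mul_assoc, ← Real.rpow_add_one hr.ne']; norm_num
  refine le_of_sq (norm_nonneg _) (by positivity) ?_
  rw [GG, if_neg (by push Not; exact h), if_pos h2, norm_sq3]
  have e1 : ((SignType.sign (x 0) : ℝ) * (7 / 6 * (s ^ (5 / 2 : ℝ) * r ^ (-3 : ℝ)
      - s ^ (-(1 / 2) : ℝ)))) ^ 2 ≤ 49 / 36 * (s ^ (7 / 2 : ℝ) * r ^ (-4 : ℝ)) ^ 2 := by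
    have h3 : (s ^ (5 / 2 : ℝ) * r ^ (-3 : ℝ) - s ^ (-(1 / 2) : ℝ)) ^ 2 ≤
        (s ^ (7 / 2 : ℝ) * r ^ (-4 : ℝ)) ^ 2 :=
      pow_le_pow_left₀ (by linarith) (by linarith) 2
    calc _ = ((SignType.sign (x 0) : ℝ)) ^ 2 * (49 / 36 * (s ^ (5 / 2 : ℝ) * r ^ (-3 : ℝ)
      - s ^ (-(1 / 2) : ℝ)) ^ 2) := by ring
      _ ≤ 1 * (49 / 36 * (s ^ (7 / 2 : ℝ) * r ^ (-4 : ℝ)) ^ 2) := by
        refine mul_le_mul (sign_sq_le _) ?_ (by positivity) (by norm_num)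
        linarith
      _ = _ := by ring
  have e2 : (-(s ^ (7 / 2 : ℝ) * r ^ (-5 : ℝ)) * x 1) ^ 2 +
      (-(s ^ (7 / 2 : ℝ) * r ^ (-5 : ℝ)) * x 2) ^ 2 = (s ^ (7 / 2 : ℝ) * r ^ (-4 : ℝ)) ^ 2 := by
    rw [← hk]
    have := rr_sq x
    rw [← hrdef] at this
    rw [mul_pow _ r, this]
    ring
  have h0 : 0 ≤ (s ^ (7 / 2 : ℝ) * r ^ (-4 : ℝ)) ^ 2 := sq_nonneg _
  rw [add_assoc, e2, mul_pow]
  linarith

/-- region T -/
theorem boundT (x : E 3) (h : ¬ ss x ≤ rr x) (h2 : ¬ ss x ^ (3 / 2 : ℝ) ≤ rr x) (hs : 0 < ss x)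
    (hs1 : ss x < 1) : ‖GG x‖ ≤ 2 * ss x ^ (-2 : ℝ) := by
  have hb0 : 0 < ss x ^ (-(1 / 2) : ℝ) := Real.rpow_pos_of_pos hs _
  have ha0 : 0 < ss x ^ (-2 : ℝ) := Real.rpow_pos_of_pos hs _
  have hba : ss x ^ (-(1 / 2) : ℝ) ≤ ss x ^ (-2 : ℝ) :=
    Real.rpow_le_rpow_of_exponent_ge hs hs1.le (by norm_num)
  refine le_of_sq (norm_nonneg _) (by positivity) ?_
  rw [GG, if_neg h, if_neg h2, norm_sq3]
  have h3 : (-(1 / 3) * ss x ^ (-2 : ℝ) - 7 / 6 * ss x ^ (-(1 / 2) : ℝ)) ^ 2 ≤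
      (2 * ss x ^ (-2 : ℝ)) ^ 2 := by
    rw [← neg_sq]
    exact pow_le_pow_left₀ (by linarith) (by linarith) 2
  have h4 : ((SignType.sign (x 0) : ℝ) * (-(1 / 3) * ss x ^ (-2 : ℝ)
      - 7 / 6 * ss x ^ (-(1 / 2) : ℝ))) ^ 2 ≤ (2 * ss x ^ (-2 : ℝ)) ^ 2 := by
    rw [mul_pow]
    calc _ ≤ 1 * (2 * ss x ^ (-2 : ℝ)) ^ 2 :=
        mul_le_mul (sign_sq_le _) h3 (by positivity) (by norm_num)
      _ = _ := one_mul _
  linarith

theorem two_le : (2 : ℝ) ^ (5 / 4 : ℝ) ≤ 4 := by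
  calc (2 : ℝ) ^ (5 / 4 : ℝ) ≤ 2 ^ (2 : ℝ) :=
      Real.rpow_le_rpow_of_exponent_le (by norm_num) (by norm_num)
    _ = 4 := by norm_num

theorem bound (x : E 3) (hx : x ∈ ball (0 : E 3) 1) :
    ENNReal.ofReal (‖GG x‖ ^ (5 / 4 : ℝ)) ≤ HG (ss x) (rr x) := by
  rw [HG, if_pos (ss_lt hx), if_pos (rr_lt hx)]
  by_cases h : ss x ≤ rr x
  · rw [if_pos h]
    rcases (rr_nonneg x).eq_or_lt with hr | hr
    · have : ‖GG x‖ = 0 := by
        have h1 : ‖GG x‖ ^ 2 = 0 := by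
          rw [GG, if_pos h, norm_sq3, ← hr]
          rw [Real.zero_rpow (by norm_num)]; ring
        exact pow_eq_zero_iff two_ne_zero |>.1 h1
      rw [this, Real.zero_rpow (by norm_num), ENNReal.ofReal_zero]
      exact zero_le
    · rw [boundO x h hr, ← Real.rpow_mul hr.le]
      refine ENNReal.ofReal_le_ofReal (le_of_eq ?_)
      norm_num
  · have hs : 0 < ss x := lt_of_le_of_lt (rr_nonneg x) (not_le.1 h)
    rw [if_neg h]
    by_cases h2 : ss x ^ (3 / 2 : ℝ) ≤ rr x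
    · rw [if_pos h2]
      have hr : 0 < rr x := lt_of_lt_of_le (Real.rpow_pos_of_pos hs _) h2
      refine ENNReal.ofReal_le_ofReal ?_
      calc ‖GG x‖ ^ (5 / 4 : ℝ) ≤ (2 * (ss x ^ (7 / 2 : ℝ) * rr x ^ (-4 : ℝ))) ^ (5 / 4 : ℝ) :=
          Real.rpow_le_rpow (norm_nonneg _) (boundK x h h2 hs) (by norm_num)
        _ = 2 ^ (5 / 4 : ℝ) * (ss x ^ (35 / 8 : ℝ) * rr x ^ (-5 : ℝ)) := by
          rw [Real.mul_rpow (by norm_num) (by positivity), Real.mul_rpow (by positivity)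
            (by positivity), ← Real.rpow_mul hs.le, ← Real.rpow_mul hr.le]
          norm_num
        _ ≤ 4 * (ss x ^ (35 / 8 : ℝ) * rr x ^ (-5 : ℝ)) :=
          mul_le_mul_of_nonneg_right two_le (by positivity)
        _ = _ := by ring
    · rw [if_neg h2]
      refine ENNReal.ofReal_le_ofReal ?_
      calc ‖GG x‖ ^ (5 / 4 : ℝ) ≤ (2 * ss x ^ (-2 : ℝ)) ^ (5 / 4 : ℝ) :=
          Real.rpow_le_rpow (norm_nonneg _) (boundT x h h2 hs (ss_lt hx)) (by norm_num)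
        _ = 2 ^ (5 / 4 : ℝ) * ss x ^ (-(5 / 2) : ℝ) := by
          rw [Real.mul_rpow (by norm_num) (by positivity), ← Real.rpow_mul hs.le]
          norm_num
        _ ≤ 4 * ss x ^ (-(5 / 2) : ℝ) :=
          mul_le_mul_of_nonneg_right two_le (by positivity)

theorem inner_bound (s : ℝ) (hs : 0 < s) (hs1 : s < 1) :
    ∫⁻ r in Ioi (0 : ℝ), ENNReal.ofReal r * HG s r ≤ ENNReal.ofReal (7 * s ^ (-(1 / 8) : ℝ)) := by
  have h := inner_le 1 s 1 (4 * s ^ (35 / 8 : ℝ)) (-5) (4 * s ^ (-(5 / 2) : ℝ)) hs (by norm_num)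
    zero_le_one (by positivity) (by positivity) (fun r => ENNReal.ofReal (r ^ (-(5 / 8) : ℝ)))
    (fun r hr hr1 => by
      rw [← ENNReal.ofReal_mul hr.le, mul_comm, ← Real.rpow_add_one hr.ne']
      exact ENNReal.ofReal_le_ofReal (Real.rpow_le_one hr.le hr1.le (by norm_num)))
  simp only [HG, if_pos hs1]
  refine h.trans ?_
  rw [← ENNReal.ofReal_add (by norm_num), ← ENNReal.ofReal_add]
  · refine ENNReal.ofReal_le_ofReal ?_
    have e1 : 4 * s ^ (35 / 8 : ℝ) * (-(s ^ (3 / 2 : ℝ)) ^ ((-5 : ℝ) + 2) / (-5 + 2)) =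
        4 / 3 * s ^ (-(1 / 8) : ℝ) := by
      have : s ^ (-(1 / 8) : ℝ) = s ^ (35 / 8 : ℝ) * (s ^ (3 / 2 : ℝ)) ^ ((-5 : ℝ) + 2) := by
        rw [← Real.rpow_mul hs.le, ← Real.rpow_add hs]; norm_num
      rw [this]; ring
    have e2 : 4 * s ^ (-(5 / 2) : ℝ) * s ^ (3 / 2 : ℝ) * s ^ (3 / 2 : ℝ) =
        4 * s ^ (1 / 2 : ℝ) := by
      have : s ^ (1 / 2 : ℝ) = s ^ (-(5 / 2) : ℝ) * s ^ (3 / 2 : ℝ) * s ^ (3 / 2 : ℝ) := by
        rw [← Real.rpow_add hs, ← Real.rpow_add hs]; norm_num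
      rw [this]; ring
    rw [e1, e2]
    have h1 : 1 ≤ s ^ (-(1 / 8) : ℝ) :=
      Real.one_le_rpow_of_pos_of_le_one_of_nonpos hs hs1.le (by norm_num)
    have h2 : s ^ (1 / 2 : ℝ) ≤ 1 := Real.rpow_le_one hs.le hs1.le (by norm_num)
    linarith
  · have : (0 : ℝ) ≤ (s ^ (3 / 2 : ℝ)) ^ ((-5 : ℝ) + 2) := by positivity
    have h3 : (0 : ℝ) ≤ -(s ^ (3 / 2 : ℝ)) ^ ((-5 : ℝ) + 2) / (-5 + 2) := by
      rw [show (-5 : ℝ) + 2 = -3 by norm_num] at this ⊢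
      linarith
    positivity
  · positivity
  · have : (0 : ℝ) ≤ (s ^ (3 / 2 : ℝ)) ^ ((-5 : ℝ) + 2) := by positivity
    have h3 : (0 : ℝ) ≤ -(s ^ (3 / 2 : ℝ)) ^ ((-5 : ℝ) + 2) / (-5 + 2) := by
      rw [show (-5 : ℝ) + 2 = -3 by norm_num] at this ⊢
      linarith
    positivity

end Pool.Agent.Q64.LP.GL

namespace Pool.Agent.Q64.LP

open Pool.Agent.Q64.LP.Cy Pool.Agent.Q64.LP.GL

theorem t_GL (cyl : S_CYL) (meas : S_MEAS) : S_GL := by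
  unfold S_GL
  rw [← lintegral_indicator measurableSet_ball]
  have h1 : ∫⁻ x, (ball (0 : E 3) 1).indicator (fun x => ENNReal.ofReal (‖GG x‖ ^ (5 / 4 : ℝ))) x ≤
      ∫⁻ x : E 3, HG (ss x) (rr x) := by
    refine lintegral_mono (fun x => ?_)
    by_cases hx : x ∈ ball (0 : E 3) 1
    · rw [indicator_of_mem hx]; exact bound x hx
    · rw [indicator_of_notMem hx]; exact zero_le
  refine h1.trans_lt ?_
  rw [cyl_lint cyl meas HG HG_meas]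
  refine ENNReal.mul_lt_top ENNReal.ofReal_lt_top ?_
  have h2 : ∫⁻ s in Ioi (0 : ℝ), ∫⁻ r in Ioi (0 : ℝ), ENNReal.ofReal r * HG s r ≤
      ∫⁻ s in Ioo (0 : ℝ) 1, ENNReal.ofReal (7 * s ^ (-(1 / 8) : ℝ)) := by
    have e : Ioo (0 : ℝ) 1 = Iio 1 ∩ Ioi 0 := by ext; simp [and_comm]
    rw [e, ← Measure.restrict_restrict measurableSet_Iio, ← lintegral_indicator measurableSet_Iio]
    refine setLIntegral_mono' measurableSet_Ioi (fun s hs => ?_)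
    by_cases h : s < 1
    · rw [indicator_of_mem (show s ∈ Iio (1 : ℝ) from h)]
      exact inner_bound s hs h
    · rw [indicator_of_notMem (show s ∉ Iio (1 : ℝ) from h)]
      simp only [HG, if_neg h, mul_zero, lintegral_zero, le_refl]
  refine h2.trans_lt ?_
  have h3 : IntegrableOn (fun s : ℝ => 7 * s ^ (-(1 / 8) : ℝ)) (Ioo (0 : ℝ) 1) := by
    refine Integrable.const_mul ?_ _
    exact (intervalIntegrable_iff_integrableOn_Ioo_of_le zero_le_one).1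
      (intervalIntegral.intervalIntegrable_rpow' (by norm_num))
  exact h3.lintegral_lt_top

end Pool.Agent.Q64.LP
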