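import Pool.Agent.Q64.LP.Stm

/-!
# Project LP, job HG (helper87): `uu` belongs to `H^{1,p}_loc` of the unit ball
-/

set_option autoImplicit false

open MeasureTheory Filter Topology Set Metric
open scoped ENNReal NNReal RealInnerProductSpace ContDiff Gradient

namespace Pool.Agent.Q64.LP

namespace HG

theorem wm_one {n : ℕ} : wm (fun _ : E n => (1 : ℝ)) = (volume : Measure (E n)) := by
  unfold wm
  simp only [ENNReal.ofReal_one]
  exact withDensity_one

theorem continuous_gradient {n : ℕ} {f : E n → ℝ} (hf : ContDiff ℝ ∞ f) :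
    Continuous (fun x => ∇ f x) := by
  have h : Continuous (fun x => fderiv ℝ f x) := hf.continuous_fderiv (by simp)
  exact (InnerProductSpace.toDual ℝ (E n)).symm.continuous.comp h

theorem norm_gradient {n : ℕ} (f : E n → ℝ) (x : E n) : ‖∇ f x‖ = ‖fderiv ℝ f x‖ :=
  (InnerProductSpace.toDual ℝ (E n)).symm.norm_map _

theorem hasGradientAt_mul {n : ℕ} {f g : E n → ℝ} {f' g' x : E n} (hf : HasGradientAt f f' x)
    (hg : HasGradientAt g g' x) : HasGradientAt (fun y => f y * g y) (f x • g' + g x • f') x := by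
  rw [hasGradientAt_iff_hasFDerivAt] at hf hg ⊢
  have h := hf.mul hg
  have e : (InnerProductSpace.toDual ℝ (E n)) (f x • g' + g x • f')
      = f x • (InnerProductSpace.toDual ℝ (E n)) g' + g x • (InnerProductSpace.toDual ℝ (E n)) f' := by
    rw [map_add, map_smulₛₗ, map_smulₛₗ]
    simp
  rw [e]
  exact h

/-- fixed bump -/
noncomputable def bb : ContDiffBump (0 : E 3) := ⟨1, 2, one_pos, one_lt_two⟩

noncomputable def bd (δ : ℝ) (x : E 3) : ℝ := bb (δ⁻¹ • x)

theorem bd_contDiff (δ : ℝ) : ContDiff ℝ ∞ (bd δ) := by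
  unfold bd
  exact bb.contDiff.comp (contDiff_const_smul _)

theorem bd_nonneg (δ : ℝ) (x : E 3) : 0 ≤ bd δ x := bb.nonneg

theorem bd_le_one (δ : ℝ) (x : E 3) : bd δ x ≤ 1 := bb.le_one

theorem bd_eq_one {δ : ℝ} (hδ : 0 < δ) {x : E 3} (hx : ‖x‖ ≤ δ) : bd δ x = 1 := by
  unfold bd
  refine bb.one_of_mem_closedBall ?_
  rw [mem_closedBall_zero_iff, norm_smul, norm_inv, Real.norm_eq_abs, abs_of_pos hδ]
  show δ⁻¹ * ‖x‖ ≤ 1
  rw [inv_mul_le_iff₀ hδ]
  simpa using hx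

theorem bd_eq_zero {δ : ℝ} (hδ : 0 < δ) {x : E 3} (hx : 2 * δ ≤ ‖x‖) : bd δ x = 0 := by
  unfold bd
  refine bb.zero_of_le_dist ?_
  rw [dist_zero_right, norm_smul, norm_inv, Real.norm_eq_abs, abs_of_pos hδ]
  show 2 ≤ δ⁻¹ * ‖x‖
  rw [le_inv_mul_iff₀ hδ]
  linarith

theorem bd_ev_zero {δ : ℝ} (hδ : 0 < δ) {x : E 3} (hx : 3 * δ ≤ ‖x‖) :
    bd δ =ᶠ[𝓝 x] fun _ => 0 := by
  have h : ∀ᶠ y in 𝓝 x, 2 * δ < ‖y‖ :=
    (continuous_norm.tendsto x).eventually (lt_mem_nhds (by linarith : 2 * δ < ‖x‖))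
  filter_upwards [h] with y hy
  exact bd_eq_zero hδ hy.le

theorem bd_grad_zero {δ : ℝ} (hδ : 0 < δ) {x : E 3} (hx : 3 * δ ≤ ‖x‖) : ∇ (bd δ) x = 0 := by
  rw [(bd_ev_zero hδ hx).gradient_eq]
  exact gradient_fun_const x 0

theorem bd_grad_bound : ∃ C : ℝ, 0 ≤ C ∧ ∀ δ : ℝ, 0 < δ → ∀ x : E 3, ‖∇ (bd δ) x‖ ≤ C / δ := by
  have hc : Continuous (fun x => fderiv ℝ (bb : E 3 → ℝ) x) :=
    (bb.contDiff (n := 1)).continuous_fderiv (by simp)
  have hs : HasCompactSupport (fun x => fderiv ℝ (bb : E 3 → ℝ) x) := bb.hasCompactSupport.fderiv ℝ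
  obtain ⟨C, hC⟩ := hs.exists_bound_of_continuous hc
  refine ⟨max C 0, le_max_right _ _, fun δ hδ x => ?_⟩
  rw [norm_gradient]
  have h : fderiv ℝ (bd δ) x = δ⁻¹ • fderiv ℝ (bb : E 3 → ℝ) (δ⁻¹ • x) := by
    unfold bd
    exact fderiv_comp_smul (f := (bb : E 3 → ℝ)) (x := x) δ⁻¹
  rw [h, norm_smul, norm_inv, Real.norm_eq_abs, abs_of_pos hδ, div_eq_inv_mul]
  exact mul_le_mul_of_nonneg_left ((hC _).trans (le_max_left _ _)) (by positivity)

/-- `(a + b)^p ≤ 4 (a^p + b^p)` for `p = 5/4` -/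
theorem rpow_add_le {a b : ℝ} (ha : 0 ≤ a) (hb : 0 ≤ b) :
    (a + b) ^ (5 / 4 : ℝ) ≤ 4 * (a ^ (5 / 4 : ℝ) + b ^ (5 / 4 : ℝ)) := by
  have h1 : a + b ≤ 2 * max a b := by
    rcases le_total a b with h | h
    · rw [max_eq_right h]; linarith
    · rw [max_eq_left h]; linarith
  have h2 : (a + b) ^ (5 / 4 : ℝ) ≤ (2 * max a b) ^ (5 / 4 : ℝ) :=
    Real.rpow_le_rpow (by positivity) h1 (by norm_num)
  have h3 : (2 * max a b) ^ (5 / 4 : ℝ) = 2 ^ (5 / 4 : ℝ) * (max a b) ^ (5 / 4 : ℝ) :=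
    Real.mul_rpow (by norm_num) (le_max_of_le_left ha)
  have h4 : (2 : ℝ) ^ (5 / 4 : ℝ) ≤ 4 := by
    calc (2 : ℝ) ^ (5 / 4 : ℝ) ≤ 2 ^ (2 : ℝ) :=
          Real.rpow_le_rpow_of_exponent_le (by norm_num) (by norm_num)
      _ = 4 := by norm_num
  have h5 : (max a b) ^ (5 / 4 : ℝ) ≤ a ^ (5 / 4 : ℝ) + b ^ (5 / 4 : ℝ) := by
    have ha' := Real.rpow_nonneg ha (5 / 4 : ℝ)
    have hb' := Real.rpow_nonneg hb (5 / 4 : ℝ)
    rcases le_total a b with h | h
    · rw [max_eq_right h]; linarith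
    · rw [max_eq_left h]; linarith
  have h6 : 0 ≤ (max a b) ^ (5 / 4 : ℝ) := Real.rpow_nonneg (le_max_of_le_left ha) _
  calc (a + b) ^ (5 / 4 : ℝ) ≤ 2 ^ (5 / 4 : ℝ) * (max a b) ^ (5 / 4 : ℝ) := by rw [← h3]; exact h2
    _ ≤ 4 * (max a b) ^ (5 / 4 : ℝ) := mul_le_mul_of_nonneg_right h4 h6
    _ ≤ 4 * (a ^ (5 / 4 : ℝ) + b ^ (5 / 4 : ℝ)) := by linarith

theorem ofReal_add_le {a b c : ℝ} (hc : 0 ≤ c) (ha : 0 ≤ a) (hb : 0 ≤ b) (h : c ≤ a + b) :
    ENNReal.ofReal (c ^ (5 / 4 : ℝ)) ≤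
      4 * ENNReal.ofReal (a ^ (5 / 4 : ℝ)) + 4 * ENNReal.ofReal (b ^ (5 / 4 : ℝ)) := by
  have h1 : c ^ (5 / 4 : ℝ) ≤ 4 * (a ^ (5 / 4 : ℝ) + b ^ (5 / 4 : ℝ)) :=
    (Real.rpow_le_rpow hc h (by norm_num)).trans (rpow_add_le ha hb)
  have ha' := Real.rpow_nonneg ha (5 / 4 : ℝ)
  have hb' := Real.rpow_nonneg hb (5 / 4 : ℝ)
  calc ENNReal.ofReal (c ^ (5 / 4 : ℝ))
      ≤ ENNReal.ofReal (4 * (a ^ (5 / 4 : ℝ) + b ^ (5 / 4 : ℝ))) := ENNReal.ofReal_le_ofReal h1
    _ = 4 * ENNReal.ofReal (a ^ (5 / 4 : ℝ)) + 4 * ENNReal.ofReal (b ^ (5 / 4 : ℝ)) := by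
        rw [ENNReal.ofReal_mul (by norm_num), ENNReal.ofReal_add ha' hb', mul_add]
        norm_num

/-- the error of the function -/
noncomputable def AA (t : ℝ) : ℝ≥0∞ :=
  ∫⁻ x in ball (0 : E 3) t, ENNReal.ofReal (|uu x| ^ (5 / 4 : ℝ))

/-- the error of the gradient -/
noncomputable def BB (t : ℝ) : ℝ≥0∞ :=
  ∫⁻ x in ball (0 : E 3) t, ENNReal.ofReal (‖GG x‖ ^ (5 / 4 : ℝ))

theorem tendsto_three : Tendsto (fun δ : ℝ => 3 * δ) (𝓝[>] 0) (𝓝[>] 0) := by
  refine tendsto_nhdsWithin_iff.2 ⟨?_, ?_⟩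
  · have : Tendsto (fun δ : ℝ => 3 * δ) (𝓝 0) (𝓝 (3 * 0)) := tendsto_id.const_mul 3
    rw [mul_zero] at this
    exact this.mono_left nhdsWithin_le_nhds
  · filter_upwards [self_mem_nhdsWithin] with δ hδ
    exact mul_pos (three_pos (α := ℝ)) hδ

theorem lim_B (gl : S_GL) : Tendsto BB (𝓝[>] 0) (𝓝 0) := by
  have hvol : Tendsto (fun t : ℝ => volume (ball (0 : E 3) t)) (𝓝[>] 0) (𝓝 0) := by
    have h1 : Tendsto (fun t : ℝ => ENNReal.ofReal (t ^ 3) * volume (ball (0 : E 3) 1)) (𝓝[>] 0)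
        (𝓝 (ENNReal.ofReal (0 ^ 3) * volume (ball (0 : E 3) 1))) := by
      refine ENNReal.Tendsto.mul_const ?_ (Or.inr measure_ball_lt_top.ne)
      refine (ENNReal.continuous_ofReal.tendsto _).comp ?_
      exact ((continuous_pow 3).tendsto (0 : ℝ)).mono_left nhdsWithin_le_nhds
    have h2 : ENNReal.ofReal (0 ^ 3) * volume (ball (0 : E 3) 1) = 0 := by simp
    rw [h2] at h1
    refine h1.congr' ?_
    filter_upwards [self_mem_nhdsWithin] with t ht
    rw [Measure.addHaar_ball volume (0 : E 3) (le_of_lt ht)]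
    simp
  have h := tendsto_setLIntegral_zero (μ := volume.restrict (ball (0 : E 3) 1))
    (f := fun x => ENNReal.ofReal (‖GG x‖ ^ (5 / 4 : ℝ))) gl.ne (l := 𝓝[>] (0 : ℝ))
    (s := fun t => ball (0 : E 3) t)
    (tendsto_of_tendsto_of_tendsto_of_le_of_le tendsto_const_nhds hvol (fun _ => zero_le)
      (fun t => Measure.restrict_apply_le _ _))
  refine h.congr' ?_
  have hs : ∀ᶠ t : ℝ in 𝓝[>] 0, t < 1 :=
    (tendsto_id.mono_left nhdsWithin_le_nhds).eventually (gt_mem_nhds one_pos)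
  filter_upwards [hs] with t ht
  unfold BB
  rw [Measure.restrict_restrict measurableSet_ball,
    inter_eq_left.2 (ball_subset_ball ht.le)]

theorem lim_A (ul : S_UL) : Tendsto AA (𝓝[>] 0) (𝓝 0) := by
  refine tendsto_of_tendsto_of_tendsto_of_le_of_le' tendsto_const_nhds ul
    (Eventually.of_forall fun _ => zero_le) ?_
  have hs : ∀ᶠ t : ℝ in 𝓝[>] 0, t < 1 :=
    (tendsto_id.mono_left nhdsWithin_le_nhds).eventually (gt_mem_nhds one_pos)
  filter_upwards [hs, self_mem_nhdsWithin] with t ht ht0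
  have h1 : (1 : ℝ) ≤ t ^ (-(5 / 4) : ℝ) :=
    Real.one_le_rpow_of_pos_of_le_one_of_nonpos ht0 ht.le (by norm_num)
  have h2 : (1 : ℝ≥0∞) ≤ ENNReal.ofReal (t ^ (-(5 / 4) : ℝ)) := by
    rw [← ENNReal.ofReal_one]
    exact ENNReal.ofReal_le_ofReal h1
  calc AA t = 1 * AA t := (one_mul _).symm
    _ ≤ _ := mul_le_mul_left h2 _

theorem lim_AC (ul : S_UL) {C : ℝ} (hC : 0 ≤ C) :
    Tendsto (fun δ : ℝ => ENNReal.ofReal ((C / δ) ^ (5 / 4 : ℝ)) * AA (3 * δ)) (𝓝[>] 0) (𝓝 0) := by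
  have h := ENNReal.Tendsto.const_mul (a := ENNReal.ofReal ((3 * C) ^ (5 / 4 : ℝ)))
    (ul.comp tendsto_three) (Or.inr ENNReal.ofReal_ne_top)
  rw [mul_zero] at h
  refine h.congr' ?_
  filter_upwards [self_mem_nhdsWithin] with δ hδ
  have hδ0 : (0 : ℝ) < δ := hδ
  simp only [Function.comp_apply]
  show ENNReal.ofReal ((3 * C) ^ (5 / 4 : ℝ)) *
    (ENNReal.ofReal ((3 * δ) ^ (-(5 / 4) : ℝ)) * AA (3 * δ)) = _
  rw [← mul_assoc, ← ENNReal.ofReal_mul (Real.rpow_nonneg (by positivity) _)]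
  congr 2
  rw [Real.rpow_neg (by positivity), ← div_eq_mul_inv,
    ← Real.div_rpow (by positivity) (by positivity)]
  congr 1
  field_simp

theorem key (mol : S_MOL) (ll : S_LL) (dif : S_DIF) (meas : S_MEAS) {C : ℝ}
    (hCb : ∀ δ : ℝ, 0 < δ → ∀ x : E 3, ‖∇ (bd δ) x‖ ≤ C / δ) {K : Set (E 3)}
    (hK : IsCompact K) (hKb : K ⊆ ball (0 : E 3) 1) {δ : ℝ} (hδ : 0 < δ) {ε : ℝ≥0∞}
    (hε : 0 < ε) : ∃ φ : E 3 → ℝ, ContDiff ℝ ∞ φ ∧
      ∫⁻ x in K, ENNReal.ofReal (|φ x - uu x| ^ (5 / 4 : ℝ)) ≤ 4 * ε + 4 * AA (3 * δ) ∧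
      ∫⁻ x in K, ENNReal.ofReal (‖∇ φ x - GG x‖ ^ (5 / 4 : ℝ)) ≤ 4 * ε +
        4 * (4 * BB (3 * δ) + 4 * (ENNReal.ofReal ((C / δ) ^ (5 / 4 : ℝ)) * AA (3 * δ))) := by
  obtain ⟨-, -, hum, hGm, -, -⟩ := meas
  obtain ⟨r, ⟨hr0, hr1⟩, hKr⟩ := exists_pos_lt_subset_ball one_pos hK.isClosed hKb
  let χ : ContDiffBump (0 : E 3) := ⟨r, (r + 1) / 2, hr0, by linarith⟩
  have hχs : tsupport (χ : E 3 → ℝ) ⊆ ball (0 : E 3) 1 := by
    rw [χ.tsupport_eq]
    exact closedBall_subset_ball (by show (r + 1) / 2 < 1; linarith)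
  set w : E 3 → ℝ := fun x => χ x * (1 - bd δ x) with hwdef
  have hwc : ContDiff ℝ ∞ w := χ.contDiff.mul (contDiff_const.sub (bd_contDiff δ))
  have hws : HasCompactSupport w := χ.hasCompactSupport.mul_right
  have hw1 : tsupport w ⊆ tsupport (χ : E 3 → ℝ) := tsupport_mul_subset_left
  have hw0 : (0 : E 3) ∉ tsupport w := by
    rw [notMem_tsupport_iff_eventuallyEq]
    filter_upwards [ball_mem_nhds (0 : E 3) hδ] with y hy
    rw [mem_ball_zero_iff] at hy
    show χ y * (1 - bd δ y) = 0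
    rw [bd_eq_one hδ hy.le]
    simp
  have hw2 : tsupport w ⊆ ball (0 : E 3) 1 \ {0} := fun x hx =>
    ⟨hχs (hw1 hx), fun h => hw0 (h ▸ hx)⟩
  set f : E 3 → ℝ := fun x => w x * uu x with hf
  set g : E 3 → E 3 := fun x => w x • GG x + uu x • ∇ w x with hg
  have hwm : Measurable w := hwc.continuous.measurable
  have hfm : Measurable f := hwm.mul hum
  have hgm : Measurable g :=
    (hwm.smul hGm).add (hum.smul (continuous_gradient hwc).measurable)
  have hae : ∀ᵐ x ∂(volume : Measure (E 3)), HasGradientAt f (g x) x := by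
    have hd : ∀ᵐ x ∂(volume : Measure (E 3)), x ∈ ball (0 : E 3) 1 → HasGradientAt uu (GG x) x :=
      (ae_restrict_iff' measurableSet_ball).1 dif
    filter_upwards [hd] with x hx
    by_cases hb : x ∈ ball (0 : E 3) 1
    · exact hasGradientAt_mul (hwc.differentiable (by simp) x).hasGradientAt (hx hb)
    · have hn : x ∉ tsupport w := fun h => hb (hχs (hw1 h))
      have he : w =ᶠ[𝓝 x] 0 := notMem_tsupport_iff_eventuallyEq.1 hn
      have h1 : ∇ w x = 0 := by
        rw [he.gradient_eq]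
        exact gradient_fun_const x (0 : ℝ)
      have h2 : g x = 0 := by
        show w x • GG x + uu x • ∇ w x = 0
        rw [h1, he.eq_of_nhds]
        simp
      rw [h2]
      have h3 : f =ᶠ[𝓝 x] fun _ => (0 : ℝ) := by
        filter_upwards [he] with y hy
        show w y * uu y = 0
        rw [hy]
        simp
      exact (hasGradientAt_const x (0 : ℝ)).congr_of_eventuallyEq h3
  obtain ⟨φ, hφ, hφ1, hφ2⟩ := mol 3 (5 / 4) (by norm_num) f (ll w hwc hws hw2)
    (hws.mul_right) g hgm hae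
  obtain ⟨i, hi1, hi2⟩ := ((ENNReal.tendsto_nhds_zero.1 hφ1 ε hε).and
    (ENNReal.tendsto_nhds_zero.1 hφ2 ε hε)).exists
  have hwK : ∀ x ∈ K, w =ᶠ[𝓝 x] fun y => 1 - bd δ y := by
    intro x hx
    have h1 : (χ : E 3 → ℝ) =ᶠ[𝓝 x] 1 := χ.eventuallyEq_one_of_mem_ball (hKr hx)
    filter_upwards [h1] with y hy
    show χ y * (1 - bd δ y) = 1 - bd δ y
    rw [hy]
    simp
  have hKm : MeasurableSet K := hK.isClosed.measurableSet
  refine ⟨φ i, hφ i, ?_, ?_⟩
  · calc ∫⁻ x in K, ENNReal.ofReal (|φ i x - uu x| ^ (5 / 4 : ℝ))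
        ≤ ∫⁻ x in K, (4 * ENNReal.ofReal (|φ i x - f x| ^ (5 / 4 : ℝ)) +
            4 * (ball (0 : E 3) (3 * δ)).indicator
              (fun x => ENNReal.ofReal (|uu x| ^ (5 / 4 : ℝ))) x) := by
          refine setLIntegral_mono' hKm fun x hx => ?_
          have h1 := ofReal_add_le (c := |φ i x - uu x|) (a := |φ i x - f x|) (b := |f x - uu x|)
            (abs_nonneg _) (abs_nonneg _) (abs_nonneg _) (abs_sub_le _ _ _)
          refine h1.trans (add_le_add le_rfl ?_)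
          have h2 : f x - uu x = -(bd δ x * uu x) := by
            show w x * uu x - uu x = _
            rw [(hwK x hx).eq_of_nhds]
            ring
          by_cases hb : x ∈ ball (0 : E 3) (3 * δ)
          · rw [indicator_of_mem hb, h2, abs_neg, abs_mul, abs_of_nonneg (bd_nonneg δ x)]
            have h7 : bd δ x * |uu x| ≤ |uu x| :=
              mul_le_of_le_one_left (abs_nonneg _) (bd_le_one δ x)
            exact mul_le_mul_right (ENNReal.ofReal_le_ofReal (Real.rpow_le_rpow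
              (mul_nonneg (bd_nonneg δ x) (abs_nonneg _)) h7 (by norm_num))) _
          · rw [indicator_of_notMem hb, h2]
            rw [mem_ball_zero_iff, not_lt] at hb
            rw [bd_eq_zero hδ (by linarith)]
            simp
      _ = 4 * (∫⁻ x in K, ENNReal.ofReal (|φ i x - f x| ^ (5 / 4 : ℝ))) +
            4 * (∫⁻ x in K, (ball (0 : E 3) (3 * δ)).indicator
              (fun x => ENNReal.ofReal (|uu x| ^ (5 / 4 : ℝ))) x) := by
          have m1 : Measurable fun x => ENNReal.ofReal (|φ i x - f x| ^ (5 / 4 : ℝ)) :=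
            ((((hφ i).continuous.measurable.sub hfm).abs).pow_const _).ennreal_ofReal
          have m2 : Measurable ((ball (0 : E 3) (3 * δ)).indicator
              (fun x => ENNReal.ofReal (|uu x| ^ (5 / 4 : ℝ)))) :=
            ((hum.abs.pow_const _).ennreal_ofReal).indicator measurableSet_ball
          rw [lintegral_add_left (m1.const_mul 4), lintegral_const_mul _ m1,
            lintegral_const_mul _ m2]
      _ ≤ 4 * ε + 4 * AA (3 * δ) := by
          refine add_le_add (mul_le_mul_right ((setLIntegral_le_lintegral _ _).trans hi1) _)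
            (mul_le_mul_right ((setLIntegral_le_lintegral _ _).trans ?_) _)
          rw [lintegral_indicator measurableSet_ball]
          exact le_rfl
  · calc ∫⁻ x in K, ENNReal.ofReal (‖∇ (φ i) x - GG x‖ ^ (5 / 4 : ℝ))
        ≤ ∫⁻ x in K, (4 * ENNReal.ofReal (‖∇ (φ i) x - g x‖ ^ (5 / 4 : ℝ)) +
            4 * (ball (0 : E 3) (3 * δ)).indicator
              (fun x => 4 * ENNReal.ofReal (‖GG x‖ ^ (5 / 4 : ℝ)) +
                4 * (ENNReal.ofReal ((C / δ) ^ (5 / 4 : ℝ)) *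
                  ENNReal.ofReal (|uu x| ^ (5 / 4 : ℝ)))) x) := by
          refine setLIntegral_mono' hKm fun x hx => ?_
          have h1 := ofReal_add_le (c := ‖∇ (φ i) x - GG x‖) (a := ‖∇ (φ i) x - g x‖)
            (b := ‖g x - GG x‖) (norm_nonneg _) (norm_nonneg _) (norm_nonneg _)
            (norm_sub_le_norm_sub_add_norm_sub _ _ _)
          refine h1.trans (add_le_add le_rfl (mul_le_mul_right ?_ _))
          have hgr : ∇ w x = -∇ (bd δ) x := by
            rw [(hwK x hx).gradient_eq]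
            refine HasGradientAt.gradient ?_
            have h3 := ((bd_contDiff δ).differentiable (by simp) x).hasGradientAt
            rw [hasGradientAt_iff_hasFDerivAt] at h3 ⊢
            rw [map_neg]
            have h4 := (hasFDerivAt_const (1 : ℝ) x).sub h3
            rw [zero_sub] at h4
            exact h4
          have h2 : g x - GG x = -(bd δ x • GG x + uu x • ∇ (bd δ) x) := by
            show w x • GG x + uu x • ∇ w x - GG x = _
            rw [(hwK x hx).eq_of_nhds, hgr, sub_smul, one_smul, smul_neg]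
            abel
          by_cases hb : x ∈ ball (0 : E 3) (3 * δ)
          · rw [indicator_of_mem hb]
            have hCδ : 0 ≤ C / δ := (norm_nonneg _).trans (hCb δ hδ x)
            have h5 := ofReal_add_le (c := ‖g x - GG x‖) (a := ‖GG x‖) (b := C / δ * |uu x|)
              (norm_nonneg _) (norm_nonneg _) (mul_nonneg hCδ (abs_nonneg _)) (by
                rw [h2, norm_neg]
                refine (norm_add_le _ _).trans (add_le_add ?_ ?_)
                · rw [norm_smul, Real.norm_eq_abs, abs_of_nonneg (bd_nonneg δ x)]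
                  calc bd δ x * ‖GG x‖ ≤ 1 * ‖GG x‖ :=
                        mul_le_mul_of_nonneg_right (bd_le_one δ x) (norm_nonneg _)
                    _ = ‖GG x‖ := one_mul _
                · rw [norm_smul, Real.norm_eq_abs, mul_comm]
                  exact mul_le_mul_of_nonneg_right (hCb δ hδ x) (abs_nonneg _))
            rw [Real.mul_rpow hCδ (abs_nonneg _),
              ENNReal.ofReal_mul (Real.rpow_nonneg hCδ _)] at h5
            exact h5
          · rw [indicator_of_notMem hb, h2]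
            rw [mem_ball_zero_iff, not_lt] at hb
            rw [bd_eq_zero hδ (by linarith), bd_grad_zero hδ hb]
            simp
      _ = 4 * (∫⁻ x in K, ENNReal.ofReal (‖∇ (φ i) x - g x‖ ^ (5 / 4 : ℝ))) +
            4 * (∫⁻ x in K, (ball (0 : E 3) (3 * δ)).indicator
              (fun x => 4 * ENNReal.ofReal (‖GG x‖ ^ (5 / 4 : ℝ)) +
                4 * (ENNReal.ofReal ((C / δ) ^ (5 / 4 : ℝ)) *
                  ENNReal.ofReal (|uu x| ^ (5 / 4 : ℝ)))) x) := by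
          have m1 : Measurable fun x => ENNReal.ofReal (‖∇ (φ i) x - g x‖ ^ (5 / 4 : ℝ)) :=
            ((((continuous_gradient (hφ i)).measurable.sub hgm).norm).pow_const _).ennreal_ofReal
          have m2 : Measurable ((ball (0 : E 3) (3 * δ)).indicator
              (fun x => 4 * ENNReal.ofReal (‖GG x‖ ^ (5 / 4 : ℝ)) +
                4 * (ENNReal.ofReal ((C / δ) ^ (5 / 4 : ℝ)) *
                  ENNReal.ofReal (|uu x| ^ (5 / 4 : ℝ))))) :=
            ((((hGm.norm.pow_const _).ennreal_ofReal).const_mul _).add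
              ((((hum.abs.pow_const _).ennreal_ofReal).const_mul _).const_mul _)).indicator
              measurableSet_ball
          rw [lintegral_add_left (m1.const_mul 4), lintegral_const_mul _ m1,
            lintegral_const_mul _ m2]
      _ ≤ _ := by
          refine add_le_add (mul_le_mul_right ((setLIntegral_le_lintegral _ _).trans hi2) _)
            (mul_le_mul_right ((setLIntegral_le_lintegral _ _).trans ?_) _)
          rw [lintegral_indicator measurableSet_ball]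
          have m3 : Measurable fun x => ENNReal.ofReal (‖GG x‖ ^ (5 / 4 : ℝ)) :=
            (hGm.norm.pow_const _).ennreal_ofReal
          have m4 : Measurable fun x => ENNReal.ofReal (|uu x| ^ (5 / 4 : ℝ)) :=
            (hum.abs.pow_const _).ennreal_ofReal
          rw [lintegral_add_left (m3.const_mul 4), lintegral_const_mul _ m3,
            lintegral_const_mul _ (m4.const_mul _), lintegral_const_mul _ m4]
          exact le_rfl

end HG

open HG in
theorem t_HG (mol : S_MOL) (ll : S_LL) (dif : S_DIF) (gl : S_GL) (ul : S_UL) (meas : S_MEAS) :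
    S_HG := by
  refine ⟨meas.2.2.1, meas.2.2.2.1, fun K hK hKb => ?_⟩
  rw [wm_one]
  obtain ⟨C, hC0, hCb⟩ := bd_grad_bound
  have hA : Tendsto (fun δ : ℝ => 4 * AA (3 * δ)) (𝓝[>] 0) (𝓝 0) := by
    have h := ENNReal.Tendsto.const_mul (a := 4) ((lim_A ul).comp tendsto_three)
      (Or.inr (by norm_num))
    rw [mul_zero] at h
    exact h
  have hB : Tendsto (fun δ : ℝ => 4 * (4 * BB (3 * δ) +
      4 * (ENNReal.ofReal ((C / δ) ^ (5 / 4 : ℝ)) * AA (3 * δ)))) (𝓝[>] 0) (𝓝 0) := by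
    have h1 := ENNReal.Tendsto.const_mul (a := 4) ((lim_B gl).comp tendsto_three)
      (Or.inr (by norm_num))
    have h2 := ENNReal.Tendsto.const_mul (a := 4) (lim_AC ul hC0) (Or.inr (by norm_num))
    have h3 := ENNReal.Tendsto.const_mul (a := 4) (h1.add h2) (Or.inr (by norm_num))
    simp only [mul_zero, add_zero] at h3
    exact h3
  have hmain : ∀ i : ℕ, ∃ φ : E 3 → ℝ, ContDiff ℝ ∞ φ ∧
      ∫⁻ x in K, ENNReal.ofReal (|φ x - uu x| ^ (5 / 4 : ℝ)) ≤ ((i : ℝ≥0∞))⁻¹ ∧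
      ∫⁻ x in K, ENNReal.ofReal (‖∇ φ x - GG x‖ ^ (5 / 4 : ℝ)) ≤ ((i : ℝ≥0∞))⁻¹ := by
    intro i
    set ε : ℝ≥0∞ := ((i : ℝ≥0∞))⁻¹ with hε
    have hε0 : 0 < ε := ENNReal.inv_pos.2 (ENNReal.natCast_ne_top i)
    have hε2 : 0 < ε / 2 := ENNReal.half_pos hε0.ne'
    have hε8 : 0 < ε / 2 / 4 := ENNReal.div_pos hε2.ne' (by norm_num)
    have e1 := ENNReal.tendsto_nhds_zero.1 hA (ε / 2) hε2
    have e2 := ENNReal.tendsto_nhds_zero.1 hB (ε / 2) hε2
    obtain ⟨δ, ⟨h1, h2⟩, hδ⟩ := ((e1.and e2).and self_mem_nhdsWithin).exists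
    obtain ⟨φ, hφ, k1, k2⟩ := key mol ll dif meas hCb hK hKb hδ hε8
    have h4 : 4 * (ε / 2 / 4) = ε / 2 := ENNReal.mul_div_cancel (by norm_num) (by norm_num)
    rw [h4] at k1 k2
    exact ⟨φ, hφ, k1.trans ((add_le_add le_rfl h1).trans (ENNReal.add_halves ε).le),
      k2.trans ((add_le_add le_rfl h2).trans (ENNReal.add_halves ε).le)⟩
  choose φ hφ hφ1 hφ2 using hmain
  exact ⟨φ, hφ,
    tendsto_of_tendsto_of_tendsto_of_le_of_le tendsto_const_nhds
      ENNReal.tendsto_inv_nat_nhds_zero (fun _ => zero_le) hφ1,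
    tendsto_of_tendsto_of_tendsto_of_le_of_le tendsto_const_nhds
      ENNReal.tendsto_inv_nat_nhds_zero (fun _ => zero_le) hφ2⟩

end Pool.Agent.Q64.LP
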