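import Pool.Agent.Q64.LP.Stm

set_option autoImplicit false

/-!
# Project LP (helper64), job LL (helper123): local Lipschitz continuity of the example
-/

open MeasureTheory Filter Topology Set Metric
open scoped ENNReal NNReal RealInnerProductSpace ContDiff Gradient

namespace Pool.Agent.Q64.LP

namespace LL

section gen

variable {X Y Z : Type*} [PseudoEMetricSpace X] [PseudoEMetricSpace Y] [PseudoEMetricSpace Z]

/-- Lipschitz continuous near a point -/
def LipAt (f : X → Y) (x : X) : Prop := ∃ K : ℝ≥0, ∃ t ∈ 𝓝 x, LipschitzOnWith K f t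

theorem LipAt.congr {f g : X → Y} {x : X} (h : LipAt f x) (hfg : g =ᶠ[𝓝 x] f) : LipAt g x := by
  obtain ⟨K, t, ht, h⟩ := h
  refine ⟨K, t ∩ {y | g y = f y}, inter_mem ht hfg, ?_⟩
  intro a ha b hb
  rw [ha.2, hb.2]
  exact h ha.1 hb.1

theorem LipAt.continuousAt {f : X → Y} {x : X} (h : LipAt f x) : ContinuousAt f x := by
  obtain ⟨K, t, ht, h⟩ := h
  exact (h.continuousOn x (mem_of_mem_nhds ht)).continuousAt ht

theorem LipAt.comp {g : X → Y} {f : Y → Z} {x : X} (hf : LipAt f (g x)) (hg : LipAt g x) :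
    LipAt (fun y => f (g y)) x := by
  have hc := hg.continuousAt
  obtain ⟨K, t, ht, hf⟩ := hf
  obtain ⟨L, s, hs, hg⟩ := hg
  refine ⟨K * L, s ∩ g ⁻¹' t, inter_mem hs (hc ht), ?_⟩
  exact hf.comp (hg.mono inter_subset_left) fun y hy => hy.2

theorem LipAt.prodMk {f : X → Y} {g : X → Z} {x : X} (hf : LipAt f x) (hg : LipAt g x) :
    LipAt (fun y => (f y, g y)) x := by
  obtain ⟨K, t, ht, hf⟩ := hf
  obtain ⟨L, s, hs, hg⟩ := hg
  exact ⟨max K L, t ∩ s, inter_mem ht hs,
    (hf.mono inter_subset_left).prodMk (hg.mono inter_subset_right)⟩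

theorem _root_.LipschitzWith.lipAt {f : X → Y} {K : ℝ≥0} (h : LipschitzWith K f) (x : X) :
    LipAt f x := ⟨K, univ, univ_mem, h.lipschitzOnWith⟩

end gen

/-- composition with a smooth function of two variables -/
theorem comp2 {X : Type*} [PseudoEMetricSpace X] {f g : X → ℝ} {x : X} (hf : LipAt f x)
    (hg : LipAt g x) {Φ : ℝ × ℝ → ℝ} (hΦ : ContDiffAt ℝ 1 Φ (f x, g x)) :
    LipAt (fun y => Φ (f y, g y)) x :=
  LipAt.comp (f := Φ) (g := fun y => (f y, g y)) hΦ.exists_lipschitzOnWith (hf.prodMk hg)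

theorem comp1 {X : Type*} [PseudoEMetricSpace X] {f : X → ℝ} {x : X} (hf : LipAt f x)
    {Φ : ℝ → ℝ} (hΦ : ContDiffAt ℝ 1 Φ (f x)) : LipAt (fun y => Φ (f y)) x :=
  LipAt.comp (f := Φ) (g := f) hΦ.exists_lipschitzOnWith hf

theorem LipAt.min' {X : Type*} [PseudoEMetricSpace X] {f g : X → ℝ} {x : X} (hf : LipAt f x)
    (hg : LipAt g x) : LipAt (fun y => min (f y) (g y)) x := by
  obtain ⟨K, t, ht, hf⟩ := hf
  obtain ⟨L, s, hs, hg⟩ := hg
  refine ⟨max K L, t ∩ s, inter_mem ht hs, ?_⟩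
  have h1 := (hf.mono (inter_subset_left (t := s)))
  have h2 := (hg.mono (inter_subset_right (s := t)))
  rw [lipschitzOnWith_iff_restrict] at h1 h2 ⊢
  exact h1.min h2

theorem LipAt.add' {X : Type*} [PseudoEMetricSpace X] {f g : X → ℝ} {x : X} (hf : LipAt f x)
    (hg : LipAt g x) : LipAt (fun y => f y + g y) x :=
  comp2 hf hg (Φ := fun q => q.1 + q.2) (contDiff_fst.add contDiff_snd).contDiffAt

theorem LipAt.sub' {X : Type*} [PseudoEMetricSpace X] {f g : X → ℝ} {x : X} (hf : LipAt f x)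
    (hg : LipAt g x) : LipAt (fun y => f y - g y) x :=
  comp2 hf hg (Φ := fun q => q.1 - q.2) (contDiff_fst.sub contDiff_snd).contDiffAt

theorem LipAt.mul' {X : Type*} [PseudoEMetricSpace X] {f g : X → ℝ} {x : X} (hf : LipAt f x)
    (hg : LipAt g x) : LipAt (fun y => f y * g y) x :=
  comp2 hf hg (Φ := fun q => q.1 * q.2) (contDiff_fst.mul contDiff_snd).contDiffAt

theorem lip_ss (x : E 3) : LipAt ss x := by
  have h : LipschitzWith 1 ss := by
    refine LipschitzWith.of_dist_le_mul fun a b => ?_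
    rw [NNReal.coe_one, one_mul, Real.dist_eq]
    unfold ss
    refine (abs_abs_sub_abs_le _ _).trans ?_
    rw [dist_eq_norm, ← PiLp.sub_apply, ← Real.norm_eq_abs]
    exact PiLp.norm_apply_le _ _
  exact h.lipAt x

theorem lip_rr (x : E 3) : LipAt rr x := by
  -- `rr` is the norm of the projection
  have h0 : ∀ a : E 3, rr a = ‖(!₂[a 1, a 2] : EuclideanSpace ℝ (Fin 2))‖ := by
    intro a
    rw [EuclideanSpace.norm_eq]
    unfold rr
    simp [Fin.sum_univ_two]
  have h : LipschitzWith 1 rr := by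
    refine LipschitzWith.of_dist_le_mul fun a b => ?_
    rw [NNReal.coe_one, one_mul, Real.dist_eq, h0, h0]
    refine (abs_norm_sub_norm_le _ _).trans ?_
    rw [dist_eq_norm, EuclideanSpace.norm_eq, EuclideanSpace.norm_eq]
    apply Real.sqrt_le_sqrt
    simp only [Fin.sum_univ_two, Fin.sum_univ_three, PiLp.sub_apply]
    simp
    positivity
  exact h.lipAt x

theorem rr_nonneg (x : E 3) : 0 ≤ rr x := Real.sqrt_nonneg _

theorem ss_nonneg (x : E 3) : 0 ≤ ss x := abs_nonneg _

theorem cont_ss : Continuous ss := by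
  unfold ss
  fun_prop

theorem cont_rr : Continuous rr := by
  unfold rr
  fun_prop

/-- the comparison of the formulas for the regions K and T -/
theorem kt {s ρ : ℝ} (hs : 0 < s) (hρ : 0 < ρ) :
    s ^ (7 / 2 : ℝ) / (3 * ρ ^ 3) ≤ 1 / (3 * s) ↔ s ^ (3 / 2 : ℝ) ≤ ρ := by
  have h1 : s ^ (7 / 2 : ℝ) * s = (s ^ (3 / 2 : ℝ)) ^ 3 := by
    rw [← Real.rpow_natCast, ← Real.rpow_mul hs.le]
    nth_rewrite 2 [← Real.rpow_one s]
    rw [← Real.rpow_add hs]
    norm_num
  rw [div_le_div_iff₀ (by positivity) (by positivity)]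
  have h2 : s ^ (7 / 2 : ℝ) * (3 * s) ≤ 1 * (3 * ρ ^ 3) ↔ (s ^ (3 / 2 : ℝ)) ^ 3 ≤ ρ ^ 3 := by
    rw [← h1]
    constructor
    · intro h; linarith
    · intro h; linarith
  rw [h2]
  constructor
  · intro h
    by_contra hcon
    push Not at hcon
    have := pow_lt_pow_left₀ hcon hρ.le (by norm_num : 3 ≠ 0)
    linarith
  · intro h
    exact pow_le_pow_left₀ (by positivity) h 3

theorem lip_uu {x : E 3} (hx0 : x ≠ 0) (hx1 : ss x < 1) : LipAt uu x := by
  have hne : 0 < ss x ∨ 0 < rr x := by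
    by_contra hcon
    push Not at hcon
    have h1 : ss x = 0 := le_antisymm hcon.1 (ss_nonneg x)
    have h2 : rr x = 0 := le_antisymm hcon.2 (rr_nonneg x)
    apply hx0
    unfold ss at h1
    unfold rr at h2
    rw [Real.sqrt_eq_zero (by positivity)] at h2
    have h3 : x 1 = 0 := by nlinarith [sq_nonneg (x 1), sq_nonneg (x 2)]
    have h4 : x 2 = 0 := by nlinarith [sq_nonneg (x 1), sq_nonneg (x 2)]
    have h5 : x 0 = 0 := abs_eq_zero.1 h1
    ext i
    fin_cases i
    · exact h5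
    · exact h3
    · exact h4
  rcases lt_trichotomy (ss x) (rr x) with h | h | h
  · -- region O
    have hr : 0 < rr x := (ss_nonneg x).trans_lt h
    have h1 : LipAt (fun y => -2 * Real.sqrt (rr y)) x :=
      comp1 (lip_rr x) (Φ := fun r => -2 * Real.sqrt r)
        (contDiffAt_const.mul (Real.contDiffAt_sqrt hr.ne'))
    refine h1.congr ?_
    have h2 : ∀ᶠ y in 𝓝 x, ss y < rr y := (cont_ss.tendsto x).eventually_lt (cont_rr.tendsto x) h
    filter_upwards [h2] with y hy
    unfold uu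
    rw [if_pos hy.le]
  · -- the cone `ρ = s`
    have hs : 0 < ss x := by
      rcases hne with h1 | h1
      · exact h1
      · rw [h]; exact h1
    have hr : 0 < rr x := h ▸ hs
    have h1 : LipAt (fun y => rr y / ss y) x :=
      comp2 (lip_rr x) (lip_ss x) (Φ := fun q => q.1 / q.2)
        (contDiffAt_fst.div contDiffAt_snd hs.ne')
    have h2 : LipAt (fun y => min (rr y / ss y) 1) x :=
      h1.min' ((LipschitzWith.const (1 : ℝ)).lipAt x)
    have h3 : min (rr x / ss x) 1 = 1 := by rw [h, div_self hr.ne', min_self]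
    have h4 : LipAt (fun y => (min (rr y / ss y) 1 ^ 3)⁻¹ / 3 - 7 / 3 +
        2 * Real.sqrt (min (rr y / ss y) 1)) x := by
      refine comp1 h2 (Φ := fun l => (l ^ 3)⁻¹ / 3 - 7 / 3 + 2 * Real.sqrt l) ?_
      rw [h3]
      have e1 : ContDiffAt ℝ 1 (fun l : ℝ => (l ^ 3)⁻¹) 1 :=
        (contDiffAt_id.pow 3).inv (by norm_num)
      exact ((e1.div_const 3).sub contDiffAt_const).add
        (contDiffAt_const.mul (Real.contDiffAt_sqrt one_ne_zero))
    have h5 : LipAt (fun y => Real.sqrt (ss y)) x :=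
      comp1 (lip_ss x) (Real.contDiffAt_sqrt hs.ne')
    have h6 : LipAt (fun y => -2 * Real.sqrt (rr y)) x :=
      comp1 (lip_rr x) (Φ := fun r => -2 * Real.sqrt r)
        (contDiffAt_const.mul (Real.contDiffAt_sqrt hr.ne'))
    refine (h6.add' (h5.mul' h4)).congr ?_
    have hcs := cont_ss.tendsto x
    have hcr := cont_rr.tendsto x
    have a1 : ∀ᶠ y in 𝓝 x, 0 < ss y := hcs.eventually_const_lt hs
    have a2 : ∀ᶠ y in 𝓝 x, 0 < rr y := hcr.eventually_const_lt hr
    have a3 : ∀ᶠ y in 𝓝 x, ss y ^ (3 / 2 : ℝ) < rr y := by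
      have hc : Tendsto (fun y => ss y ^ (3 / 2 : ℝ)) (𝓝 x) (𝓝 (ss x ^ (3 / 2 : ℝ))) :=
        hcs.rpow_const (Or.inr (by norm_num))
      refine hc.eventually_lt hcr ?_
      rw [← h]
      calc ss x ^ (3 / 2 : ℝ) < ss x ^ (1 : ℝ) :=
            Real.rpow_lt_rpow_of_exponent_gt hs hx1 (by norm_num)
        _ = ss x := Real.rpow_one _
    filter_upwards [a1, a2, a3] with y hy1 hy2 hy3
    unfold uu
    by_cases hy : ss y ≤ rr y
    · rw [if_pos hy, min_eq_right ((one_le_div hy1).2 hy)]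
      norm_num
    · push Not at hy
      rw [if_neg (not_le.2 hy), if_pos hy3.le, min_eq_left ((div_le_one hy1).2 hy.le)]
      have e1 : Real.sqrt (rr y / ss y) * Real.sqrt (ss y) = Real.sqrt (rr y) := by
        rw [← Real.sqrt_mul (by positivity), div_mul_cancel₀ _ hy1.ne']
      have e2 : ss y ^ (7 / 2 : ℝ) = ss y ^ 3 * Real.sqrt (ss y) := by
        rw [Real.sqrt_eq_rpow, ← Real.rpow_natCast, ← Real.rpow_add hy1]
        norm_num
      rw [e2, ← e1, div_pow]
      have hs3 : ss y ≠ 0 := hy1.ne'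
      have hr3 : rr y ≠ 0 := hy2.ne'
      field_simp
      ring
  · have hs : 0 < ss x := (rr_nonneg x).trans_lt h
    have hcs := cont_ss.tendsto x
    have hcr := cont_rr.tendsto x
    have a1 : ∀ᶠ y in 𝓝 x, 0 < ss y := hcs.eventually_const_lt hs
    have a2 : ∀ᶠ y in 𝓝 x, rr y < ss y := hcr.eventually_lt hcs h
    have h5 : LipAt (fun y => 7 / 3 * Real.sqrt (ss y)) x :=
      comp1 (lip_ss x) (Φ := fun s => 7 / 3 * Real.sqrt s)
        (contDiffAt_const.mul (Real.contDiffAt_sqrt hs.ne'))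
    have h6 : LipAt (fun y => 1 / (3 * ss y)) x :=
      comp1 (lip_ss x) (Φ := fun s => 1 / (3 * s))
        (contDiffAt_const.div (contDiffAt_const.mul contDiffAt_id) (by positivity))
    by_cases hr : rr x < ss x ^ (3 / 2 : ℝ)
    · -- region T
      refine (h6.sub' h5).congr ?_
      have a3 : ∀ᶠ y in 𝓝 x, rr y < ss y ^ (3 / 2 : ℝ) :=
        hcr.eventually_lt (hcs.rpow_const (Or.inr (by norm_num))) hr
      filter_upwards [a2, a3] with y hy1 hy2
      unfold uu
      rw [if_neg (not_le.2 hy1), if_neg (not_le.2 hy2)]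
    · -- region K
      push Not at hr
      have hr0 : 0 < rr x := lt_of_lt_of_le (by positivity) hr
      have h7 : LipAt (fun y => ss y ^ (7 / 2 : ℝ) / (3 * rr y ^ 3)) x := by
        refine comp2 (lip_ss x) (lip_rr x) (Φ := fun q => q.1 ^ (7 / 2 : ℝ) / (3 * q.2 ^ 3)) ?_
        refine ContDiffAt.div ?_ (contDiffAt_const.mul (contDiffAt_snd.pow 3)) (by positivity)
        exact contDiffAt_fst.rpow_const_of_ne hs.ne'
      refine ((h7.min' h6).sub' h5).congr ?_
      have a3 : ∀ᶠ y in 𝓝 x, 0 < rr y := hcr.eventually_const_lt hr0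
      filter_upwards [a1, a2, a3] with y hy1 hy2 hy3
      unfold uu
      rw [if_neg (not_le.2 hy2)]
      by_cases hy : ss y ^ (3 / 2 : ℝ) ≤ rr y
      · rw [if_pos hy, min_eq_left ((kt hy1 hy3).2 hy)]
      · rw [if_neg hy, min_eq_right]
        by_contra hcon
        push Not at hcon
        exact hy ((kt hy1 hy3).1 hcon.le)

/-- locally Lipschitz functions which vanish off the unit ball are Lipschitz -/
theorem global {f : E 3 → ℝ} (hf : ∀ x, LipAt f x) (h0 : ∀ x, x ∉ ball (0 : E 3) 1 → f x = 0) :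
    ∃ C : ℝ≥0, LipschitzWith C f := by
  obtain ⟨K, hK⟩ := LocallyLipschitzOn.exists_lipschitzOnWith_of_compact
    (isCompact_closedBall (0 : E 3) 1) (f := f) (fun x _ => by
      obtain ⟨K, t, ht, h⟩ := hf x
      exact ⟨K, t, mem_nhdsWithin_of_mem_nhds ht, h⟩)
  refine ⟨2 * K, LipschitzWith.of_dist_le_mul ?_⟩
  have key : ∀ a b : E 3, a ∈ closedBall (0 : E 3) 1 → b ∉ closedBall (0 : E 3) 1 →
      dist (f a) (f b) ≤ 2 * K * dist a b := by
    intro a b ha hb
    rw [mem_closedBall, dist_zero_right] at ha hb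
    push Not at hb
    have hb0 : 0 < ‖b‖ := by linarith
    set b' : E 3 := (‖b‖⁻¹) • b with hb'
    have hn : ‖b'‖ = 1 := by
      rw [hb', norm_smul, norm_inv, norm_norm, inv_mul_cancel₀ hb0.ne']
    have e1 : f b = f b' := by
      rw [h0 b (by rw [mem_ball, dist_zero_right]; linarith),
        h0 b' (by rw [mem_ball, dist_zero_right]; linarith)]
    rw [e1]
    have h1 := hK.dist_le_mul a (by rw [mem_closedBall, dist_zero_right]; exact ha) b'
      (by rw [mem_closedBall, dist_zero_right]; exact hn.le)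
    refine h1.trans ?_
    have h2 : dist b b' = ‖b‖ - 1 := by
      rw [dist_eq_norm]
      have e2 : b - b' = (1 - ‖b‖⁻¹) • b := by rw [hb', sub_smul, one_smul]
      have e3 : ‖b‖⁻¹ ≤ 1 := inv_le_one_of_one_le₀ hb.le
      rw [e2, norm_smul, Real.norm_of_nonneg (by linarith), sub_mul, one_mul,
        inv_mul_cancel₀ hb0.ne']
    have h3 := dist_triangle a b b'
    have h4 : ‖b‖ - ‖a‖ ≤ dist a b := by
      rw [dist_comm, dist_eq_norm]
      exact norm_sub_norm_le _ _
    have h5 : dist a b' ≤ 2 * dist a b := by linarith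
    calc (K : ℝ) * dist a b' ≤ K * (2 * dist a b) := mul_le_mul_of_nonneg_left h5 K.2
      _ = 2 * K * dist a b := by ring
  intro a b
  push_cast
  by_cases ha : a ∈ closedBall (0 : E 3) 1
  · by_cases hb : b ∈ closedBall (0 : E 3) 1
    · refine (hK.dist_le_mul a ha b hb).trans ?_
      have : 0 ≤ (K : ℝ) * dist a b := by positivity
      linarith
    · exact key a b ha hb
  · by_cases hb : b ∈ closedBall (0 : E 3) 1
    · rw [dist_comm, dist_comm a b]
      exact key b a hb ha
    · have h1 : ∀ c, c ∉ closedBall (0 : E 3) 1 → f c = 0 := fun c hc =>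
        h0 c fun h => hc (ball_subset_closedBall h)
      rw [h1 a ha, h1 b hb, dist_self]
      positivity

end LL

open LL

theorem t_LL : S_LL := by
  intro χ hχ hχc hsupp
  refine LL.global (f := fun x => χ x * uu x) (fun x => ?_) fun x hx => ?_
  · by_cases hx : x ∈ tsupport χ
    · have h1 := hsupp hx
      have h2 : x ≠ 0 := h1.2
      have h3 : ss x < 1 := by
        have h4 : ‖x‖ < 1 := by simpa [mem_ball, dist_zero_right] using h1.1
        refine lt_of_le_of_lt ?_ h4
        unfold ss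
        rw [← Real.norm_eq_abs]
        exact PiLp.norm_apply_le _ _
      exact LipAt.mul' (hχ.contDiffAt.of_le (by simp)).exists_lipschitzOnWith (lip_uu h2 h3)
    · have h1 : LipAt (fun _ : E 3 => (0 : ℝ)) x := (LipschitzWith.const (0 : ℝ)).lipAt x
      refine h1.congr ?_
      have h2 : ∀ᶠ y in 𝓝 x, y ∉ tsupport χ :=
        (isClosed_tsupport χ).isOpen_compl.mem_nhds hx
      filter_upwards [h2] with y hy
      rw [image_eq_zero_of_notMem_tsupport hy, zero_mul]
  · show χ x * uu x = 0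
    rw [image_eq_zero_of_notMem_tsupport fun h => hx (hsupp h).1, zero_mul]

end Pool.Agent.Q64.LP
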