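import Pool.Agent.Q64.LP.Stm

open MeasureTheory Filter Topology Set Metric
open scoped ENNReal NNReal RealInnerProductSpace ContDiff Gradient

namespace Pool.Agent.Q64.LP

namespace MEAS

theorem mco (i : Fin 3) : Measurable (fun x : E 3 => x i) := by fun_prop

theorem mss : Measurable ss := by
  unfold ss; exact (mco 0).abs

theorem mrr : Measurable rr := by
  unfold rr
  exact (((mco 1).pow_const 2).add ((mco 2).pow_const 2)).sqrt

theorem msg : Measurable (fun x : E 3 => (SignType.sign (x 0) : ℝ)) := by
  have : (fun x : E 3 => (SignType.sign (x 0) : ℝ)) =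
      fun x => if 0 < x 0 then (1 : ℝ) else if x 0 < 0 then -1 else 0 := by
    funext x
    rcases lt_trichotomy (x 0) 0 with h | h | h
    · rw [sign_neg h, if_neg (not_lt.mpr h.le), if_pos h]; simp
    · rw [h]; simp
    · rw [sign_pos h, if_pos h]; simp
  rw [this]
  exact Measurable.ite (measurableSet_lt measurable_const (mco 0)) measurable_const
    (Measurable.ite (measurableSet_lt (mco 0) measurable_const) measurable_const measurable_const)

theorem mvec {a b c : E 3 → ℝ} (ha : Measurable a) (hb : Measurable b) (hc : Measurable c) :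
    Measurable (fun x => (!₂[a x, b x, c x] : E 3)) := by
  refine (PiLp.continuous_toLp 2 _).measurable.comp ?_
  refine measurable_pi_lambda _ fun i => ?_
  fin_cases i
  · exact ha
  · exact hb
  · exact hc

end MEAS

open MEAS in
theorem t_MEAS : S_MEAS := by
  have h1 : MeasurableSet {x : E 3 | ss x ≤ rr x} := measurableSet_le mss mrr
  have h2 : MeasurableSet {x : E 3 | ss x ^ (3 / 2 : ℝ) ≤ rr x} :=
    measurableSet_le (mss.pow_const _) mrr
  refine ⟨mss, mrr, ?_, ?_, ?_, ?_⟩
  · unfold uu
    exact Measurable.ite h1 (mrr.sqrt.const_mul _) (Measurable.ite h2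
      (((mss.pow_const _).div ((mrr.pow_const 3).const_mul 3)).sub (mss.sqrt.const_mul _))
      ((measurable_const.div (mss.const_mul 3)).sub (mss.sqrt.const_mul _)))
  · unfold GG
    refine Measurable.ite h1 (mvec measurable_const ?_ ?_) (Measurable.ite h2 (mvec ?_ ?_ ?_)
      (mvec ?_ measurable_const measurable_const))
    · exact ((mrr.pow_const _).neg).mul (mco 1)
    · exact ((mrr.pow_const _).neg).mul (mco 2)
    · exact msg.mul ((((mss.pow_const _).mul (mrr.pow_const _)).sub (mss.pow_const _)).const_mul _)
    · exact (((mss.pow_const _).mul (mrr.pow_const _)).neg).mul (mco 1)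
    · exact (((mss.pow_const _).mul (mrr.pow_const _)).neg).mul (mco 2)
    · exact msg.mul (((mss.pow_const _).const_mul _).sub ((mss.pow_const _).const_mul _))
  · unfold FF
    refine Measurable.ite h1 (mvec measurable_const ?_ ?_) (Measurable.ite h2
      (mvec measurable_const ?_ ?_) (mvec ?_ ?_ ?_))
    · exact ((mrr.pow_const _).neg).mul (mco 1)
    · exact ((mrr.pow_const _).neg).mul (mco 2)
    · exact (((mss.pow_const _).mul (mrr.pow_const _)).neg).mul (mco 1)
    · exact (((mss.pow_const _).mul (mrr.pow_const _)).neg).mul (mco 2)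
    · exact (msg.mul (mss.pow_const _)).neg
    · exact (((mss.pow_const _).const_mul _).neg).mul (mco 1)
    · exact (((mss.pow_const _).const_mul _).neg).mul (mco 2)
  · have : {x : E 3 | TT x} = {x : E 3 | ss x ≤ rr x}ᶜ ∩ {x : E 3 | ss x ^ (3 / 2 : ℝ) ≤ rr x}ᶜ := by
      ext x; rfl
    rw [this]
    exact h1.compl.inter h2.compl

end Pool.Agent.Q64.LP
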