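import Pool.Agent.Q64.LP.Stm

/-! MOL: mollification of a compactly supported Lipschitz function. -/

set_option autoImplicit false

open MeasureTheory Filter Topology Set Metric
open scoped ENNReal NNReal RealInnerProductSpace ContDiff Gradient

namespace Pool.Agent.Q64.LP

namespace MOL

/-- the bump functions -/
noncomputable def bmp (n : ℕ) (i : ℕ) : ContDiffBump (0 : E n) :=
  ⟨1 / (2 * ((i : ℝ) + 1)), 1 / ((i : ℝ) + 1), by positivity, by
    have h : (0 : ℝ) < (i : ℝ) + 1 := by positivity
    exact one_div_lt_one_div_of_lt h (by linarith)⟩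

lemma bmp_rOut (n i : ℕ) : (bmp n i).rOut = 1 / ((i : ℝ) + 1) := rfl

lemma bmp_rIn (n i : ℕ) : (bmp n i).rIn = 1 / (2 * ((i : ℝ) + 1)) := rfl

lemma bmp_le (n i : ℕ) : (bmp n i).rOut ≤ 1 := by
  rw [bmp_rOut, div_le_one (by positivity)]
  have : (0 : ℝ) ≤ i := Nat.cast_nonneg i
  linarith

/-- the kernel -/
noncomputable def ker (n i : ℕ) : E n → ℝ := (bmp n i).normed volume

lemma ker_nonneg (n i : ℕ) (x : E n) : 0 ≤ ker n i x := (bmp n i).nonneg_normed x

lemma ker_cont (n i : ℕ) : Continuous (ker n i) := (bmp n i).continuous_normed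

lemma ker_supp (n i : ℕ) : HasCompactSupport (ker n i) := (bmp n i).hasCompactSupport_normed

lemma ker_int (n i : ℕ) : Integrable (ker n i) :=
  (ker_cont n i).integrable_of_hasCompactSupport (ker_supp n i)

lemma ker_one (n i : ℕ) : ∫ x, ker n i x = 1 := (bmp n i).integral_normed

lemma ker_zero (n i : ℕ) (x : E n) (hx : 1 < ‖x‖) : ker n i x = 0 := by
  by_contra h
  have h1 : x ∈ Function.support (ker n i) := h
  rw [ker, (bmp n i).support_normed_eq, mem_ball_zero_iff] at h1
  exact absurd (h1.trans_le (bmp_le n i)) (not_lt.2 hx.le)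

variable {G : Type} [NormedAddCommGroup G] [NormedSpace ℝ G] [CompleteSpace G]

/-- the convolution -/
noncomputable def mo (n i : ℕ) (u : E n → G) (x : E n) : G := ∫ t, ker n i t • u (x - t)

omit [CompleteSpace G] in
lemma mo_eq (n i : ℕ) (u : E n → G) : mo n i u =
    convolution (ker n i) u (ContinuousLinearMap.lsmul ℝ ℝ) volume := rfl

lemma ae_sub {n : ℕ} (x : E n) {P : E n → Prop} (h : ∀ᵐ y ∂(volume : Measure (E n)), P y) :
    ∀ᵐ t ∂(volume : Measure (E n)), P (x - t) :=
  (Measure.measurePreserving_sub_left volume x).quasiMeasurePreserving.ae h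

/-- convergence in `L^p` -/
lemma conv_Lp {n : ℕ} (p : ℝ) (hp : 1 ≤ p) (u : E n → G) (hu : StronglyMeasurable u)
    (C R : ℝ) (hb : ∀ᵐ x ∂(volume : Measure (E n)), ‖u x‖ ≤ C)
    (h0 : ∀ᵐ x ∂(volume : Measure (E n)), R < ‖x‖ → u x = 0) :
    Tendsto (fun i => ∫⁻ x, ENNReal.ofReal (‖mo n i u x - u x‖ ^ p)) atTop (𝓝 0) := by
  have hp0 : 0 < p := by linarith
  have hloc : LocallyIntegrable u (volume : Measure (E n)) := by
    have h1 : MemLp u ∞ (volume : Measure (E n)) :=
      memLp_top_of_bound hu.aestronglyMeasurable C hb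
    exact h1.locallyIntegrable le_top
  have hlim := ContDiffBump.ae_convolution_tendsto_right_of_locallyIntegrable
    (μ := (volume : Measure (E n))) (φ := fun i => bmp n i) (l := atTop) (K := 2) (g := u) (by
      simp only [bmp_rOut]
      exact tendsto_one_div_add_atTop_nhds_zero_nat) (by
      refine Eventually.of_forall fun i => ?_
      rw [bmp_rOut, bmp_rIn]
      apply le_of_eq
      have h : (0 : ℝ) < (i : ℝ) + 1 := by positivity
      field_simp) hloc
  have hmeas : ∀ i, AEMeasurable (fun x => ENNReal.ofReal (‖mo n i u x - u x‖ ^ p))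
      (volume : Measure (E n)) := by
    intro i
    have h1 : Continuous (mo n i u) := by
      rw [mo_eq]
      exact (ker_supp n i).continuous_convolution_left _ (ker_cont n i) hloc
    have h2 : StronglyMeasurable (fun x => mo n i u x - u x) := h1.stronglyMeasurable.sub hu
    exact (h2.norm.measurable.pow_const p).ennreal_ofReal.aemeasurable
  have h := tendsto_lintegral_of_dominated_convergence'
    (μ := (volume : Measure (E n)))
    (F := fun i x => ENNReal.ofReal (‖mo n i u x - u x‖ ^ p)) (f := fun _ => 0)
    ((closedBall (0 : E n) (R + 1)).indicator fun _ => ENNReal.ofReal ((2 * C) ^ p)) hmeas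
    (by
      intro i
      filter_upwards [hb, h0] with x hbx h0x
      have hmo : ‖mo n i u x‖ ≤ C := by
        have h1 : ‖mo n i u x‖ ≤ ∫ t, ker n i t * C := by
          apply norm_integral_le_of_norm_le ((ker_int n i).mul_const C)
          filter_upwards [ae_sub x hb] with t ht
          rw [norm_smul, Real.norm_of_nonneg (ker_nonneg n i t)]
          exact mul_le_mul_of_nonneg_left ht (ker_nonneg n i t)
        rw [integral_mul_const, ker_one, one_mul] at h1
        exact h1
      by_cases hx : x ∈ closedBall (0 : E n) (R + 1)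
      · rw [indicator_of_mem hx]
        apply ENNReal.ofReal_le_ofReal
        apply Real.rpow_le_rpow (norm_nonneg _) _ hp0.le
        calc ‖mo n i u x - u x‖ ≤ ‖mo n i u x‖ + ‖u x‖ := norm_sub_le _ _
          _ ≤ C + C := add_le_add hmo hbx
          _ = 2 * C := by ring
      · rw [indicator_of_notMem hx]
        rw [mem_closedBall_zero_iff, not_le] at hx
        have h1 : mo n i u x = 0 := by
          unfold mo
          apply integral_eq_zero_of_ae
          filter_upwards [ae_sub x h0] with t ht
          by_cases hn : 1 < ‖t‖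
          · rw [ker_zero n i t hn, zero_smul]
            rfl
          · rw [ht, smul_zero]
            · rfl
            · have h2 : ‖x‖ ≤ ‖x - t‖ + ‖t‖ := by
                calc ‖x‖ = ‖(x - t) + t‖ := by rw [sub_add_cancel]
                  _ ≤ _ := norm_add_le _ _
              linarith [not_lt.1 hn]
        rw [h1, h0x (by linarith), sub_zero, norm_zero, Real.zero_rpow hp0.ne',
          ENNReal.ofReal_zero])
    (by
      rw [lintegral_indicator measurableSet_closedBall, setLIntegral_const]
      exact ENNReal.mul_ne_top ENNReal.ofReal_ne_top measure_closedBall_lt_top.ne)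
    (by
      filter_upwards [hlim] with x hx
      have h1 : Tendsto (fun i => ‖mo n i u x - u x‖ ^ p) atTop (𝓝 0) := by
        have h2 : Tendsto (fun i => mo n i u x - u x) atTop (𝓝 0) := by
          have := hx.sub_const (u x)
          rw [sub_self] at this
          exact this
        have h3 := h2.norm
        rw [norm_zero] at h3
        have h4 := h3.rpow_const (p := p) (Or.inr hp0.le)
        rwa [Real.zero_rpow hp0.ne'] at h4
      have h5 := (ENNReal.continuous_ofReal.tendsto 0).comp h1
      rw [ENNReal.ofReal_zero] at h5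
      exact h5)
  rwa [lintegral_zero] at h

/-- the gradient of the convolution -/
lemma grad_mo {n : ℕ} (i : ℕ) (f : E n → ℝ) (C : ℝ≥0) (hf : LipschitzWith C f) (g : E n → E n)
    (hg : Measurable g) (hb : ∀ᵐ x ∂(volume : Measure (E n)), ‖g x‖ ≤ C)
    (hfg : ∀ᵐ x ∂(volume : Measure (E n)), HasGradientAt f (g x) x) (x₀ : E n) :
    HasGradientAt (mo n i f) (mo n i g x₀) x₀ := by
  have hgi : Integrable (fun t => ker n i t • g (x₀ - t)) := by
    refine ((ker_int n i).mul_const (C : ℝ)).mono' ?_ ?_
    · exact (ker_cont n i).aestronglyMeasurable.smul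
        (hg.comp (measurable_const.sub measurable_id)).aestronglyMeasurable
    · filter_upwards [ae_sub x₀ hb] with t ht
      rw [norm_smul, Real.norm_of_nonneg (ker_nonneg n i t)]
      exact mul_le_mul_of_nonneg_left ht (ker_nonneg n i t)
  have h := hasFDerivAt_integral_of_dominated_loc_of_lip (𝕜 := ℝ) (μ := (volume : Measure (E n)))
    (F := fun x t => ker n i t • f (x - t))
    (F' := fun t => ker n i t • InnerProductSpace.toDual ℝ (E n) (g (x₀ - t)))
    (x₀ := x₀) (s := univ) (bound := fun t => ker n i t * C) univ_mem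
    (Eventually.of_forall fun x => by
      refine Continuous.aestronglyMeasurable ?_
      exact (ker_cont n i).smul (hf.continuous.comp (continuous_const.sub continuous_id)))
    (by
      refine Continuous.integrable_of_hasCompactSupport ?_ ?_
      · exact (ker_cont n i).smul (hf.continuous.comp (continuous_const.sub continuous_id))
      · exact (ker_supp n i).smul_right)
    (by
      refine (ker_cont n i).aestronglyMeasurable.smul ?_
      exact (InnerProductSpace.toDual ℝ (E n)).continuous.comp_aestronglyMeasurable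
        (hg.comp (measurable_const.sub measurable_id)).aestronglyMeasurable)
    (Eventually.of_forall fun t => by
      rw [lipschitzOnWith_univ]
      apply LipschitzWith.of_dist_le_mul
      intro x y
      rw [dist_eq_norm, ← smul_sub, norm_smul, Real.norm_of_nonneg (ker_nonneg n i t)]
      have h1 := hf.dist_le_mul (x - t) (y - t)
      rw [dist_sub_right, dist_eq_norm] at h1
      rw [Real.coe_nnabs, abs_of_nonneg (mul_nonneg (ker_nonneg n i t) C.coe_nonneg), mul_assoc]
      exact mul_le_mul_of_nonneg_left h1 (ker_nonneg n i t))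
    ((ker_int n i).mul_const _)
    (by
      filter_upwards [ae_sub x₀ hfg] with t ht
      have h1 : HasFDerivAt (fun x => f (x - t))
          (InnerProductSpace.toDual ℝ (E n) (g (x₀ - t))) x₀ := by
        have h2 : HasFDerivAt f (InnerProductSpace.toDual ℝ (E n) (g (x₀ - t))) (x₀ - t) := ht
        have h3 : HasFDerivAt (fun x : E n => x - t) (ContinuousLinearMap.id ℝ (E n)) x₀ :=
          (hasFDerivAt_id x₀).sub_const t
        have h4 := h2.comp x₀ h3
        rwa [ContinuousLinearMap.comp_id] at h4
      exact h1.const_smul (ker n i t))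
  obtain ⟨hi, hd⟩ := h
  rw [hasGradientAt_iff_hasFDerivAt]
  have he : ∫ t, ker n i t • InnerProductSpace.toDual ℝ (E n) (g (x₀ - t)) =
      InnerProductSpace.toDual ℝ (E n) (mo n i g x₀) := by
    ext v
    rw [ContinuousLinearMap.integral_apply hi, InnerProductSpace.toDual_apply_apply]
    unfold mo
    rw [real_inner_comm, ← integral_inner hgi]
    refine integral_congr_ae (Eventually.of_forall fun t => ?_)
    show ker n i t • (InnerProductSpace.toDual ℝ (E n) (g (x₀ - t))) v = _
    show _ = ⟪v, ker n i t • g (x₀ - t)⟫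
    rw [InnerProductSpace.toDual_apply_apply, real_inner_smul_right, smul_eq_mul,
      real_inner_comm]
  rw [← he]
  exact hd

end MOL

/-- MOL -/
theorem t_MOL : S_MOL := by
  rintro n p hp f ⟨C, hf⟩ hfs g hg hfg
  obtain ⟨R, hR⟩ : ∃ R : ℝ, tsupport f ⊆ closedBall 0 R := by
    obtain ⟨R, hR⟩ := hfs.isCompact.isBounded.subset_closedBall (0 : E n)
    exact ⟨R, hR⟩
  have hf0 : ∀ x : E n, R < ‖x‖ → x ∉ tsupport f := by
    intro x hx h
    have := hR h
    rw [mem_closedBall_zero_iff] at this
    linarith
  obtain ⟨M, hM⟩ := hfs.exists_bound_of_continuous hf.continuous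
  have hgb : ∀ᵐ x ∂(volume : Measure (E n)), ‖g x‖ ≤ C := by
    filter_upwards [hfg] with x hx
    have h1 : HasFDerivAt f (InnerProductSpace.toDual ℝ (E n) (g x)) x := hx
    have h2 := h1.le_of_lipschitz hf
    rwa [LinearIsometryEquiv.norm_map] at h2
  have hg0 : ∀ᵐ x ∂(volume : Measure (E n)), R < ‖x‖ → g x = 0 := by
    filter_upwards [hfg] with x hx hxR
    have h1 : f =ᶠ[𝓝 x] fun _ => 0 := notMem_tsupport_iff_eventuallyEq.1 (hf0 x hxR)
    have h2 : HasGradientAt (fun _ : E n => (0 : ℝ)) (g x) x := hx.congr_of_eventuallyEq h1.symm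
    have h3 : HasGradientAt (fun _ : E n => (0 : ℝ)) 0 x := hasGradientAt_const x 0
    exact h2.unique h3
  refine ⟨fun i => MOL.mo n i f, fun i => ?_, ?_, ?_⟩
  · show ContDiff ℝ ∞ (MOL.mo n i f)
    rw [MOL.mo_eq]
    exact (MOL.ker_supp n i).contDiff_convolution_left _
      ((MOL.bmp n i).contDiff_normed (n := ⊤)) (hf.continuous.locallyIntegrable)
  · have h := MOL.conv_Lp p hp f hf.continuous.stronglyMeasurable (max M 0) R
      (Eventually.of_forall fun x => (hM x).trans (le_max_left _ _))
      (Eventually.of_forall fun x hx => image_eq_zero_of_notMem_tsupport (hf0 x hx))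
    exact h
  · have h := MOL.conv_Lp p hp g hg.stronglyMeasurable C R hgb hg0
    have he : ∀ i x, ∇ (MOL.mo n i f) x = MOL.mo n i g x := fun i x =>
      (MOL.grad_mo i f C hf g hg hgb hfg x).gradient
    simp only [he]
    exact h

end Pool.Agent.Q64.LP
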