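import Pool.Agent.Q64.LP.Stm

set_option autoImplicit false

/-!
# Project LP (helper64), job POI (helper123): the Poincare inequality on balls
-/

open MeasureTheory Filter Topology Set Metric
open scoped ENNReal NNReal RealInnerProductSpace ContDiff Gradient

namespace Pool.Agent.Q64.LP

namespace POI

/-- Jensen's inequality -/
theorem jensen {α : Type*} [MeasurableSpace α] (μ : Measure α) {p : ℝ} (hp : 1 < p)
    {f : α → ℝ≥0∞} (hf : AEMeasurable f μ) :
    (∫⁻ t, f t ∂μ) ^ p ≤ μ univ ^ (p - 1) * ∫⁻ t, f t ^ p ∂μ := by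
  have h0 : 0 < p := by linarith
  obtain ⟨q, hq⟩ : ∃ q, p.HolderConjugate q := ⟨_, Real.HolderConjugate.conjExponent hp⟩
  have h := ENNReal.lintegral_mul_le_Lp_mul_Lq μ hq
    (f := f) (g := fun _ => 1) hf aemeasurable_const
  simp only [Pi.mul_apply, mul_one, ENNReal.one_rpow, lintegral_const, one_mul] at h
  calc (∫⁻ t, f t ∂μ) ^ p
      ≤ ((∫⁻ t, f t ^ p ∂μ) ^ (1 / p) * μ univ ^ (1 / q)) ^ p :=
        ENNReal.rpow_le_rpow h h0.le
    _ = μ univ ^ (p - 1) * ∫⁻ t, f t ^ p ∂μ := by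
        rw [ENNReal.mul_rpow_of_nonneg _ _ h0.le, ← ENNReal.rpow_mul, ← ENNReal.rpow_mul,
          one_div_mul_cancel h0.ne', ENNReal.rpow_one, mul_comm]
        congr 2
        have := hq.sub_one_pos
        have h1 : q⁻¹ = 1 - p⁻¹ := hq.one_sub_inv.symm
        rw [one_div, h1]
        field_simp

/-- contraction towards a point of the ball -/
theorem contract {N : E 3 → ℝ≥0∞} (hN : Measurable N) (x : E 3) (r : ℝ) {c : E 3}
    (hc : c ∈ ball x r) {t : ℝ} (ht : 1 / 2 ≤ t) (ht1 : t ≤ 1) :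
    ∫⁻ z in ball x r, N (c + t • (z - c)) ≤ 8 * ∫⁻ z in ball x r, N z := by
  have ht0 : 0 < t := by linarith
  set h : E 3 → ℝ≥0∞ := (ball x r).indicator N with hh
  have hhm : Measurable h := hN.indicator measurableSet_ball
  have h1 : ∫⁻ z in ball x r, N (c + t • (z - c)) ≤ ∫⁻ z, h (t • z + (c - t • c)) := by
    rw [← lintegral_indicator measurableSet_ball]
    refine lintegral_mono fun z => ?_
    by_cases hz : z ∈ ball x r
    · rw [indicator_of_mem hz]
      have e1 : c + t • (z - c) = t • z + (c - t • c) := by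
        rw [smul_sub]
        abel
      have e2 : t • z + (c - t • c) ∈ ball x r := by
        have h3 := (convex_ball x r) hc hz (by linarith : (0 : ℝ) ≤ 1 - t) ht0.le (by ring)
        have e3 : (1 - t) • c + t • z = t • z + (c - t • c) := by
          rw [sub_smul, one_smul]
          abel
        rwa [e3] at h3
      rw [e1, hh, indicator_of_mem e2]
    · rw [indicator_of_notMem hz]
      exact zero_le
  refine h1.trans ?_
  have h2 : ∫⁻ z, h (t • z + (c - t • c)) = ENNReal.ofReal |(t ^ 3)⁻¹| * ∫⁻ z, h z := by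
    have e1 : ∫⁻ z, h (t • z + (c - t • c)) =
        ∫⁻ z, h (z + (c - t • c)) ∂(Measure.map (fun z : E 3 => t • z) volume) :=
      (lintegral_map (μ := (volume : Measure (E 3))) (f := fun z => h (z + (c - t • c)))
        (g := fun z : E 3 => t • z) (hhm.comp (measurable_add_const _))
        (measurable_const_smul t)).symm
    rw [e1, Measure.map_addHaar_smul volume ht0.ne', lintegral_smul_measure]
    rw [lintegral_add_right_eq_self (μ := (volume : Measure (E 3))) h]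
    have e2 : Module.finrank ℝ (E 3) = 3 := by simp [E]
    rw [e2, smul_eq_mul]
  rw [h2, hh, lintegral_indicator measurableSet_ball]
  refine mul_le_mul' ?_ le_rfl
  rw [abs_of_pos (by positivity)]
  have h3 : (t ^ 3)⁻¹ ≤ 8 := by
    have h4 : (1 / 2 : ℝ) ^ 3 ≤ t ^ 3 := pow_le_pow_left₀ (by norm_num) ht 3
    rw [inv_le_comm₀ (by positivity) (by norm_num)]
    linarith
  calc ENNReal.ofReal ((t ^ 3)⁻¹) ≤ ENNReal.ofReal 8 := ENNReal.ofReal_le_ofReal h3
    _ = 8 := by norm_num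

/-- the double integral over the ball -/
theorem double {N : E 3 → ℝ≥0∞} (hN : Measurable N) (x : E 3) (r : ℝ) {t : ℝ} (ht : 0 ≤ t)
    (ht1 : t ≤ 1) :
    ∫⁻ y in ball x r, ∫⁻ z in ball x r, N (y + t • (z - y)) ≤
      volume (ball x r) * (8 * ∫⁻ z in ball x r, N z) := by
  rcases le_total (1 / 2) t with h | h
  · calc ∫⁻ y in ball x r, ∫⁻ z in ball x r, N (y + t • (z - y))
        ≤ ∫⁻ _y in ball x r, (8 * ∫⁻ z in ball x r, N z) :=
          setLIntegral_mono measurable_const fun y hy => contract hN x r hy h ht1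
      _ = volume (ball x r) * (8 * ∫⁻ z in ball x r, N z) := by
          rw [setLIntegral_const, mul_comm]
  · have hm : Measurable fun q : E 3 × E 3 => N (q.1 + t • (q.2 - q.1)) := by
      refine hN.comp ?_
      fun_prop
    rw [lintegral_lintegral_swap hm.aemeasurable]
    calc ∫⁻ z in ball x r, ∫⁻ y in ball x r, N (y + t • (z - y))
        ≤ ∫⁻ _z in ball x r, (8 * ∫⁻ z in ball x r, N z) := by
          refine setLIntegral_mono measurable_const fun z hz => ?_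
          have e1 : ∀ y : E 3, y + t • (z - y) = z + (1 - t) • (y - z) := by
            intro y
            module
          simp only [e1]
          exact contract hN x r hz (by linarith) (by linarith)
      _ = volume (ball x r) * (8 * ∫⁻ z in ball x r, N z) := by
          rw [setLIntegral_const, mul_comm]

theorem measurable_grad (φ : E 3 → ℝ) : Measurable (fun x => ∇ φ x) := by
  unfold gradient
  exact (InnerProductSpace.toDual ℝ (E 3)).symm.continuous.measurable.comp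
    (measurable_fderiv ℝ φ)

/-- the difference along a segment -/
theorem segment {x : E 3} {r : ℝ} {φ : E 3 → ℝ} (hφ : ContDiffOn ℝ ∞ φ (ball x r)) {y z : E 3}
    (hy : y ∈ ball x r) (hz : z ∈ ball x r) :
    ‖φ y - φ z‖ₑ ≤ ENNReal.ofReal (2 * r) *
      ∫⁻ t in Ioc (0 : ℝ) 1, ‖∇ φ (y + t • (z - y))‖ₑ := by
  have hin : ∀ t ∈ Icc (0 : ℝ) 1, y + t • (z - y) ∈ ball x r := by
    intro t ht
    have h3 := (convex_ball x r) hy hz (by linarith [ht.2] : (0 : ℝ) ≤ 1 - t) ht.1 (by ring)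
    have e3 : (1 - t) • y + t • z = y + t • (z - y) := by module
    rwa [e3] at h3
  have hder : ∀ t ∈ uIcc (0 : ℝ) 1, HasDerivAt (fun t : ℝ => φ (y + t • (z - y)))
      (fderiv ℝ φ (y + t • (z - y)) (z - y)) t := by
    intro t ht
    rw [uIcc_of_le zero_le_one] at ht
    have h1 : DifferentiableAt ℝ φ (y + t • (z - y)) :=
      (hφ.contDiffAt (isOpen_ball.mem_nhds (hin t ht))).differentiableAt (by simp)
    have h2 : HasDerivAt (fun t : ℝ => y + t • (z - y)) (z - y) t := by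
      simpa using ((hasDerivAt_id t).smul_const (z - y)).const_add y
    exact h1.hasFDerivAt.comp_hasDerivAt t h2
  have hcont : ContinuousOn (fun t : ℝ => fderiv ℝ φ (y + t • (z - y)) (z - y)) (uIcc (0 : ℝ) 1) := by
    rw [uIcc_of_le zero_le_one]
    have h1 : ContinuousOn (fderiv ℝ φ) (ball x r) :=
      hφ.continuousOn_fderiv_of_isOpen isOpen_ball (by simp)
    have h2 : ContinuousOn (fun t : ℝ => fderiv ℝ φ (y + t • (z - y))) (Icc (0 : ℝ) 1) :=
      h1.comp (by fun_prop) hin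
    exact h2.clm_apply continuousOn_const
  have h3 := intervalIntegral.integral_eq_sub_of_hasDerivAt hder hcont.intervalIntegrable
  have e1 : y + (1 : ℝ) • (z - y) = z := by module
  have e0 : y + (0 : ℝ) • (z - y) = y := by module
  rw [e1, e0, intervalIntegral.integral_of_le zero_le_one] at h3
  have h4 : ‖φ y - φ z‖ₑ = ‖∫ t in Ioc (0 : ℝ) 1, fderiv ℝ φ (y + t • (z - y)) (z - y)‖ₑ := by
    rw [h3, ← enorm_neg, neg_sub]
  rw [h4]
  refine (enorm_integral_le_lintegral_enorm _).trans ?_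
  have hmm : Measurable fun t : ℝ => ‖∇ φ (y + t • (z - y))‖ₑ := by
    have h1 : Measurable fun t : ℝ => y + t • (z - y) := by fun_prop
    exact ((measurable_grad φ).comp h1).enorm
  rw [← lintegral_const_mul _ hmm]
  refine lintegral_mono fun t => ?_
  have h5 : ‖fderiv ℝ φ (y + t • (z - y)) (z - y)‖ₑ ≤
      ‖∇ φ (y + t • (z - y))‖ₑ * ‖z - y‖ₑ := by
    have e2 : fderiv ℝ φ (y + t • (z - y)) (z - y) = ⟪∇ φ (y + t • (z - y)), z - y⟫ := by
      unfold gradient
      rw [← InnerProductSpace.toDual_apply_apply, LinearIsometryEquiv.apply_symm_apply]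
    rw [e2, ← ofReal_norm, ← ofReal_norm, ← ofReal_norm,
      ← ENNReal.ofReal_mul (norm_nonneg _)]
    exact ENNReal.ofReal_le_ofReal (norm_inner_le_norm _ _)
  refine h5.trans ?_
  rw [mul_comm]
  refine mul_le_mul' ?_ le_rfl
  rw [← ofReal_norm]
  apply ENNReal.ofReal_le_ofReal
  rw [← dist_eq_norm]
  have := dist_triangle_right z y x
  rw [mem_ball] at hy hz
  linarith

/-- Jensen's inequality for the mean -/
theorem mean_le {B : Set (E 3)} (hB0 : volume B ≠ 0)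
    (hBt : volume B ≠ ⊤) {φ : E 3 → ℝ} (hint : Integrable φ (volume.restrict B)) (a : ℝ) :
    ‖a - ⨍ z in B, φ z‖ₑ ^ (5 / 4 : ℝ) * volume B ≤ ∫⁻ z in B, ‖a - φ z‖ₑ ^ (5 / 4 : ℝ) := by
  have : IsFiniteMeasure (volume.restrict B) := isFiniteMeasure_restrict.2 hBt
  have hφm : AEMeasurable φ (volume.restrict B) := hint.aestronglyMeasurable.aemeasurable
  have e1 : (volume B).toReal * (a - ⨍ z in B, φ z) = ∫ z in B, (a - φ z) := by
    rw [integral_sub (integrable_const a) hint, setIntegral_const, setAverage_eq,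
      smul_eq_mul, smul_eq_mul]
    have : (volume B).toReal ≠ 0 := ENNReal.toReal_ne_zero.2 ⟨hB0, hBt⟩
    rw [Measure.real]
    field_simp
  have e2 : volume B * ‖a - ⨍ z in B, φ z‖ₑ ≤ ∫⁻ z in B, ‖a - φ z‖ₑ := by
    have h2 : volume B * ‖a - ⨍ z in B, φ z‖ₑ = ‖(volume B).toReal * (a - ⨍ z in B, φ z)‖ₑ := by
      rw [enorm_mul, Real.enorm_eq_ofReal ENNReal.toReal_nonneg, ENNReal.ofReal_toReal hBt]
    rw [h2, e1]
    exact enorm_integral_le_lintegral_enorm _
  have h3 := (ENNReal.rpow_le_rpow e2 (by norm_num : (0 : ℝ) ≤ 5 / 4)).trans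
    (jensen (volume.restrict B) (by norm_num : (1 : ℝ) < 5 / 4) (f := fun z => ‖a - φ z‖ₑ)
      ((hφm.const_sub a).enorm))
  rw [Measure.restrict_apply_univ, ENNReal.mul_rpow_of_nonneg _ _ (by norm_num)] at h3
  have e3 : volume B ^ (5 / 4 : ℝ) = volume B ^ (5 / 4 - 1 : ℝ) * volume B := by
    nth_rw 3 [← ENNReal.rpow_one (volume B)]
    rw [← ENNReal.rpow_add _ _ hB0 hBt]
    congr 1
    norm_num
  rw [e3, mul_assoc] at h3
  have h4 : volume B ^ (5 / 4 - 1 : ℝ) ≠ 0 := by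
    rw [Ne, ENNReal.rpow_eq_zero_iff]
    push Not
    exact ⟨fun h => absurd h hB0, fun h => absurd h hBt⟩
  have h5 : volume B ^ (5 / 4 - 1 : ℝ) ≠ ⊤ := ENNReal.rpow_ne_top_of_nonneg (by norm_num) hBt
  rw [ENNReal.mul_le_mul_iff_right h4 h5] at h3
  rw [mul_comm]
  exact h3

/-- Jensen's inequality along the segments -/
theorem seg_le {x : E 3} {r : ℝ} {φ : E 3 → ℝ} (hφ : ContDiffOn ℝ ∞ φ (ball x r)) {y z : E 3}
    (hy : y ∈ ball x r) (hz : z ∈ ball x r) :
    ‖φ y - φ z‖ₑ ^ (5 / 4 : ℝ) ≤ ENNReal.ofReal (2 * r) ^ (5 / 4 : ℝ) *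
      ∫⁻ t in Ioc (0 : ℝ) 1, ‖∇ φ (y + t • (z - y))‖ₑ ^ (5 / 4 : ℝ) := by
  have hmm : Measurable fun t : ℝ => ‖∇ φ (y + t • (z - y))‖ₑ := by
    have h1 : Measurable fun t : ℝ => y + t • (z - y) := by fun_prop
    exact ((measurable_grad φ).comp h1).enorm
  refine (ENNReal.rpow_le_rpow (segment hφ hy hz) (by norm_num : (0 : ℝ) ≤ 5 / 4)).trans ?_
  rw [ENNReal.mul_rpow_of_nonneg _ _ (by norm_num)]
  refine mul_le_mul' le_rfl ?_
  have h3 := jensen (volume.restrict (Ioc (0 : ℝ) 1)) (by norm_num : (1 : ℝ) < 5 / 4)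
    (f := fun t => ‖∇ φ (y + t • (z - y))‖ₑ) hmm.aemeasurable
  rw [Measure.restrict_apply_univ, Real.volume_Ioc, sub_zero, ENNReal.ofReal_one,
    ENNReal.one_rpow, one_mul] at h3
  exact h3

theorem swap3 (μ : Measure (E 3)) [SFinite μ] {N : E 3 → ℝ≥0∞} (hNm : Measurable N) :
    ∫⁻ y, ∫⁻ z, ∫⁻ t in Ioc (0 : ℝ) 1, N (y + t • (z - y)) ∂volume ∂μ ∂μ =
      ∫⁻ t in Ioc (0 : ℝ) 1, ∫⁻ y, ∫⁻ z, N (y + t • (z - y)) ∂μ ∂μ := by
  have hm3 : Measurable fun q : (E 3 × E 3) × ℝ => N (q.1.1 + q.2 • (q.1.2 - q.1.1)) := by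
    refine hNm.comp ?_
    fun_prop
  have hm2 : ∀ t : ℝ, Measurable fun q : E 3 × E 3 => N (q.1 + t • (q.2 - q.1)) := fun t => by
    refine hNm.comp ?_
    fun_prop
  have hm4 : Measurable fun q : E 3 × E 3 =>
      ∫⁻ t in Ioc (0 : ℝ) 1, N (q.1 + t • (q.2 - q.1)) := hm3.lintegral_prod_right'
  have e1 : ∫⁻ y, ∫⁻ z, ∫⁻ t in Ioc (0 : ℝ) 1, N (y + t • (z - y)) ∂volume ∂μ ∂μ =
      ∫⁻ q, (∫⁻ t in Ioc (0 : ℝ) 1, N (q.1 + t • (q.2 - q.1))) ∂(μ.prod μ) :=
    (lintegral_prod _ hm4.aemeasurable).symm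
  have e2 : ∫⁻ q, (∫⁻ t in Ioc (0 : ℝ) 1, N (q.1 + t • (q.2 - q.1))) ∂(μ.prod μ) =
      ∫⁻ t in Ioc (0 : ℝ) 1, ∫⁻ q, N (q.1 + t • (q.2 - q.1)) ∂(μ.prod μ) :=
    lintegral_lintegral_swap hm3.aemeasurable
  rw [e1, e2]
  refine lintegral_congr fun t => ?_
  exact lintegral_prod _ (hm2 t).aemeasurable

theorem meas3 (μ : Measure (E 3)) [SFinite μ] {N : E 3 → ℝ≥0∞} (hNm : Measurable N) :
    (∀ y : E 3, Measurable fun z : E 3 => ∫⁻ t in Ioc (0 : ℝ) 1, N (y + t • (z - y))) ∧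
    Measurable fun y : E 3 => ∫⁻ z, ∫⁻ t in Ioc (0 : ℝ) 1, N (y + t • (z - y)) ∂volume ∂μ := by
  have hm3 : Measurable fun q : (E 3 × E 3) × ℝ => N (q.1.1 + q.2 • (q.1.2 - q.1.1)) := by
    refine hNm.comp ?_
    fun_prop
  have hm4 : Measurable fun q : E 3 × E 3 =>
      ∫⁻ t in Ioc (0 : ℝ) 1, N (q.1 + t • (q.2 - q.1)) := hm3.lintegral_prod_right'
  exact ⟨fun y => hm4.comp measurable_prodMk_left, hm4.lintegral_prod_right'⟩

/-- the inequality in terms of the extended norm -/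
theorem core {x : E 3} {r : ℝ} (hr : 0 < r) {φ : E 3 → ℝ} (hφ : ContDiffOn ℝ ∞ φ (ball x r))
    (hint : Integrable φ (volume.restrict (ball x r))) :
    ∫⁻ y in ball x r, ‖φ y - ⨍ z in ball x r, φ z‖ₑ ^ (5 / 4 : ℝ) ≤
      ENNReal.ofReal (2 * r) ^ (5 / 4 : ℝ) * 8 *
        ∫⁻ z in ball x r, ‖∇ φ z‖ₑ ^ (5 / 4 : ℝ) := by
  have hBm : MeasurableSet (ball x r) := measurableSet_ball
  have hB0 : volume (ball x r) ≠ 0 := (measure_ball_pos volume x hr).ne'
  have hBt : volume (ball x r) ≠ ⊤ := measure_ball_lt_top.ne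
  have hNm : Measurable fun z : E 3 => ‖∇ φ z‖ₑ ^ (5 / 4 : ℝ) :=
    (measurable_grad φ).enorm.pow_const _
  obtain ⟨hm5, hm6⟩ := meas3 (volume.restrict (ball x r)) hNm
  have hφm : AEMeasurable φ (volume.restrict (ball x r)) := hint.aestronglyMeasurable.aemeasurable
  have k1 : (∫⁻ y in ball x r, ‖φ y - ⨍ z in ball x r, φ z‖ₑ ^ (5 / 4 : ℝ)) * volume (ball x r) ≤
      ENNReal.ofReal (2 * r) ^ (5 / 4 : ℝ) * ∫⁻ y in ball x r, ∫⁻ z in ball x r,
        ∫⁻ t in Ioc (0 : ℝ) 1, ‖∇ φ (y + t • (z - y))‖ₑ ^ (5 / 4 : ℝ) := by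
    rw [← lintegral_mul_const'' _ (((hφm.sub_const _).enorm).pow_const _),
      ← lintegral_const_mul _ hm6]
    refine setLIntegral_mono' hBm fun y hy => (mean_le hB0 hBt hint (φ y)).trans ?_
    rw [← lintegral_const_mul _ (hm5 y)]
    exact setLIntegral_mono' hBm fun z hz => seg_le hφ hy hz
  have k3 : ∫⁻ t in Ioc (0 : ℝ) 1, ∫⁻ y in ball x r, ∫⁻ z in ball x r,
      ‖∇ φ (y + t • (z - y))‖ₑ ^ (5 / 4 : ℝ) ≤
      volume (ball x r) * (8 * ∫⁻ z in ball x r, ‖∇ φ z‖ₑ ^ (5 / 4 : ℝ)) := by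
    refine (setLIntegral_mono measurable_const fun t ht =>
      double hNm x r ht.1.le ht.2).trans (le_of_eq ?_)
    rw [setLIntegral_const, Real.volume_Ioc, sub_zero, ENNReal.ofReal_one, mul_one]
  rw [swap3 (volume.restrict (ball x r)) hNm] at k1
  have key := k1.trans (mul_le_mul' le_rfl k3)
  rw [← ENNReal.mul_le_mul_iff_left hB0 hBt]
  refine key.trans (le_of_eq ?_)
  ring

end POI

open POI

theorem t_POI : S_POI := by
  refine ⟨8 * 2 ^ (5 / 4 : ℝ), by positivity, fun x r hr φ hφ hM => ?_⟩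
  obtain ⟨M, hM⟩ := hM
  have conv1 : ∀ a : ℝ, ENNReal.ofReal (|a| ^ (5 / 4 : ℝ)) = ‖a‖ₑ ^ (5 / 4 : ℝ) := by
    intro a
    rw [Real.enorm_eq_ofReal_abs, ENNReal.ofReal_rpow_of_nonneg (abs_nonneg a) (by norm_num)]
  have conv2 : ∀ a : E 3, ENNReal.ofReal (‖a‖ ^ (5 / 4 : ℝ)) = ‖a‖ₑ ^ (5 / 4 : ℝ) := by
    intro a
    rw [← ofReal_norm, ENNReal.ofReal_rpow_of_nonneg (norm_nonneg a) (by norm_num)]
  simp only [conv1, conv2]
  have hint : Integrable φ (volume.restrict (ball x r)) := by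
    have : IsFiniteMeasure ((volume : Measure (E 3)).restrict (ball x r)) :=
      isFiniteMeasure_restrict.2 measure_ball_lt_top.ne
    refine Integrable.of_bound (hφ.continuousOn.aestronglyMeasurable measurableSet_ball) M ?_
    rw [ae_restrict_iff' measurableSet_ball]
    exact Eventually.of_forall fun z hz => hM z hz
  refine (core hr hφ hint).trans (le_of_eq ?_)
  congr 1
  rw [ENNReal.ofReal_rpow_of_nonneg (by positivity) (by norm_num),
    Real.mul_rpow (by norm_num) hr.le]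
  have e8 : (8 : ℝ≥0∞) = ENNReal.ofReal 8 := by norm_num
  rw [e8, ← ENNReal.ofReal_mul (by positivity)]
  congr 1
  ring

end Pool.Agent.Q64.LP
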