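import Pool.Agent.Q64.LP.Stm

/-! Lemma PV of project LP (helper195): the vector inequality for `|h|^(p-2) h`. -/

set_option autoImplicit false

open MeasureTheory Filter Topology Set Metric
open scoped ENNReal NNReal RealInnerProductSpace ContDiff Gradient

namespace Pool.Agent.Q64.LP.PV

theorem norm_f {n : ℕ} {p : ℝ} (hp : 1 < p) (h : E n) : ‖‖h‖ ^ (p - 2) • h‖ = ‖h‖ ^ (p - 1) := by
  rw [norm_smul, Real.norm_of_nonneg (Real.rpow_nonneg (norm_nonneg _) _)]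
  by_cases h0 : h = 0
  · subst h0
    rw [norm_zero, mul_zero, Real.zero_rpow (by linarith)]
  · have h1 : 0 < ‖h‖ := norm_pos_iff.2 h0
    have h2 : p - 1 = (p - 2) + 1 := by ring
    rw [h2, Real.rpow_add_one h1.ne']

theorem cont {n : ℕ} {p : ℝ} (hp : 1 < p) : Continuous (fun h : E n => ‖h‖ ^ (p - 2) • h) := by
  rw [continuous_iff_continuousAt]
  intro h0
  by_cases h : h0 = 0
  · subst h
    have h1 : ‖(0 : E n)‖ ^ (p - 2) • (0 : E n) = 0 := smul_zero _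
    change Tendsto (fun h : E n => ‖h‖ ^ (p - 2) • h) (𝓝 0) (𝓝 (‖(0 : E n)‖ ^ (p - 2) • (0 : E n)))
    rw [h1, tendsto_zero_iff_norm_tendsto_zero]
    have h2 : (fun h : E n => ‖‖h‖ ^ (p - 2) • h‖) = fun h : E n => ‖h‖ ^ (p - 1) := by
      funext h
      exact norm_f hp h
    rw [h2]
    have h3 : Continuous (fun h : E n => ‖h‖ ^ (p - 1)) :=
      continuous_norm.rpow_const fun _ => Or.inr (by linarith)
    have h4 := h3.tendsto 0
    rw [norm_zero, Real.zero_rpow (by linarith)] at h4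
    exact h4
  · have h1 : ContinuousAt (fun h : E n => ‖h‖ ^ (p - 2)) h0 :=
      (continuous_norm.continuousAt).rpow_const (Or.inl (norm_ne_zero_iff.2 h))
    have h2 : ContinuousAt (fun h : E n => h) h0 := continuousAt_id
    exact h1.smul h2

theorem mono {n : ℕ} {p : ℝ} (hp : 1 < p) (h₁ h₂ : E n) (hne : h₁ ≠ h₂) :
    0 < ⟪‖h₁‖ ^ (p - 2) • h₁ - ‖h₂‖ ^ (p - 2) • h₂, h₁ - h₂⟫ := by
  have hexp : ⟪‖h₁‖ ^ (p - 2) • h₁ - ‖h₂‖ ^ (p - 2) • h₂, h₁ - h₂⟫ =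
      ‖h₁‖ ^ (p - 2) * ‖h₁‖ ^ 2 + ‖h₂‖ ^ (p - 2) * ‖h₂‖ ^ 2 -
        (‖h₁‖ ^ (p - 2) + ‖h₂‖ ^ (p - 2)) * ⟪h₁, h₂⟫ := by
    rw [inner_sub_left, inner_sub_right, inner_sub_right, real_inner_smul_left,
      real_inner_smul_left, real_inner_smul_left, real_inner_smul_left,
      real_inner_self_eq_norm_sq, real_inner_self_eq_norm_sq, real_inner_comm h₁ h₂]
    ring
  rw [hexp]
  have hsub : 0 < ‖h₁‖ ^ 2 - 2 * ⟪h₁, h₂⟫ + ‖h₂‖ ^ 2 := by
    rw [← norm_sub_sq_real]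
    exact pow_pos (norm_pos_iff.2 (sub_ne_zero.2 hne)) 2
  have hcs := real_inner_le_norm h₁ h₂
  by_cases h1 : h₁ = 0
  · subst h1
    rw [norm_zero, inner_zero_left]
    have h2 : 0 < ‖h₂‖ := norm_pos_iff.2 fun h => hne h.symm
    have h3 := Real.rpow_pos_of_pos h2 (p - 2)
    have h4 : 0 < ‖h₂‖ ^ (p - 2) * ‖h₂‖ ^ 2 := by positivity
    nlinarith
  by_cases h2 : h₂ = 0
  · subst h2
    rw [norm_zero, inner_zero_right]
    have h2 : 0 < ‖h₁‖ := norm_pos_iff.2 h1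
    have h3 := Real.rpow_pos_of_pos h2 (p - 2)
    have h4 : 0 < ‖h₁‖ ^ (p - 2) * ‖h₁‖ ^ 2 := by positivity
    nlinarith
  have ha : 0 < ‖h₁‖ := norm_pos_iff.2 h1
  have hb : 0 < ‖h₂‖ := norm_pos_iff.2 h2
  have hA := Real.rpow_pos_of_pos ha (p - 2)
  have hB := Real.rpow_pos_of_pos hb (p - 2)
  have eA : ‖h₁‖ ^ (p - 1) = ‖h₁‖ ^ (p - 2) * ‖h₁‖ := by
    rw [← Real.rpow_add_one ha.ne']; congr 1; ring
  have eB : ‖h₂‖ ^ (p - 1) = ‖h₂‖ ^ (p - 2) * ‖h₂‖ := by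
    rw [← Real.rpow_add_one hb.ne']; congr 1; ring
  set a := ‖h₁‖
  set b := ‖h₂‖
  set A := a ^ (p - 2)
  set B := b ^ (p - 2)
  set c := ⟪h₁, h₂⟫
  have key : A * a ^ 2 + B * b ^ 2 - (A + B) * c = (A * a - B * b) * (a - b) + (A + B) * (a * b - c) := by
    ring
  rw [key, ← eA, ← eB]
  rcases lt_trichotomy a b with hab | hab | hab
  · have h3 : a ^ (p - 1) < b ^ (p - 1) := Real.rpow_lt_rpow ha.le hab (by linarith)
    have h4 : 0 < (a ^ (p - 1) - b ^ (p - 1)) * (a - b) := mul_pos_of_neg_of_neg (by linarith) (by linarith)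
    have h5 : 0 ≤ (A + B) * (a * b - c) := mul_nonneg (by linarith) (by linarith)
    linarith
  · have h4 : c < a * b := by
      rw [← hab] at hsub ⊢
      nlinarith
    have h5 : 0 < (A + B) * (a * b - c) := mul_pos (by linarith) (by linarith)
    rw [hab] at h5 ⊢
    rw [sub_self, zero_mul, zero_add]
    exact h5
  · have h3 : b ^ (p - 1) < a ^ (p - 1) := Real.rpow_lt_rpow hb.le hab (by linarith)
    have h4 : 0 < (a ^ (p - 1) - b ^ (p - 1)) * (a - b) := mul_pos (by linarith) (by linarith)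
    have h5 : 0 ≤ (A + B) * (a * b - c) := mul_nonneg (by linarith) (by linarith)
    linarith

end Pool.Agent.Q64.LP.PV

namespace Pool.Agent.Q64.LP

theorem t_PV : S_PV := fun _ _ hp => ⟨PV.cont hp, fun h₁ h₂ hne => PV.mono hp h₁ h₂ hne⟩

end Pool.Agent.Q64.LP
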