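import Pool.Agent.Q64.LP.Stm

/-! Lemma SOB of project LP (helper195): the Sobolev inequality on balls of the space. -/

set_option autoImplicit false

open MeasureTheory Filter Topology Set Metric
open scoped ENNReal NNReal RealInnerProductSpace ContDiff Gradient

namespace Pool.Agent.Q64.LP.SOB

theorem norm_grad (φ : E 3 → ℝ) (y : E 3) : ‖∇ φ y‖ = ‖fderiv ℝ φ y‖ := by
  unfold gradient
  exact LinearIsometryEquiv.norm_map _ _

theorem enormpow {F : Type*} [NormedAddCommGroup F] (a : F) {q : ℝ} (hq : 0 ≤ q) :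
    ‖a‖ₑ ^ q = ENNReal.ofReal (‖a‖ ^ q) := by
  rw [← ofReal_norm, ENNReal.ofReal_rpow_of_nonneg (norm_nonneg _) hq]

theorem whole {D : Set (E 3)} (hD : MeasurableSet D) {g : E 3 → ℝ≥0∞} (h : ∀ y, y ∉ D → g y = 0) :
    ∫⁻ y in D, g y = ∫⁻ y, g y := by
  rw [← lintegral_indicator hD]
  congr 1
  funext y
  by_cases hy : y ∈ D
  · rw [indicator_of_mem hy]
  · rw [indicator_of_notMem hy, h y hy]

theorem vol (x : E 3) {r : ℝ} (hr : 0 < r) :
    volume (ball x r) = ENNReal.ofReal (r ^ 3 * (volume (ball (0 : E 3) 1)).toReal) := by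
  rw [Measure.addHaar_ball volume x hr.le, finrank_euclideanSpace_fin, ENNReal.ofReal_mul (by positivity),
    ENNReal.ofReal_toReal measure_ball_lt_top.ne]

theorem fin {I J V : ℝ≥0∞} {C₀ : ℝ≥0} {k : ℝ} (hV0 : V ≠ 0) (hV : V ≠ ⊤)
    (hk : V ^ (1 / 3 : ℝ) = ENNReal.ofReal k)
    (h : I ^ (7 / 15 : ℝ) ≤ C₀ * J ^ (4 / 5 : ℝ)) :
    (I / V) ^ (7 / 15 : ℝ) ≤ ENNReal.ofReal (C₀ * k) * (J / V) ^ (4 / 5 : ℝ) := by
  rw [ENNReal.div_rpow_of_nonneg _ _ (by norm_num), ENNReal.div_rpow_of_nonneg _ _ (by norm_num),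
    ENNReal.ofReal_mul NNReal.zero_le_coe, ENNReal.ofReal_coe_nnreal, ← hk]
  have e : V ^ (4 / 5 : ℝ) = V ^ (7 / 15 : ℝ) * V ^ (1 / 3 : ℝ) := by
    rw [← ENNReal.rpow_add _ _ hV0 hV]
    norm_num
  have hV3 : V ^ (1 / 3 : ℝ) ≠ 0 := by
    intro h0
    rw [ENNReal.rpow_eq_zero_iff] at h0
    rcases h0 with h0 | h0
    · exact hV0 h0.1
    · exact hV h0.1
  have hV3' : V ^ (1 / 3 : ℝ) ≠ ⊤ := ENNReal.rpow_ne_top_of_nonneg (by norm_num) hV
  have e2 : V ^ (1 / 3 : ℝ) * (J ^ (4 / 5 : ℝ) / V ^ (4 / 5 : ℝ)) = J ^ (4 / 5 : ℝ) / V ^ (7 / 15 : ℝ) := by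
    rw [e, mul_comm (V ^ (7 / 15 : ℝ)) (V ^ (1 / 3 : ℝ)), ← mul_div_assoc]
    exact ENNReal.mul_div_mul_left _ _ hV3 hV3'
  rw [mul_assoc, e2, ← mul_div_assoc]
  exact ENNReal.div_le_div_right h _

end Pool.Agent.Q64.LP.SOB

namespace Pool.Agent.Q64.LP

open SOB in
theorem t_SOB : S_SOB := by
  set c : ℝ := (volume (ball (0 : E 3) 1)).toReal with hc
  have hc0 : 0 < c := ENNReal.toReal_pos (measure_ball_pos volume 0 one_pos).ne' measure_ball_lt_top.ne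
  set C₀ : ℝ≥0 := SNormLESNormFDerivOfEqConst ℝ (volume : Measure (E 3)) ((5 / 4 : ℝ≥0) : ℝ) with hC
  refine ⟨C₀ * c ^ (1 / 3 : ℝ) + 1, by positivity, fun x r hr φ hφ => ?_⟩
  obtain ⟨h1, h2, h3⟩ := hφ
  have key := eLpNorm_le_eLpNorm_fderiv_of_eq (volume : Measure (E 3)) (F := ℝ) (u := φ)
    (h1.of_le (by exact_mod_cast le_top)) h2 (p := 5 / 4) (p' := 15 / 7)
    (by rw [one_le_div (by norm_num)]; norm_num) (by rw [finrank_euclideanSpace_fin]; norm_num)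
    (by rw [finrank_euclideanSpace_fin]; push_cast; norm_num)
  rw [eLpNorm_eq_lintegral_rpow_enorm_toReal (by simp) ENNReal.coe_ne_top,
    eLpNorm_eq_lintegral_rpow_enorm_toReal (by simp) ENNReal.coe_ne_top] at key
  have e1 : ((15 / 7 : ℝ≥0) : ℝ≥0∞).toReal = 15 / 7 := by
    rw [ENNReal.coe_toReal]; push_cast; rfl
  have e2 : ((5 / 4 : ℝ≥0) : ℝ≥0∞).toReal = 5 / 4 := by
    rw [ENNReal.coe_toReal]; push_cast; rfl
  rw [e1, e2, ← hC] at key
  have i1 : ∫⁻ y in ball x r, ENNReal.ofReal (|φ y| ^ (15 / 7 : ℝ)) = ∫⁻ y, ‖φ y‖ₑ ^ (15 / 7 : ℝ) := by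
    rw [whole measurableSet_ball]
    · refine lintegral_congr fun y => ?_
      rw [enormpow _ (by norm_num), Real.norm_eq_abs]
    · intro y hy
      rw [image_eq_zero_of_notMem_tsupport fun h => hy (h3 h), abs_zero,
        Real.zero_rpow (by norm_num), ENNReal.ofReal_zero]
  have i2 : ∫⁻ y in ball x r, ENNReal.ofReal (‖∇ φ y‖ ^ (5 / 4 : ℝ)) =
      ∫⁻ y, ‖fderiv ℝ φ y‖ₑ ^ (5 / 4 : ℝ) := by
    rw [whole measurableSet_ball]
    · refine lintegral_congr fun y => ?_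
      rw [enormpow _ (by norm_num), norm_grad]
    · intro y hy
      have : fderiv ℝ φ y = 0 := image_eq_zero_of_notMem_tsupport
        fun h => hy (h3 (tsupport_fderiv_subset ℝ h))
      rw [norm_grad, this, norm_zero, Real.zero_rpow (by norm_num), ENNReal.ofReal_zero]
  have a1 : (12 / 7 * (5 / 4) : ℝ) = 15 / 7 := by norm_num
  have a2 : (1 / (15 / 7) : ℝ) = 7 / 15 := by norm_num
  have a3 : (1 / (5 / 4) : ℝ) = 4 / 5 := by norm_num
  rw [a1, a2, a3, i1, i2]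
  rw [a2, a3] at key
  have hV0 : volume (ball x r) ≠ 0 := (measure_ball_pos volume x hr).ne'
  have hV : volume (ball x r) ≠ ⊤ := measure_ball_lt_top.ne
  have hk : volume (ball x r) ^ (1 / 3 : ℝ) = ENNReal.ofReal (r * c ^ (1 / 3 : ℝ)) := by
    rw [vol x hr, ENNReal.ofReal_rpow_of_nonneg (by positivity) (by norm_num), ← hc,
      Real.mul_rpow (by positivity) hc0.le]
    congr 2
    rw [← Real.rpow_natCast r 3, ← Real.rpow_mul hr.le]
    norm_num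
  refine (fin hV0 hV hk key).trans ?_
  refine mul_le_mul_left ?_ _
  refine ENNReal.ofReal_le_ofReal ?_
  have : (C₀ : ℝ) * (r * c ^ (1 / 3 : ℝ)) = (C₀ * c ^ (1 / 3 : ℝ)) * r := by ring
  rw [this]
  exact mul_le_mul_of_nonneg_right (by linarith) hr.le

end Pool.Agent.Q64.LP
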