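import Pool.Agent.Q64.LP.Stm

/-! Lemma STR of project LP (helper195): a structure map through given fields. -/

set_option autoImplicit false

open MeasureTheory Filter Topology Set Metric
open scoped ENNReal NNReal RealInnerProductSpace ContDiff Gradient

namespace Pool.Agent.Q64.LP.STR

variable {n : ℕ}

/-- the shear -/
noncomputable def L (e z ξ : E n) : E n := ξ + ⟪z, ξ⟫ • e

/-- the map `h ↦ ‖h‖^(p-2) h` -/
noncomputable def f (p : ℝ) (h : E n) : E n := ‖h‖ ^ (p - 2) • h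

/-- the structure map for the parameters `e, z, lam` -/
noncomputable def B (p : ℝ) (e z : E n) (lam : ℝ) (ξ : E n) : E n :=
  lam • L z e (f p (L e z ξ))

theorem L_sub (e z ξ η : E n) : L e z (ξ - η) = L e z ξ - L e z η := by
  unfold L
  rw [inner_sub_right, sub_smul]
  abel

theorem L_smul (e z ξ : E n) (t : ℝ) : L e z (t • ξ) = t • L e z ξ := by
  unfold L
  rw [real_inner_smul_right, smul_add, smul_smul]

theorem adj (e z ξ η : E n) : ⟪L z e η, ξ⟫ = ⟪η, L e z ξ⟫ := by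
  unfold L
  rw [inner_add_left, inner_add_right, real_inner_smul_left, real_inner_smul_right,
    real_inner_comm η e]
  ring

theorem L_cont (e z : E n) : Continuous (L e z) := by
  have h1 : Continuous fun ξ : E n => ⟪z, ξ⟫ := continuous_const.inner continuous_id
  have h2 : Continuous fun ξ : E n => ⟪z, ξ⟫ • e := h1.smul continuous_const
  exact continuous_id.add h2

theorem f_norm {p : ℝ} (hp : 1 < p) (h : E n) : ‖f p h‖ = ‖h‖ ^ (p - 1) := by
  unfold f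
  rw [norm_smul, Real.norm_of_nonneg (Real.rpow_nonneg (norm_nonneg _) _)]
  by_cases h0 : h = 0
  · subst h0
    rw [norm_zero, mul_zero, Real.zero_rpow (by linarith)]
  · have h1 : 0 < ‖h‖ := norm_pos_iff.2 h0
    have h2 : p - 1 = (p - 2) + 1 := by ring
    rw [h2, Real.rpow_add_one h1.ne']

theorem f_inner {p : ℝ} (hp : 1 < p) (h : E n) : ⟪f p h, h⟫ = ‖h‖ ^ p := by
  unfold f
  rw [real_inner_smul_left, real_inner_self_eq_norm_sq]
  by_cases h0 : h = 0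
  · subst h0
    rw [norm_zero, Real.zero_rpow (by linarith : p ≠ 0)]
    simp
  · have h1 : 0 < ‖h‖ := norm_pos_iff.2 h0
    rw [← Real.rpow_natCast ‖h‖ 2, ← Real.rpow_add h1]
    congr 1
    push_cast
    ring

theorem f_smul {p : ℝ} (t : ℝ) (h : E n) : f p (t • h) = (t * |t| ^ (p - 2)) • f p h := by
  unfold f
  rw [norm_smul, Real.norm_eq_abs, Real.mul_rpow (abs_nonneg _) (norm_nonneg _), smul_smul, smul_smul]
  congr 1
  ring

section Est

variable {e z : E n} {C : ℝ} (hze : ⟪z, e⟫ = 0) (he : ‖e‖ ≤ 1) (hz : ‖z‖ ≤ C)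

include he hz in
theorem L_le (ξ : E n) : ‖L e z ξ‖ ≤ (1 + C) * ‖ξ‖ := by
  unfold L
  have h1 : ‖⟪z, ξ⟫ • e‖ ≤ C * ‖ξ‖ := by
    rw [norm_smul, Real.norm_eq_abs]
    have h2 := abs_real_inner_le_norm z ξ
    have h3 : ‖z‖ * ‖ξ‖ ≤ C * ‖ξ‖ := mul_le_mul_of_nonneg_right hz (norm_nonneg _)
    have h4 : |⟪z, ξ⟫| * ‖e‖ ≤ |⟪z, ξ⟫| * 1 := mul_le_mul_of_nonneg_left he (abs_nonneg _)
    linarith
  have h2 := norm_add_le ξ (⟪z, ξ⟫ • e)
  linarith

include he hz in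
theorem L_le' (η : E n) : ‖L z e η‖ ≤ (1 + C) * ‖η‖ := by
  unfold L
  have h1 : ‖⟪e, η⟫ • z‖ ≤ C * ‖η‖ := by
    rw [norm_smul, Real.norm_eq_abs]
    have h2 := abs_real_inner_le_norm e η
    have h3 : ‖e‖ * ‖η‖ ≤ 1 * ‖η‖ := mul_le_mul_of_nonneg_right he (norm_nonneg _)
    have h4 : |⟪e, η⟫| * ‖z‖ ≤ ‖η‖ * C :=
      mul_le_mul (by linarith) hz (norm_nonneg _) (norm_nonneg _)
    linarith
  have h2 := norm_add_le η (⟪e, η⟫ • z)
  linarith

include hze in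
theorem inv (ξ : E n) : ξ = L e z ξ - ⟪z, L e z ξ⟫ • e := by
  have h1 : ⟪z, L e z ξ⟫ = ⟪z, ξ⟫ := by
    unfold L
    rw [inner_add_right, real_inner_smul_right, hze]
    ring
  rw [h1]
  unfold L
  abel

include hze he hz in
theorem le_L (ξ : E n) : ‖ξ‖ ≤ (1 + C) * ‖L e z ξ‖ := by
  have h0 := inv hze ξ
  have h1 : ‖⟪z, L e z ξ⟫ • e‖ ≤ C * ‖L e z ξ‖ := by
    rw [norm_smul, Real.norm_eq_abs]
    have h2 := abs_real_inner_le_norm z (L e z ξ)
    have h3 : ‖z‖ * ‖L e z ξ‖ ≤ C * ‖L e z ξ‖ := mul_le_mul_of_nonneg_right hz (norm_nonneg _)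
    have h4 : |⟪z, L e z ξ⟫| * ‖e‖ ≤ |⟪z, L e z ξ⟫| * 1 := mul_le_mul_of_nonneg_left he (abs_nonneg _)
    linarith
  have h2 := norm_sub_le (L e z ξ) (⟪z, L e z ξ⟫ • e)
  rw [← h0] at h2
  linarith

include hze in
theorem L_inj {ξ η : E n} (h : L e z ξ = L e z η) : ξ = η := by
  rw [inv hze ξ, inv hze η, h]

theorem B_inner {p : ℝ} (hp : 1 < p) (lam : ℝ) (ξ : E n) :
    ⟪B p e z lam ξ, ξ⟫ = lam * ‖L e z ξ‖ ^ p := by
  unfold B
  rw [real_inner_smul_left, adj, f_inner hp]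

include hze he hz in
theorem B_low {p : ℝ} (hp : 1 < p) {lam a : ℝ} (ha : 0 < a) (hlam : a ≤ lam) (ξ : E n) :
    a * (1 + C) ^ (-p) * ‖ξ‖ ^ p ≤ ⟪B p e z lam ξ, ξ⟫ := by
  rw [B_inner hp]
  have hC : 0 ≤ C := (norm_nonneg z).trans hz
  have h1 := Real.rpow_le_rpow (norm_nonneg ξ) (le_L hze he hz ξ) (by linarith : 0 ≤ p)
  rw [Real.mul_rpow (by linarith) (norm_nonneg _)] at h1
  have h2 : (0 : ℝ) < (1 + C) ^ p := Real.rpow_pos_of_pos (by linarith) _
  rw [Real.rpow_neg (by linarith)]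
  have h3 : ((1 + C) ^ p)⁻¹ * ‖ξ‖ ^ p ≤ ‖L e z ξ‖ ^ p := by
    rw [inv_mul_le_iff₀ h2]
    exact h1
  have h4 : 0 ≤ ‖L e z ξ‖ ^ p := Real.rpow_nonneg (norm_nonneg _) _
  calc a * ((1 + C) ^ p)⁻¹ * ‖ξ‖ ^ p = a * (((1 + C) ^ p)⁻¹ * ‖ξ‖ ^ p) := by ring
    _ ≤ a * ‖L e z ξ‖ ^ p := mul_le_mul_of_nonneg_left h3 ha.le
    _ ≤ lam * ‖L e z ξ‖ ^ p := mul_le_mul_of_nonneg_right hlam h4

include he hz in
theorem B_up {p : ℝ} (hp : 1 < p) {lam b : ℝ} (h0 : 0 ≤ lam) (hlam : lam ≤ b) (ξ : E n) :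
    ‖B p e z lam ξ‖ ≤ b * (1 + C) ^ p * ‖ξ‖ ^ (p - 1) := by
  have hC : 0 ≤ C := (norm_nonneg z).trans hz
  unfold B
  rw [norm_smul, Real.norm_of_nonneg h0]
  have h1 := L_le' he hz (f p (L e z ξ))
  rw [f_norm hp] at h1
  have h2 := Real.rpow_le_rpow (norm_nonneg _) (L_le he hz ξ) (by linarith : 0 ≤ p - 1)
  rw [Real.mul_rpow (by linarith) (norm_nonneg _)] at h2
  have h3 : (1 + C) ^ p = (1 + C) * (1 + C) ^ (p - 1) := by
    rw [mul_comm, ← Real.rpow_add_one (by linarith)]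
    congr 1
    ring
  have h4 : ‖L z e (f p (L e z ξ))‖ ≤ (1 + C) ^ p * ‖ξ‖ ^ (p - 1) := by
    rw [h3]
    calc ‖L z e (f p (L e z ξ))‖ ≤ (1 + C) * ‖L e z ξ‖ ^ (p - 1) := h1
      _ ≤ (1 + C) * ((1 + C) ^ (p - 1) * ‖ξ‖ ^ (p - 1)) :=
        mul_le_mul_of_nonneg_left h2 (by linarith)
      _ = (1 + C) * (1 + C) ^ (p - 1) * ‖ξ‖ ^ (p - 1) := by ring
  calc lam * ‖L z e (f p (L e z ξ))‖ ≤ b * ((1 + C) ^ p * ‖ξ‖ ^ (p - 1)) :=
        mul_le_mul hlam h4 (norm_nonneg _) (h0.trans hlam)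
    _ = b * (1 + C) ^ p * ‖ξ‖ ^ (p - 1) := by ring

include hze in
theorem B_mono {p : ℝ} (hp : 1 < p) (pv : S_PV) {lam : ℝ} (hlam : 0 < lam) {ξ η : E n} (hne : ξ ≠ η) :
    0 < ⟪B p e z lam ξ - B p e z lam η, ξ - η⟫ := by
  unfold B
  rw [← smul_sub, ← L_sub, real_inner_smul_left, adj, L_sub]
  refine mul_pos hlam ?_
  exact (pv n p hp).2 _ _ fun h => hne (L_inj hze h)

theorem B_cont {p : ℝ} (hp : 1 < p) (pv : S_PV) (lam : ℝ) : Continuous (B p e z lam) := by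
  unfold B
  have h1 : Continuous (f (n := n) p) := (pv n p hp).1
  exact ((L_cont z e).comp (h1.comp (L_cont e z))).const_smul lam

theorem B_smul {p : ℝ} (lam t : ℝ) (ξ : E n) :
    B p e z lam (t • ξ) = (t * |t| ^ (p - 2)) • B p e z lam ξ := by
  unfold B
  rw [L_smul, f_smul, L_smul, smul_comm]

end Est

section Main

variable (p : ℝ) (Ω : Set (E n)) (G F : E n → E n)

open Classical in
/-- the direction -/
noncomputable def ee (x : E n) : E n := if x ∈ Ω ∩ {x | G x ≠ 0} then ‖G x‖⁻¹ • G x else 0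

open Classical in
/-- the shear vector -/
noncomputable def zz (x : E n) : E n :=
  if x ∈ Ω ∩ {x | G x ≠ 0} then ‖G x‖⁻¹ • ((⟪F x, G x⟫ / ‖G x‖ ^ 2)⁻¹ • F x - G x) else 0

open Classical in
/-- the factor -/
noncomputable def ll (x : E n) : ℝ :=
  if x ∈ Ω ∩ {x | G x ≠ 0} then ⟪F x, G x⟫ / ‖G x‖ ^ p else 1

/-- the structure map -/
noncomputable def A (x ξ : E n) : E n := B p (ee Ω G x) (zz Ω G F x) (ll p Ω G F x) ξ

variable {p Ω G F}

theorem meas_A (hΩ : MeasurableSet Ω) (hG : Measurable G) (hF : Measurable F) (ξ : E n) :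
    Measurable fun x => A p Ω G F x ξ := by
  have hS : MeasurableSet (Ω ∩ {x | G x ≠ 0}) :=
    hΩ.inter (hG (measurableSet_singleton 0).compl)
  have hn : Measurable fun x => ‖G x‖ := hG.norm
  have hi : Measurable fun x => ⟪F x, G x⟫ := hF.inner hG
  have h1 : Measurable (ee Ω G) := Measurable.ite hS (hn.inv.smul hG) measurable_const
  have h2 : Measurable (zz Ω G F) :=
    Measurable.ite hS (hn.inv.smul (((hi.div (hn.pow_const 2)).inv.smul hF).sub hG)) measurable_const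
  have h3 : Measurable (ll p Ω G F) := Measurable.ite hS (hi.div (hn.pow_const p)) measurable_const
  have h4 : Measurable fun x => L (ee Ω G x) (zz Ω G F x) ξ := by
    have h7 : Measurable fun x => ⟪zz Ω G F x, ξ⟫ := h2.inner measurable_const
    have h8 : Measurable fun x => ⟪zz Ω G F x, ξ⟫ • ee Ω G x := h7.smul h1
    exact measurable_const.add h8
  have h5 : Measurable fun x => f p (L (ee Ω G x) (zz Ω G F x) ξ) := by
    unfold f
    exact (h4.norm.pow_const (p - 2)).smul h4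
  have h6 : Measurable fun x => L (zz Ω G F x) (ee Ω G x) (f p (L (ee Ω G x) (zz Ω G F x) ξ)) := by
    have h7 : Measurable fun x => ⟪ee Ω G x, f p (L (ee Ω G x) (zz Ω G F x) ξ)⟫ := h1.inner h5
    have h8 : Measurable fun x => ⟪ee Ω G x, f p (L (ee Ω G x) (zz Ω G F x) ξ)⟫ • zz Ω G F x :=
      h7.smul h2
    exact h5.add h8
  exact h3.smul h6

variable {α β : ℝ} (hp : 1 < p) (hα : 0 < α)
  (h : ∀ x ∈ Ω, α * ‖G x‖ ^ p ≤ ⟪F x, G x⟫ ∧ ‖F x‖ ≤ β * ‖G x‖ ^ (p - 1))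

include hα h

theorem params (x : E n) : ⟪zz Ω G F x, ee Ω G x⟫ = 0 ∧ ‖ee Ω G x‖ ≤ 1 ∧
    ‖zz Ω G F x‖ ≤ |β| / α + 1 ∧ min α 1 ≤ ll p Ω G F x ∧ ll p Ω G F x ≤ max β 1 := by
  unfold zz ee ll
  by_cases hx : x ∈ Ω ∩ {x | G x ≠ 0}
  · rw [if_pos hx, if_pos hx, if_pos hx]
    obtain ⟨h1, h2⟩ := h x hx.1
    have hg : 0 < ‖G x‖ := norm_pos_iff.2 hx.2
    set g := ‖G x‖ with hgdef
    have hgp : 0 < g ^ p := Real.rpow_pos_of_pos hg _
    have hi : 0 < ⟪F x, G x⟫ := (mul_pos hα hgp).trans_le h1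
    have hgp1 : 0 < g ^ (p - 1) := Real.rpow_pos_of_pos hg _
    have e1 : g ^ p = g ^ (p - 1) * g := by
      rw [← Real.rpow_add_one hg.ne']; congr 1; ring
    have hcs := real_inner_le_norm (F x) (G x)
    rw [← hgdef] at hcs
    have hup : ⟪F x, G x⟫ ≤ β * g ^ p := by
      rw [e1]
      have := mul_le_mul_of_nonneg_right h2 hg.le
      linarith
    have hβ : 0 < β := by
      by_contra hcon
      have : β * g ^ p ≤ 0 := mul_nonpos_of_nonpos_of_nonneg (by linarith) hgp.le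
      linarith
    have hσ : (0 : ℝ) < ⟪F x, G x⟫ / g ^ 2 := by positivity
    have hzG : ⟪(⟪F x, G x⟫ / g ^ 2)⁻¹ • F x - G x, G x⟫ = 0 := by
      rw [inner_sub_left, real_inner_smul_left, real_inner_self_eq_norm_sq, ← hgdef]
      field_simp
      ring
    refine ⟨?_, ?_, ?_, ?_, ?_⟩
    · rw [real_inner_smul_left, real_inner_smul_right, hzG]
      ring
    · rw [norm_smul, norm_inv, norm_norm, ← hgdef, inv_mul_cancel₀ hg.ne']
    · rw [norm_smul, norm_inv, norm_norm, ← hgdef]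
      have h3 := norm_sub_le ((⟪F x, G x⟫ / g ^ 2)⁻¹ • F x) (G x)
      rw [norm_smul, Real.norm_of_nonneg (inv_pos.2 hσ).le, ← hgdef] at h3
      have h4 : (⟪F x, G x⟫ / g ^ 2)⁻¹ * ‖F x‖ ≤ β / α * g := by
        rw [inv_div, div_mul_eq_mul_div, div_le_iff₀ hi]
        have h5 : g ^ 2 * ‖F x‖ ≤ g ^ 2 * (β * g ^ (p - 1)) := mul_le_mul_of_nonneg_left h2 (by positivity)
        have h6 : β / α * g * (α * g ^ p) ≤ β / α * g * ⟪F x, G x⟫ :=
          mul_le_mul_of_nonneg_left h1 (by positivity)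
        have h7 : β / α * g * (α * g ^ p) = g ^ 2 * (β * g ^ (p - 1)) := by
          rw [e1]
          field_simp
        linarith
      rw [abs_of_pos hβ, inv_mul_le_iff₀ hg]
      have h5 : g * (β / α + 1) = β / α * g + g := by ring
      rw [h5]
      linarith
    · refine (min_le_left _ _).trans ?_
      rw [le_div_iff₀ hgp]
      exact h1
    · refine le_trans ?_ (le_max_left _ _)
      rw [div_le_iff₀ hgp]
      exact hup
  · rw [if_neg hx, if_neg hx, if_neg hx]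
    refine ⟨by simp, by simp, ?_, min_le_right _ _, le_max_right _ _⟩
    rw [norm_zero]
    positivity

include hp in
theorem A_eq (x : E n) (hx : x ∈ Ω) : A p Ω G F x (G x) = F x := by
  obtain ⟨h1, h2⟩ := h x hx
  by_cases hg0 : G x = 0
  · rw [hg0, norm_zero, Real.zero_rpow (by linarith), mul_zero] at h2
    have hF0 : F x = 0 := norm_le_zero_iff.1 h2
    rw [hF0, hg0]
    unfold A B
    have h3 : L (ee Ω G x) (zz Ω G F x) 0 = 0 := by
      unfold L; simp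
    have h4 : f p (0 : E n) = 0 := by
      unfold f; simp
    have h5 : L (zz Ω G F x) (ee Ω G x) 0 = 0 := by
      unfold L; simp
    rw [h3, h4, h5, smul_zero]
  · have hS : x ∈ Ω ∩ {x | G x ≠ 0} := ⟨hx, hg0⟩
    have hg : 0 < ‖G x‖ := norm_pos_iff.2 hg0
    unfold A zz ee ll
    rw [if_pos hS, if_pos hS, if_pos hS]
    set g := ‖G x‖ with hgdef
    have hgp : 0 < g ^ p := Real.rpow_pos_of_pos hg _
    have hi : 0 < ⟪F x, G x⟫ := (mul_pos hα hgp).trans_le h1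
    have hgg : ⟪G x, G x⟫ = g ^ 2 := real_inner_self_eq_norm_sq _
    have hzG : ⟪g⁻¹ • ((⟪F x, G x⟫ / g ^ 2)⁻¹ • F x - G x), G x⟫ = 0 := by
      rw [real_inner_smul_left, inner_sub_left, real_inner_smul_left, hgg]
      field_simp
      ring
    have hL : L (g⁻¹ • G x) (g⁻¹ • ((⟪F x, G x⟫ / g ^ 2)⁻¹ • F x - G x)) (G x) = G x := by
      unfold L
      rw [hzG, zero_smul, add_zero]
    have hLt : L (g⁻¹ • ((⟪F x, G x⟫ / g ^ 2)⁻¹ • F x - G x)) (g⁻¹ • G x) (G x) =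
        (⟪F x, G x⟫ / g ^ 2)⁻¹ • F x := by
      unfold L
      rw [real_inner_smul_left, hgg, smul_smul, show g⁻¹ * g ^ 2 * g⁻¹ = 1 by field_simp, one_smul]
      abel
    unfold B f
    rw [hL, ← hgdef, L_smul, hLt, smul_smul, smul_smul]
    have e2 : g ^ p = g ^ (p - 2) * g ^ 2 := by
      rw [← Real.rpow_natCast g 2, ← Real.rpow_add hg]; congr 1; push_cast; ring
    have hg2 : 0 < g ^ (p - 2) := Real.rpow_pos_of_pos hg _
    have h3 : ⟪F x, G x⟫ / g ^ p * g ^ (p - 2) * (⟪F x, G x⟫ / g ^ 2)⁻¹ = 1 := by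
      rw [e2]
      field_simp
    have h4 : (⟪F x, G x⟫ / g ^ p * (g ^ (p - 2) * (⟪F x, G x⟫ / g ^ 2)⁻¹)) • F x = F x := by
      rw [← mul_assoc, h3, one_smul]
    first
    | exact h4
    | (rw [h3, one_smul])

end Main

end Pool.Agent.Q64.LP.STR

namespace Pool.Agent.Q64.LP

open STR in
theorem t_STR (pv : S_PV) : S_STR := by
  intro n p α β hp hα Ω hΩ G F hG hF h
  refine ⟨A p Ω G F, ⟨fun ξ => meas_A hΩ hG hF ξ, fun x => B_cont hp pv _, ?_, ?_, ?_⟩,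
    fun x hx => A_eq hp hα h x hx⟩
  · have hC : 0 ≤ |β| / α + 1 := by positivity
    have h1C : (1 : ℝ) ≤ 1 + (|β| / α + 1) := by linarith
    have hb1 : (1 : ℝ) ≤ (1 + (|β| / α + 1)) ^ p := Real.one_le_rpow h1C (by linarith)
    have hb2 : (1 + (|β| / α + 1)) ^ (-p) ≤ 1 := Real.rpow_le_one_of_one_le_of_nonpos h1C (by linarith)
    have hb3 : 0 < (1 + (|β| / α + 1)) ^ (-p) := Real.rpow_pos_of_pos (by linarith) _
    have hmin : 0 < min α 1 := lt_min hα one_pos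
    have hmin1 : min α 1 ≤ 1 := min_le_right _ _
    have hmax : 1 ≤ max β 1 := le_max_right _ _
    refine ⟨min α 1 * (1 + (|β| / α + 1)) ^ (-p), max β 1 * (1 + (|β| / α + 1)) ^ p,
      mul_pos hmin hb3, ?_, fun x ξ => ?_⟩
    · calc min α 1 * (1 + (|β| / α + 1)) ^ (-p) ≤ 1 * 1 := mul_le_mul hmin1 hb2 hb3.le zero_le_one
        _ ≤ max β 1 * (1 + (|β| / α + 1)) ^ p := mul_le_mul hmax hb1 zero_le_one (by linarith)
    · obtain ⟨h1, h2, h3, h4, h5⟩ := params hα h x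
      rw [mul_one, mul_one]
      exact ⟨B_low h1 h2 h3 hp hmin h4 ξ, B_up h2 h3 hp (hmin.le.trans h4) h5 ξ⟩
  · intro x ξ η hne
    obtain ⟨h1, h2, h3, h4, h5⟩ := params hα h x
    exact B_mono h1 hp pv ((lt_min hα one_pos).trans_le h4) hne
  · intro x ξ t _
    exact B_smul _ t ξ

end Pool.Agent.Q64.LP
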