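import Pool.Agent.Q64.LP.Cy

/-! # The integral of `|u|^(5/4)` over small balls (project LP, job UL) -/

open MeasureTheory Filter Topology Set Metric
open scoped ENNReal NNReal RealInnerProductSpace ContDiff Gradient

namespace Pool.Agent.Q64.LP.UL

open Pool.Agent.Q64.LP.Cy

/-- the radial bound -/
noncomputable def HU (δ s r : ℝ) : ℝ≥0∞ :=
  if s < δ then (if r < δ then (if s ≤ r then ENNReal.ofReal 4
    else if s ^ (3 / 2 : ℝ) ≤ r then ENNReal.ofReal (9 * s ^ (35 / 8 : ℝ) * r ^ (-(15 / 4) : ℝ))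
    else ENNReal.ofReal (9 * s ^ (-(5 / 4) : ℝ))) else 0) else 0

theorem HU_meas (δ : ℝ) : Measurable (Function.uncurry (HU δ)) := by
  unfold HU Function.uncurry
  refine Measurable.ite (measurableSet_lt measurable_fst measurable_const) ?_ measurable_const
  refine Measurable.ite (measurableSet_lt measurable_snd measurable_const) ?_ measurable_const
  refine Measurable.ite (measurableSet_le measurable_fst measurable_snd) (by fun_prop) ?_
  exact Measurable.ite (measurableSet_le (by fun_prop) measurable_snd) (by fun_prop) (by fun_prop)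

/-- region O -/
theorem boundO (x : E 3) (h : ss x ≤ rr x) (hr : rr x < 1) : |uu x| ≤ 2 := by
  rw [uu, if_pos h]
  have h1 : Real.sqrt (rr x) ≤ 1 := Real.sqrt_le_one.2 hr.le
  have h0 := Real.sqrt_nonneg (rr x)
  rw [abs_le]; constructor <;> linarith

/-- region K -/
theorem boundK (x : E 3) (h : ¬ ss x ≤ rr x) (h2 : ss x ^ (3 / 2 : ℝ) ≤ rr x) (hs : 0 < ss x) :
    |uu x| ≤ 3 * (ss x ^ (7 / 2 : ℝ) * rr x ^ (-3 : ℝ)) := by
  have hr : 0 < rr x := lt_of_lt_of_le (Real.rpow_pos_of_pos hs _) h2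
  have e1 : ss x ^ (7 / 2 : ℝ) / (3 * rr x ^ 3) = 1 / 3 * (ss x ^ (7 / 2 : ℝ) * rr x ^ (-3 : ℝ)) := by
    rw [Real.rpow_neg hr.le, Real.rpow_ofNat]
    field_simp
  have e2 : Real.sqrt (ss x) ≤ ss x ^ (7 / 2 : ℝ) * rr x ^ (-3 : ℝ) := by
    have e : Real.sqrt (ss x) = ss x ^ (7 / 2 : ℝ) * ss x ^ (-3 : ℝ) := by
      rw [← Real.rpow_add hs, Real.sqrt_eq_rpow]; norm_num
    rw [e]
    exact mul_le_mul_of_nonneg_left (Real.rpow_le_rpow_of_nonpos hr (not_le.1 h).le (by norm_num))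
      (by positivity)
  rw [uu, if_neg h, if_pos h2, e1]
  have h0 := Real.sqrt_nonneg (ss x)
  rw [abs_le]; constructor <;> linarith

/-- region T -/
theorem boundT (x : E 3) (h : ¬ ss x ≤ rr x) (h2 : ¬ ss x ^ (3 / 2 : ℝ) ≤ rr x) (hs : 0 < ss x)
    (hs1 : ss x < 1) : |uu x| ≤ 3 * ss x ^ (-1 : ℝ) := by
  have e1 : 1 / (3 * ss x) = 1 / 3 * ss x ^ (-1 : ℝ) := by
    rw [Real.rpow_neg_one]
    field_simp
  have e2 : Real.sqrt (ss x) ≤ ss x ^ (-1 : ℝ) := by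
    rw [Real.sqrt_eq_rpow]
    exact Real.rpow_le_rpow_of_exponent_ge hs hs1.le (by norm_num)
  rw [uu, if_neg h, if_neg h2, e1]
  have h0 := Real.sqrt_nonneg (ss x)
  rw [abs_le]; constructor <;> linarith

theorem two_le : (2 : ℝ) ^ (5 / 4 : ℝ) ≤ 4 := by
  calc (2 : ℝ) ^ (5 / 4 : ℝ) ≤ 2 ^ (2 : ℝ) :=
      Real.rpow_le_rpow_of_exponent_le (by norm_num) (by norm_num)
    _ = 4 := by norm_num

theorem three_le : (3 : ℝ) ^ (5 / 4 : ℝ) ≤ 9 := by
  calc (3 : ℝ) ^ (5 / 4 : ℝ) ≤ 3 ^ (2 : ℝ) :=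
      Real.rpow_le_rpow_of_exponent_le (by norm_num) (by norm_num)
    _ = 9 := by norm_num

theorem bound (δ : ℝ) (hδ : δ ≤ 1) (x : E 3) (hx : x ∈ ball (0 : E 3) δ) :
    ENNReal.ofReal (|uu x| ^ (5 / 4 : ℝ)) ≤ HU δ (ss x) (rr x) := by
  rw [HU, if_pos (ss_lt hx), if_pos (rr_lt hx)]
  by_cases h : ss x ≤ rr x
  · rw [if_pos h]
    refine ENNReal.ofReal_le_ofReal (le_trans ?_ two_le)
    exact Real.rpow_le_rpow (abs_nonneg _) (boundO x h ((rr_lt hx).trans_le hδ)) (by norm_num)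
  · have hs : 0 < ss x := lt_of_le_of_lt (rr_nonneg x) (not_le.1 h)
    rw [if_neg h]
    by_cases h2 : ss x ^ (3 / 2 : ℝ) ≤ rr x
    · rw [if_pos h2]
      have hr : 0 < rr x := lt_of_lt_of_le (Real.rpow_pos_of_pos hs _) h2
      refine ENNReal.ofReal_le_ofReal ?_
      calc |uu x| ^ (5 / 4 : ℝ) ≤ (3 * (ss x ^ (7 / 2 : ℝ) * rr x ^ (-3 : ℝ))) ^ (5 / 4 : ℝ) :=
          Real.rpow_le_rpow (abs_nonneg _) (boundK x h h2 hs) (by norm_num)
        _ = 3 ^ (5 / 4 : ℝ) * (ss x ^ (35 / 8 : ℝ) * rr x ^ (-(15 / 4) : ℝ)) := by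
          rw [Real.mul_rpow (by norm_num) (by positivity), Real.mul_rpow (by positivity)
            (by positivity), ← Real.rpow_mul hs.le, ← Real.rpow_mul hr.le]
          norm_num
        _ ≤ 9 * (ss x ^ (35 / 8 : ℝ) * rr x ^ (-(15 / 4) : ℝ)) :=
          mul_le_mul_of_nonneg_right three_le (by positivity)
        _ = _ := by ring
    · rw [if_neg h2]
      refine ENNReal.ofReal_le_ofReal ?_
      calc |uu x| ^ (5 / 4 : ℝ) ≤ (3 * ss x ^ (-1 : ℝ)) ^ (5 / 4 : ℝ) :=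
          Real.rpow_le_rpow (abs_nonneg _) (boundT x h h2 hs ((ss_lt hx).trans_le hδ))
            (by norm_num)
        _ = 3 ^ (5 / 4 : ℝ) * ss x ^ (-(5 / 4) : ℝ) := by
          rw [Real.mul_rpow (by norm_num) (by positivity), ← Real.rpow_mul hs.le]
          norm_num
        _ ≤ 9 * ss x ^ (-(5 / 4) : ℝ) :=
          mul_le_mul_of_nonneg_right three_le (by positivity)

theorem inner_bound (δ : ℝ) (hδ0 : 0 < δ) (hδ : δ ≤ 1) (s : ℝ) (hs : 0 < s) (hs1 : s < δ) :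
    ∫⁻ r in Ioi (0 : ℝ), ENNReal.ofReal r * HU δ s r ≤ ENNReal.ofReal (19 * δ ^ (7 / 4 : ℝ)) := by
  have h := inner_le δ s (4 * δ) (9 * s ^ (35 / 8 : ℝ)) (-(15 / 4)) (9 * s ^ (-(5 / 4) : ℝ)) hs
    (by norm_num) (by positivity) (by positivity) (by positivity) (fun r => ENNReal.ofReal 4)
    (fun r hr hr1 => by
      rw [← ENNReal.ofReal_mul hr.le]
      exact ENNReal.ofReal_le_ofReal (by linarith))
  simp only [HU, if_pos hs1]
  refine h.trans ?_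
  have hp : (0 : ℝ) ≤ (s ^ (3 / 2 : ℝ)) ^ (-(15 / 4 : ℝ) + 2) := by positivity
  have h3 : (0 : ℝ) ≤ -(s ^ (3 / 2 : ℝ)) ^ (-(15 / 4 : ℝ) + 2) / (-(15 / 4) + 2) := by
    rw [show -(15 / 4 : ℝ) + 2 = -(7 / 4) by norm_num] at hp ⊢
    rw [neg_div_neg_eq]
    positivity
  rw [← ENNReal.ofReal_add (by positivity) (by positivity), ← ENNReal.ofReal_add (by positivity)
    (by positivity)]
  refine ENNReal.ofReal_le_ofReal ?_
  have e1 : 9 * s ^ (35 / 8 : ℝ) * (-(s ^ (3 / 2 : ℝ)) ^ (-(15 / 4 : ℝ) + 2) / (-(15 / 4) + 2)) =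
      36 / 7 * s ^ (7 / 4 : ℝ) := by
    have : s ^ (7 / 4 : ℝ) = s ^ (35 / 8 : ℝ) * (s ^ (3 / 2 : ℝ)) ^ (-(15 / 4 : ℝ) + 2) := by
      rw [← Real.rpow_mul hs.le, ← Real.rpow_add hs]; norm_num
    rw [this]; ring
  have e2 : 9 * s ^ (-(5 / 4) : ℝ) * s ^ (3 / 2 : ℝ) * s ^ (3 / 2 : ℝ) =
      9 * s ^ (7 / 4 : ℝ) := by
    have : s ^ (7 / 4 : ℝ) = s ^ (-(5 / 4) : ℝ) * s ^ (3 / 2 : ℝ) * s ^ (3 / 2 : ℝ) := by
      rw [← Real.rpow_add hs, ← Real.rpow_add hs]; norm_num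
    rw [this]; ring
  rw [e1, e2]
  have h1 : s ^ (7 / 4 : ℝ) ≤ δ ^ (7 / 4 : ℝ) := Real.rpow_le_rpow hs.le hs1.le (by norm_num)
  have h2 : δ * δ ≤ δ ^ (7 / 4 : ℝ) := by
    calc δ * δ = δ ^ (2 : ℝ) := by rw [Real.rpow_two]; ring
      _ ≤ δ ^ (7 / 4 : ℝ) := Real.rpow_le_rpow_of_exponent_ge hδ0 hδ (by norm_num)
  have h4 : 0 ≤ s ^ (7 / 4 : ℝ) := by positivity
  linarith

theorem key (cyl : S_CYL) (meas : S_MEAS) (δ : ℝ) (hδ0 : 0 < δ) (hδ : δ ≤ 1) :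
    ∫⁻ x in ball (0 : E 3) δ, ENNReal.ofReal (|uu x| ^ (5 / 4 : ℝ)) ≤
      ENNReal.ofReal (4 * Real.pi) * ENNReal.ofReal (19 * δ ^ (7 / 4 : ℝ) * δ) := by
  rw [← lintegral_indicator measurableSet_ball]
  have h1 : ∫⁻ x, (ball (0 : E 3) δ).indicator (fun x => ENNReal.ofReal (|uu x| ^ (5 / 4 : ℝ))) x ≤
      ∫⁻ x : E 3, HU δ (ss x) (rr x) := by
    refine lintegral_mono (fun x => ?_)
    by_cases hx : x ∈ ball (0 : E 3) δ
    · rw [indicator_of_mem hx]; exact bound δ hδ x hx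
    · rw [indicator_of_notMem hx]; exact zero_le
  refine h1.trans ?_
  rw [cyl_lint cyl meas (HU δ) (HU_meas δ)]
  refine mul_le_mul_right ?_ _
  have h2 : ∫⁻ s in Ioi (0 : ℝ), ∫⁻ r in Ioi (0 : ℝ), ENNReal.ofReal r * HU δ s r ≤
      ∫⁻ s in Ioo (0 : ℝ) δ, ENNReal.ofReal (19 * δ ^ (7 / 4 : ℝ)) := by
    have e : Ioo (0 : ℝ) δ = Iio δ ∩ Ioi 0 := by ext; simp [and_comm]
    rw [e, ← Measure.restrict_restrict measurableSet_Iio, ← lintegral_indicator measurableSet_Iio]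
    refine setLIntegral_mono' measurableSet_Ioi (fun s hs => ?_)
    by_cases h : s < δ
    · rw [indicator_of_mem (show s ∈ Iio δ from h)]
      exact inner_bound δ hδ0 hδ s hs h
    · rw [indicator_of_notMem (show s ∉ Iio δ from h)]
      simp only [HU, if_neg h, mul_zero, lintegral_zero, le_refl]
  refine h2.trans ?_
  rw [lintegral_const, Measure.restrict_apply MeasurableSet.univ, univ_inter, Real.volume_Ioo,
    sub_zero, ← ENNReal.ofReal_mul (by positivity)]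

end Pool.Agent.Q64.LP.UL

namespace Pool.Agent.Q64.LP

open Pool.Agent.Q64.LP.Cy Pool.Agent.Q64.LP.UL

theorem t_UL (cyl : S_CYL) (meas : S_MEAS) : S_UL := by
  unfold S_UL
  have hlim : Tendsto (fun δ : ℝ => ENNReal.ofReal (76 * Real.pi * δ ^ (3 / 2 : ℝ))) (𝓝[>] 0)
      (𝓝 0) := by
    have h1 : Tendsto (fun δ : ℝ => 76 * Real.pi * δ ^ (3 / 2 : ℝ)) (𝓝 0)
        (𝓝 (76 * Real.pi * (0 : ℝ) ^ (3 / 2 : ℝ))) :=
      ((Real.continuous_rpow_const (by norm_num)).const_mul _ : Continuous _).tendsto 0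
    rw [Real.zero_rpow (by norm_num), mul_zero] at h1
    have h2 := (ENNReal.continuous_ofReal.tendsto 0).comp h1
    rw [ENNReal.ofReal_zero] at h2
    exact h2.mono_left nhdsWithin_le_nhds
  refine tendsto_of_tendsto_of_tendsto_of_le_of_le' tendsto_const_nhds hlim
    (Eventually.of_forall (fun _ => zero_le)) ?_
  have hev : ∀ᶠ δ : ℝ in 𝓝[>] 0, δ ∈ Ioo (0 : ℝ) 1 := Ioo_mem_nhdsGT zero_lt_one
  filter_upwards [hev] with δ hδ
  refine (mul_le_mul_right (key cyl meas δ hδ.1 hδ.2.le) _).trans ?_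
  have h0 : 0 < δ := hδ.1
  rw [← ENNReal.ofReal_mul (by positivity), ← ENNReal.ofReal_mul (by positivity)]
  refine ENNReal.ofReal_le_ofReal (le_of_eq ?_)
  have e : δ ^ (3 / 2 : ℝ) = δ ^ (-(5 / 4) : ℝ) * (δ ^ (7 / 4 : ℝ) * δ) := by
    rw [← Real.rpow_add_one h0.ne', ← Real.rpow_add h0]; norm_num
  rw [e]; ring

end Pool.Agent.Q64.LP
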