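import Pool.Agent.Q64.LP.Stm

open MeasureTheory Filter Topology Set Metric
open scoped ENNReal NNReal RealInnerProductSpace ContDiff Gradient

namespace Pool.Agent.Q64.LP

namespace WK

theorem inner3 (a b : E 3) : ⟪a, b⟫ = a 0 * b 0 + a 1 * b 1 + a 2 * b 2 := by
  simp [PiLp.inner_apply, Fin.sum_univ_three, mul_comm]

end WK

theorem t_WK (wka : S_WKA) (wkb : S_WKB) : S_WK := by
  intro φ hφ hnn
  obtain ⟨ia, a0⟩ := wka φ hφ hnn
  obtain ⟨ib, b0⟩ := wkb φ hφ hnn
  have heq : (fun x => ⟪FF x, ∇ φ x⟫) = fun x =>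
      ({x | TT x}.indicator (fun x =>
        -((SignType.sign (x 0) : ℝ) * ss x ^ (-(1 / 2) : ℝ)) * (∇ φ x) 0
          + 1 / 2 * ss x ^ (-(3 / 2) : ℝ) * φ x) x) +
      ((FF x) 1 * (∇ φ x) 1 + (FF x) 2 * (∇ φ x) 2 -
        {x | TT x}.indicator (fun x => 1 / 2 * ss x ^ (-(3 / 2) : ℝ) * φ x) x) := by
    funext x
    rw [WK.inner3]
    by_cases hT : TT x
    · have hT' : x ∈ {x | TT x} := hT
      rw [indicator_of_mem hT', indicator_of_mem hT']
      have hF : (FF x) 0 = -((SignType.sign (x 0) : ℝ) * ss x ^ (-(1 / 2) : ℝ)) := by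
        unfold FF
        rw [if_neg hT.1, if_neg hT.2]
        simp
      rw [hF]; ring
    · have hT' : x ∉ {x | TT x} := hT
      rw [indicator_of_notMem hT', indicator_of_notMem hT']
      have hF : (FF x) 0 = 0 := by
        unfold FF
        by_cases h1 : ss x ≤ rr x
        · rw [if_pos h1]; simp
        · rw [if_neg h1]
          by_cases h2 : ss x ^ (3 / 2 : ℝ) ≤ rr x
          · rw [if_pos h2]; simp
          · exact absurd ⟨h1, h2⟩ hT
      rw [hF]; ring
  rw [heq]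
  refine ⟨ia.add ib, ?_⟩
  rw [integral_add ia ib]
  exact add_nonneg a0 b0

end Pool.Agent.Q64.LP
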