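import Pool.Agent.Q64.LP.Stm

open MeasureTheory Filter Topology Set Metric
open scoped ENNReal NNReal RealInnerProductSpace ContDiff Gradient

namespace Pool.Agent.Q64.LP

namespace WKA

theorem rr_nonneg (x : E 3) : 0 ≤ rr x := Real.sqrt_nonneg _

theorem ss_pos {x : E 3} (h : TT x) : 0 < ss x := lt_of_le_of_lt (rr_nonneg x) (not_le.1 h.1)

theorem ss_le_norm (x : E 3) : ss x ≤ ‖x‖ := by
  have := PiLp.norm_apply_le x 0
  simpa [ss, Real.norm_eq_abs] using this

theorem ss_lt_one {x : E 3} (h : x ∈ ball (0 : E 3) 1) : ss x < 1 :=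
  lt_of_le_of_lt (ss_le_norm x) (by simpa using h)

theorem grad_zero {φ : E 3 → ℝ} {x : E 3} (h : x ∉ tsupport φ) : ∇ φ x = 0 := by
  have h1 : fderiv ℝ φ x = 0 := by
    have h2 : x ∉ tsupport (fderiv ℝ φ) := fun h3 => h (tsupport_fderiv_subset ℝ h3)
    exact image_eq_zero_of_notMem_tsupport h2
  simp [gradient, h1]

theorem grad_apply (φ : E 3 → ℝ) (x : E 3) :
    (∇ φ x) 0 = fderiv ℝ φ x (EuclideanSpace.single 0 1) := by
  have h1 : ⟪∇ φ x, EuclideanSpace.single 0 (1 : ℝ)⟫ = fderiv ℝ φ x (EuclideanSpace.single 0 1) := by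
    simp [gradient]
  rw [← h1, EuclideanSpace.inner_single_right]
  simp

theorem norm_grad (φ : E 3 → ℝ) (x : E 3) : ‖∇ φ x‖ = ‖fderiv ℝ φ x‖ := by
  simp [gradient]

/-- the function of the statement -/
noncomputable def F (φ : E 3 → ℝ) (x : E 3) : ℝ := {x | TT x}.indicator (fun x =>
    -((SignType.sign (x 0) : ℝ) * ss x ^ (-(1 / 2) : ℝ)) * (∇ φ x) 0
      + 1 / 2 * ss x ^ (-(3 / 2) : ℝ) * φ x) x

theorem F_zero {φ : E 3 → ℝ} {x : E 3} (h : x ∉ tsupport φ) : F φ x = 0 := by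
  unfold F
  by_cases hx : x ∈ {x | TT x}
  · rw [indicator_of_mem hx, grad_zero h, image_eq_zero_of_notMem_tsupport h]
    simp
  · rw [indicator_of_notMem hx]

theorem measurable_sign : Measurable (fun t : ℝ => (SignType.sign t : ℝ)) := by
  have : (fun t : ℝ => ((SignType.sign t : SignType) : ℝ)) =
      fun t : ℝ => if 0 < t then (1 : ℝ) else if t < 0 then -1 else 0 := by
    funext t
    rcases lt_trichotomy t 0 with h | h | h
    · simp [h, not_lt.2 h.le]
    · simp [h]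
    · simp [h]
  rw [this]
  exact Measurable.ite measurableSet_Ioi measurable_const
    (Measurable.ite measurableSet_Iio measurable_const measurable_const)

theorem continuous_grad {φ : E 3 → ℝ} (h : ContDiff ℝ ∞ φ) : Continuous (∇ φ) := by
  have h1 : Continuous (fderiv ℝ φ) := h.continuous_fderiv (by simp)
  unfold gradient
  exact (LinearIsometryEquiv.continuous _).comp h1

theorem measurable_F (meas : S_MEAS) {φ : E 3 → ℝ} (h : ContDiff ℝ ∞ φ) : Measurable (F φ) := by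
  obtain ⟨hs, -, -, -, -, hT⟩ := meas
  have h0 : Measurable (fun x : E 3 => x 0) := by
    have : Continuous (fun x : E 3 => x 0) := by fun_prop
    exact this.measurable
  have hg : Measurable (fun x : E 3 => (∇ φ x) 0) := h0.comp (continuous_grad h).measurable
  unfold F
  refine Measurable.indicator ?_ hT
  refine Measurable.add (Measurable.mul (Measurable.neg (Measurable.mul (measurable_sign.comp h0)
    (hs.pow_const _))) hg) (Measurable.mul (Measurable.mul measurable_const (hs.pow_const _))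
      h.continuous.measurable)

theorem bound_F {φ : E 3 → ℝ} (h : IsTest (ball 0 1) φ) :
    ∃ C : ℝ, 0 ≤ C ∧ ∀ x, |F φ x| ≤ ({x | TT x} ∩ {x | ss x < 1}).indicator
      (fun x => C * ss x ^ (-(3 / 2) : ℝ)) x := by
  obtain ⟨h1, h2, h3⟩ := h
  obtain ⟨M, hM⟩ := h1.continuous.bounded_above_of_compact_support h2
  obtain ⟨N, hN⟩ := (h1.continuous_fderiv (by simp)).bounded_above_of_compact_support (h2.fderiv ℝ)
  have hM0 : 0 ≤ M := le_trans (norm_nonneg _) (hM 0)
  have hN0 : 0 ≤ N := le_trans (norm_nonneg _) (hN 0)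
  refine ⟨M + N, by positivity, fun x => ?_⟩
  by_cases hx : x ∈ tsupport φ
  · have hs1 : ss x < 1 := ss_lt_one (h3 hx)
    by_cases hT : TT x
    · have hs0 : 0 < ss x := ss_pos hT
      rw [indicator_of_mem (show x ∈ {x | TT x} ∩ {x | ss x < 1} from ⟨hT, hs1⟩)]
      unfold F
      rw [indicator_of_mem (show x ∈ {x | TT x} from hT)]
      have hg : |(∇ φ x) 0| ≤ N := by
        have h4 := PiLp.norm_apply_le (∇ φ x) 0
        rw [Real.norm_eq_abs, norm_grad] at h4
        exact h4.trans (hN x)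
      have hp : |φ x| ≤ M := by simpa [Real.norm_eq_abs] using hM x
      have hsgn : |(SignType.sign (x 0) : ℝ)| ≤ 1 := by
        rcases lt_trichotomy (x 0) 0 with h | h | h
        · simp [h]
        · simp [h]
        · simp [h]
      have hpow : ss x ^ (-(1 / 2) : ℝ) ≤ ss x ^ (-(3 / 2) : ℝ) :=
        Real.rpow_le_rpow_of_exponent_ge hs0 hs1.le (by norm_num)
      have hp1 : 0 ≤ ss x ^ (-(1 / 2) : ℝ) := Real.rpow_nonneg hs0.le _
      have hp3 : 0 ≤ ss x ^ (-(3 / 2) : ℝ) := Real.rpow_nonneg hs0.le _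
      have e1 : |(-((SignType.sign (x 0) : ℝ) * ss x ^ (-(1 / 2) : ℝ)) * (∇ φ x) 0)|
          ≤ ss x ^ (-(3 / 2) : ℝ) * N := by
        rw [abs_mul, abs_neg, abs_mul, abs_of_nonneg hp1]
        refine mul_le_mul ?_ hg (abs_nonneg _) hp3
        calc |(SignType.sign (x 0) : ℝ)| * ss x ^ (-(1 / 2) : ℝ)
            ≤ 1 * ss x ^ (-(1 / 2) : ℝ) := mul_le_mul_of_nonneg_right hsgn hp1
          _ ≤ ss x ^ (-(3 / 2) : ℝ) := by rw [one_mul]; exact hpow
      have e2 : |(1 / 2 * ss x ^ (-(3 / 2) : ℝ) * φ x)| ≤ ss x ^ (-(3 / 2) : ℝ) * M := by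
        rw [abs_mul, abs_mul, abs_of_nonneg hp3, abs_of_nonneg (by norm_num : (0 : ℝ) ≤ 1 / 2)]
        refine mul_le_mul ?_ hp (abs_nonneg _) hp3
        linarith
      calc |(-((SignType.sign (x 0) : ℝ) * ss x ^ (-(1 / 2) : ℝ)) * (∇ φ x) 0
            + 1 / 2 * ss x ^ (-(3 / 2) : ℝ) * φ x)|
          ≤ ss x ^ (-(3 / 2) : ℝ) * N + ss x ^ (-(3 / 2) : ℝ) * M :=
            (abs_add_le _ _).trans (add_le_add e1 e2)
        _ = (M + N) * ss x ^ (-(3 / 2) : ℝ) := by ring
    · have : F φ x = 0 := by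
        unfold F
        rw [indicator_of_notMem (show x ∉ {x | TT x} from hT)]
      rw [this, abs_zero]
      exact indicator_nonneg (fun y _ => mul_nonneg (by positivity)
        (Real.rpow_nonneg (abs_nonneg _) _)) _
  · rw [F_zero hx, abs_zero]
    exact indicator_nonneg (fun y _ => mul_nonneg (by positivity)
      (Real.rpow_nonneg (abs_nonneg _) _)) _

theorem ss_pt (t r θ : ℝ) : ss (pt t r θ) = |t| := by
  simp [ss, pt]

theorem rr_pt (t θ : ℝ) {r : ℝ} (hr : 0 < r) : rr (pt t r θ) = r := by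
  have : (r * Real.cos θ) ^ 2 + (r * Real.sin θ) ^ 2 = r ^ 2 := by
    have := Real.sin_sq_add_cos_sq θ
    linear_combination r ^ 2 * this
  simp only [rr, pt]
  have h2 : Real.sqrt ((r * Real.cos θ) ^ 2 + (r * Real.sin θ) ^ 2) = r := by
    rw [this, Real.sqrt_sq hr.le]
  simpa using h2

theorem lint (cyl : S_CYL) (meas : S_MEAS) {C : ℝ} (hC : 0 ≤ C) :
    ∫⁻ x : E 3, ENNReal.ofReal (({x | TT x} ∩ {x | ss x < 1}).indicator
      (fun x => C * ss x ^ (-(3 / 2) : ℝ)) x) < ⊤ := by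
  obtain ⟨hs, -, -, -, -, hT⟩ := meas
  have hS : MeasurableSet ({x : E 3 | TT x} ∩ {x | ss x < 1}) :=
    hT.inter (measurableSet_lt hs measurable_const)
  have hm : Measurable (fun x : E 3 => ENNReal.ofReal (({x | TT x} ∩ {x | ss x < 1}).indicator
      (fun x => C * ss x ^ (-(3 / 2) : ℝ)) x)) :=
    ENNReal.measurable_ofReal.comp ((measurable_const.mul (hs.pow_const _)).indicator hS)
  rw [cyl _ hm]
  have key : ∀ t θ r : ℝ, 0 < r → ENNReal.ofReal r * ENNReal.ofReal
      (({x | TT x} ∩ {x | ss x < 1}).indicator (fun x => C * ss x ^ (-(3 / 2) : ℝ)) (pt t r θ)) ≤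
      (Ioo (-1 : ℝ) 1).indicator (fun _ => (Iio (1 : ℝ)).indicator
        (fun _ => ENNReal.ofReal C) r) t := by
    intro t θ r hr
    by_cases hx : pt t r θ ∈ {x | TT x} ∩ {x | ss x < 1}
    · obtain ⟨hx1, hx2⟩ := hx
      have hTT : TT (pt t r θ) := hx1
      have ht1 : |t| < 1 := by
        have : ss (pt t r θ) < 1 := hx2
        rwa [ss_pt] at this
      have ht0 : 0 < |t| := by
        have := ss_pos hTT
        rwa [ss_pt] at this
      have hr1 : r < |t| := by
        have := not_le.1 hTT.1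
        rwa [ss_pt, rr_pt t θ hr] at this
      have hr2 : r < |t| ^ (3 / 2 : ℝ) := by
        have := not_le.1 hTT.2
        rwa [ss_pt, rr_pt t θ hr] at this
      rw [indicator_of_mem (show pt t r θ ∈ {x | TT x} ∩ {x | ss x < 1} from ⟨hx1, hx2⟩), ss_pt,
        indicator_of_mem (show t ∈ Ioo (-1 : ℝ) 1 from abs_lt.1 ht1),
        indicator_of_mem (show r ∈ Iio (1 : ℝ) from hr1.trans ht1), ← ENNReal.ofReal_mul hr.le]
      refine ENNReal.ofReal_le_ofReal ?_
      have h3 : r * |t| ^ (-(3 / 2) : ℝ) ≤ 1 := by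
        calc r * |t| ^ (-(3 / 2) : ℝ) ≤ |t| ^ (3 / 2 : ℝ) * |t| ^ (-(3 / 2) : ℝ) :=
              mul_le_mul_of_nonneg_right hr2.le (Real.rpow_nonneg ht0.le _)
          _ = 1 := by rw [← Real.rpow_add ht0]; norm_num
      calc r * (C * |t| ^ (-(3 / 2) : ℝ)) = C * (r * |t| ^ (-(3 / 2) : ℝ)) := by ring
        _ ≤ C * 1 := mul_le_mul_of_nonneg_left h3 hC
        _ = C := mul_one C
    · rw [indicator_of_notMem hx]
      simp
  calc ∫⁻ t : ℝ, ∫⁻ θ in Ioo (-Real.pi) Real.pi, ∫⁻ r in Ioi (0 : ℝ), ENNReal.ofReal r *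
        ENNReal.ofReal (({x | TT x} ∩ {x | ss x < 1}).indicator
          (fun x => C * ss x ^ (-(3 / 2) : ℝ)) (pt t r θ))
      ≤ ∫⁻ t : ℝ, ∫⁻ θ in Ioo (-Real.pi) Real.pi, ∫⁻ r in Ioi (0 : ℝ),
        (Ioo (-1 : ℝ) 1).indicator (fun _ => (Iio (1 : ℝ)).indicator
        (fun _ => ENNReal.ofReal C) r) t := by
        refine lintegral_mono fun t => lintegral_mono fun θ => ?_
        refine setLIntegral_mono' measurableSet_Ioi fun r hr => ?_
        exact key t θ r hr
    _ = ∫⁻ t : ℝ, (Ioo (-1 : ℝ) 1).indicator (fun _ => ENNReal.ofReal C *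
          volume (Ioo (-Real.pi) Real.pi)) t := by
        refine lintegral_congr fun t => ?_
        by_cases ht : t ∈ Ioo (-1 : ℝ) 1
        · simp only [indicator_of_mem ht]
          rw [lintegral_indicator measurableSet_Iio, Measure.restrict_restrict measurableSet_Iio]
          have h5 : Iio (1 : ℝ) ∩ Ioi 0 = Ioo 0 1 := by
            ext z; simp [and_comm]
          rw [h5]
          simp
        · simp only [indicator_of_notMem ht]
          simp
    _ < ⊤ := by
        rw [lintegral_indicator measurableSet_Ioo, setLIntegral_const, Real.volume_Ioo,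
          Real.volume_Ioo]
        exact ENNReal.mul_lt_top (ENNReal.mul_lt_top ENNReal.ofReal_lt_top ENNReal.ofReal_lt_top)
          ENNReal.ofReal_lt_top

theorem integrable_F (cyl : S_CYL) (meas : S_MEAS) {φ : E 3 → ℝ} (h : IsTest (ball 0 1) φ) :
    Integrable (F φ) (volume : Measure (E 3)) := by
  obtain ⟨C, hC, hb⟩ := bound_F h
  refine ⟨(measurable_F meas h.1).aestronglyMeasurable, ?_⟩
  refine lt_of_le_of_lt (lintegral_mono fun x => ?_) (lint cyl meas hC)
  rw [← ofReal_norm, Real.norm_eq_abs]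
  exact ENNReal.ofReal_le_ofReal (hb x)

/-- the line through `y` in the direction of `x 0` -/
noncomputable def ln (y : ℝ × ℝ) (t : ℝ) : E 3 := !₂[t, y.1, y.2]

theorem ln_eq (y : ℝ × ℝ) (t : ℝ) : ln y t = t • EuclideanSpace.single 0 (1 : ℝ) + ln y 0 := by
  ext i
  fin_cases i <;> simp [ln]

theorem hasDerivAt_ln (y : ℝ × ℝ) (t : ℝ) :
    HasDerivAt (ln y) (EuclideanSpace.single 0 (1 : ℝ)) t := by
  have h1 : HasDerivAt (fun t : ℝ => t • (EuclideanSpace.single 0 (1 : ℝ) : E 3) + ln y 0)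
      (EuclideanSpace.single 0 (1 : ℝ)) t := by
    have := ((hasDerivAt_id t).smul_const (EuclideanSpace.single 0 (1 : ℝ) : E 3)).add_const (ln y 0)
    simpa using this
  have h2 : ln y = fun t : ℝ => t • (EuclideanSpace.single 0 (1 : ℝ) : E 3) + ln y 0 := by
    funext t; exact ln_eq y t
  rw [h2]
  exact h1

theorem contDiff_ln (y : ℝ × ℝ) : ContDiff ℝ 1 (ln y) := by
  have h2 : ln y = fun t : ℝ => t • (EuclideanSpace.single 0 (1 : ℝ) : E 3) + ln y 0 := by
    funext t; exact ln_eq y t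
  rw [h2]
  exact (contDiff_id.smul contDiff_const).add contDiff_const

theorem ss_ln (y : ℝ × ℝ) (t : ℝ) : ss (ln y t) = |t| := by simp [ss, ln]

theorem rr_ln (y : ℝ × ℝ) (t : ℝ) : rr (ln y t) = Real.sqrt (y.1 ^ 2 + y.2 ^ 2) := by
  simp [rr, ln]

theorem apply_ln (y : ℝ × ℝ) (t : ℝ) : (ln y t) 0 = t := by simp [ln]

theorem notMem_of_le {φ : E 3 → ℝ} (h : IsTest (ball 0 1) φ) {y : ℝ × ℝ} {t : ℝ} (ht : 1 ≤ |t|) :
    ln y t ∉ tsupport φ := by
  intro hx
  have := ss_lt_one (h.2.2 hx)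
  rw [ss_ln] at this
  linarith

theorem deriv_ln {φ : E 3 → ℝ} (h : ContDiff ℝ ∞ φ) (y : ℝ × ℝ) (t : ℝ) :
    deriv (fun t => φ (ln y t)) t = (∇ φ (ln y t)) 0 := by
  have h1 : HasFDerivAt φ (fderiv ℝ φ (ln y t)) (ln y t) :=
    (h.differentiable (by simp) _).hasFDerivAt
  have h2 := h1.comp_hasDerivAt t (hasDerivAt_ln y t)
  rw [grad_apply]
  exact h2.deriv

theorem inner_nonneg (ax : S_AX) {φ : E 3 → ℝ} (h : IsTest (ball 0 1) φ) (h0 : ∀ x, 0 ≤ φ x)
    {y : ℝ × ℝ} (hy : y ≠ 0) : 0 ≤ ∫ t : ℝ, F φ (ln y t) := by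
  have hρ : 0 < Real.sqrt (y.1 ^ 2 + y.2 ^ 2) := by
    apply Real.sqrt_pos.2
    rcases y with ⟨a, b⟩
    by_cases ha : a = 0
    · have hb : b ≠ 0 := by
        intro hb
        exact hy (by rw [ha, hb]; rfl)
      have : 0 < b ^ 2 := by positivity
      have : 0 ≤ a ^ 2 := sq_nonneg a
      simp only
      linarith
    · have : 0 < a ^ 2 := by positivity
      have : 0 ≤ b ^ 2 := sq_nonneg b
      simp only
      linarith
  set ρ := Real.sqrt (y.1 ^ 2 + y.2 ^ 2) with hρd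
  have ha : 0 < ρ ^ (2 / 3 : ℝ) := Real.rpow_pos_of_pos hρ _
  have hc : HasCompactSupport (fun t => φ (ln y t)) := by
    refine HasCompactSupport.intro (isCompact_Icc (a := (-1 : ℝ)) (b := 1)) fun t ht => ?_
    refine image_eq_zero_of_notMem_tsupport (notMem_of_le h ?_)
    by_contra hlt
    have := abs_lt.1 (not_le.1 hlt)
    exact ht ⟨this.1.le, this.2.le⟩
  have hcd : ContDiff ℝ 1 (fun t => φ (ln y t)) :=
    (h.1.of_le (by simp)).comp (contDiff_ln y)
  have key := ax (ρ ^ (2 / 3 : ℝ)) ha (fun t => φ (ln y t)) hcd hc (fun t => h0 _)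
  have heq : ∀ t : ℝ, F φ (ln y t) = (if ρ ^ (2 / 3 : ℝ) < |t| then
      -((SignType.sign t : ℝ) * |t| ^ (-(1 / 2) : ℝ)) * deriv (fun t => φ (ln y t)) t
      + 1 / 2 * |t| ^ (-(3 / 2) : ℝ) * φ (ln y t) else 0) := by
    intro t
    by_cases ht : |t| < 1
    · have hiff : TT (ln y t) ↔ ρ ^ (2 / 3 : ℝ) < |t| := by
        unfold TT
        rw [ss_ln, rr_ln, ← hρd, not_le, not_le]
        have h1 : ρ < |t| ^ (3 / 2 : ℝ) ↔ ρ ^ (2 / 3 : ℝ) < |t| := by
          constructor
          · intro h2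
            have h3 := Real.rpow_lt_rpow hρ.le h2 (by norm_num : (0 : ℝ) < 2 / 3)
            rw [← Real.rpow_mul (abs_nonneg t)] at h3
            norm_num at h3
            exact h3
          · intro h2
            have h3 := Real.rpow_lt_rpow ha.le h2 (by norm_num : (0 : ℝ) < 3 / 2)
            rw [← Real.rpow_mul hρ.le] at h3
            norm_num at h3
            exact h3
        rw [← h1]
        constructor
        · exact fun h => h.2
        · intro h2
          refine ⟨lt_of_lt_of_le h2 ?_, h2⟩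
          have hpos : 0 < |t| := lt_trans ha (h1.1 h2)
          calc |t| ^ (3 / 2 : ℝ) ≤ |t| ^ (1 : ℝ) :=
                Real.rpow_le_rpow_of_exponent_ge hpos ht.le (by norm_num)
            _ = |t| := Real.rpow_one _
      unfold F
      by_cases hT : TT (ln y t)
      · rw [indicator_of_mem (show ln y t ∈ {x | TT x} from hT), if_pos (hiff.1 hT),
          deriv_ln h.1, ss_ln, apply_ln]
      · rw [indicator_of_notMem (show ln y t ∉ {x | TT x} from hT),
          if_neg (fun h5 => hT (hiff.2 h5))]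
    · have hn := notMem_of_le h (y := y) (not_lt.1 ht)
      rw [F_zero hn, deriv_ln h.1, grad_zero hn, image_eq_zero_of_notMem_tsupport hn]
      simp
  have : (∫ t : ℝ, F φ (ln y t)) = ∫ t : ℝ, (if ρ ^ (2 / 3 : ℝ) < |t| then
      -((SignType.sign t : ℝ) * |t| ^ (-(1 / 2) : ℝ)) * deriv (fun t => φ (ln y t)) t
      + 1 / 2 * |t| ^ (-(3 / 2) : ℝ) * φ (ln y t) else 0) :=
    integral_congr_ae (Eventually.of_forall heq)
  rw [this]
  exact key

end WKA

theorem t_WKA (axf : S_AXF) (ax : S_AX) (cyl : S_CYL) (meas : S_MEAS) : S_WKA := by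
  intro φ h h0
  have hi := WKA.integrable_F cyl meas h
  refine ⟨hi, ?_⟩
  show 0 ≤ ∫ x, WKA.F φ x
  rw [axf _ hi]
  refine integral_nonneg_of_ae ?_
  filter_upwards [Measure.ae_ne (volume : Measure (ℝ × ℝ)) 0] with y hy
  exact WKA.inner_nonneg ax h h0 hy

end Pool.Agent.Q64.LP
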