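import Pool.Agent.Q64.LP.Cy
import Pool.Agent.Q64.LP.WKA

set_option autoImplicit false

/-!
# Project LP (helper64), job WKB (helper123): the radial part of the weak inequality
-/

open MeasureTheory Filter Topology Set Metric
open scoped ENNReal NNReal RealInnerProductSpace ContDiff Gradient

namespace Pool.Agent.Q64.LP

namespace WKB

theorem norm_pt (t r θ : ℝ) : ‖pt t r θ‖ ^ 2 = t ^ 2 + r ^ 2 := by
  unfold pt
  rw [Cy.norm_sq3]
  have := Real.sin_sq_add_cos_sq θ
  linear_combination r ^ 2 * this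

theorem pt_affine (t r θ : ℝ) : pt t r θ = (!₂[t, 0, 0] : E 3) + r • (!₂[0, Real.cos θ, Real.sin θ] : E 3) := by
  unfold pt
  ext i
  fin_cases i <;> simp

/-- the derivative in the radial direction -/
theorem deriv_rad {φ : E 3 → ℝ} (hφ : ContDiff ℝ ∞ φ) (t r θ : ℝ) :
    HasDerivAt (fun r => φ (pt t r θ))
      ((∇ φ (pt t r θ)) 1 * Real.cos θ + (∇ φ (pt t r θ)) 2 * Real.sin θ) r := by
  have h1 : HasDerivAt (fun r => pt t r θ) (!₂[0, Real.cos θ, Real.sin θ] : E 3) r := by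
    have h2 : (fun r => pt t r θ) = fun r => (!₂[t, 0, 0] : E 3) +
        r • (!₂[0, Real.cos θ, Real.sin θ] : E 3) := by
      funext r
      exact pt_affine t r θ
    rw [h2]
    simpa using ((hasDerivAt_id r).smul_const (!₂[0, Real.cos θ, Real.sin θ] : E 3)).const_add
      (!₂[t, 0, 0] : E 3)
  have h2 : DifferentiableAt ℝ φ (pt t r θ) := (hφ.differentiable (by simp)) _
  have h3 := h2.hasFDerivAt.comp_hasDerivAt r h1
  have h4 : fderiv ℝ φ (pt t r θ) (!₂[0, Real.cos θ, Real.sin θ] : E 3) =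
      (∇ φ (pt t r θ)) 1 * Real.cos θ + (∇ φ (pt t r θ)) 2 * Real.sin θ := by
    have h5 : fderiv ℝ φ (pt t r θ) (!₂[0, Real.cos θ, Real.sin θ] : E 3) =
        ⟪∇ φ (pt t r θ), (!₂[0, Real.cos θ, Real.sin θ] : E 3)⟫ := by
      unfold gradient
      rw [← InnerProductSpace.toDual_apply_apply, LinearIsometryEquiv.apply_symm_apply]
    rw [h5, PiLp.inner_apply, Fin.sum_univ_three]
    simp
    ring
  rw [h4] at h3
  exact h3

/-- the first part -/
noncomputable def P (φ : E 3 → ℝ) (x : E 3) : ℝ :=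
  (FF x) 1 * (∇ φ x) 1 + (FF x) 2 * (∇ φ x) 2

/-- the second part -/
noncomputable def Q (φ : E 3 → ℝ) (x : E 3) : ℝ :=
  {x | TT x}.indicator (fun x => 1 / 2 * ss x ^ (-(3 / 2) : ℝ) * φ x) x

theorem zero_off {φ : E 3 → ℝ} {x : E 3} (h : x ∉ tsupport φ) : P φ x = 0 ∧ Q φ x = 0 := by
  refine ⟨?_, ?_⟩
  · unfold P
    rw [WKA.grad_zero h]
    simp
  · unfold Q
    by_cases hx : x ∈ {x | TT x}
    · rw [indicator_of_mem hx, image_eq_zero_of_notMem_tsupport h, mul_zero]
    · rw [indicator_of_notMem hx]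

theorem meas_coord (i : Fin 3) : Measurable (fun x : E 3 => x i) := by
  have : Continuous (fun x : E 3 => x i) := by fun_prop
  exact this.measurable

theorem measurable_P (meas : S_MEAS) {φ : E 3 → ℝ} (h : ContDiff ℝ ∞ φ) : Measurable (P φ) := by
  have hF := meas.2.2.2.2.1
  have hg := (WKA.continuous_grad h).measurable
  unfold P
  exact (((meas_coord 1).comp hF).mul ((meas_coord 1).comp hg)).add
    (((meas_coord 2).comp hF).mul ((meas_coord 2).comp hg))

theorem measurable_Q (meas : S_MEAS) {φ : E 3 → ℝ} (h : ContDiff ℝ ∞ φ) : Measurable (Q φ) := by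
  obtain ⟨hs, -, -, -, -, hT⟩ := meas
  unfold Q
  exact Measurable.indicator ((measurable_const.mul (hs.pow_const _)).mul h.continuous.measurable) hT

theorem integrable_P (cmp : S_CMP) (gl : S_GL) (meas : S_MEAS) {φ : E 3 → ℝ}
    (h : IsTest (ball 0 1) φ) : Integrable (P φ) (volume : Measure (E 3)) := by
  obtain ⟨h1, h2, h3⟩ := h
  obtain ⟨N, hN⟩ := (h1.continuous_fderiv (by simp)).bounded_above_of_compact_support (h2.fderiv ℝ)
  have hN0 : 0 ≤ N := le_trans (norm_nonneg _) (hN 0)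
  obtain ⟨α, β, hα, hc⟩ := cmp
  refine ⟨(measurable_P meas h1).aestronglyMeasurable, ?_⟩
  have hb : ∀ x, ‖P φ x‖ ≤ (ball (0 : E 3) 1).indicator
      (fun x => 2 * N * |β| * (1 + ‖GG x‖ ^ (5 / 4 : ℝ))) x := by
    intro x
    by_cases hx : x ∈ tsupport φ
    · have hxb := h3 hx
      rw [indicator_of_mem hxb]
      have hF := (hc x hxb).2
      have hg0 := norm_nonneg (GG x)
      have e1 : ‖GG x‖ ^ (5 / 4 - 1 : ℝ) ≤ 1 + ‖GG x‖ ^ (5 / 4 : ℝ) := by
        rcases le_total ‖GG x‖ 1 with hg | hg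
        · have := Real.rpow_le_one hg0 hg (by norm_num : (0 : ℝ) ≤ 5 / 4 - 1)
          have h5 : 0 ≤ ‖GG x‖ ^ (5 / 4 : ℝ) := Real.rpow_nonneg hg0 _
          linarith
        · have := Real.rpow_le_rpow_of_exponent_le hg (by norm_num : (5 / 4 - 1 : ℝ) ≤ 5 / 4)
          linarith
      have e2 : ‖FF x‖ ≤ |β| * (1 + ‖GG x‖ ^ (5 / 4 : ℝ)) := by
        refine hF.trans ?_
        calc β * ‖GG x‖ ^ (5 / 4 - 1 : ℝ) ≤ |β| * ‖GG x‖ ^ (5 / 4 - 1 : ℝ) :=
              mul_le_mul_of_nonneg_right (le_abs_self β) (Real.rpow_nonneg hg0 _)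
          _ ≤ |β| * (1 + ‖GG x‖ ^ (5 / 4 : ℝ)) := mul_le_mul_of_nonneg_left e1 (abs_nonneg β)
      have c1 := PiLp.norm_apply_le (FF x) 1
      have c2 := PiLp.norm_apply_le (FF x) 2
      have g1 := PiLp.norm_apply_le (∇ φ x) 1
      have g2 := PiLp.norm_apply_le (∇ φ x) 2
      rw [WKA.norm_grad] at g1 g2
      have g1' := g1.trans (hN x)
      have g2' := g2.trans (hN x)
      unfold P
      refine (norm_add_le _ _).trans ?_
      rw [norm_mul, norm_mul]
      have k1 : ‖(FF x) 1‖ * ‖(∇ φ x) 1‖ ≤ ‖FF x‖ * N :=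
        mul_le_mul c1 g1' (norm_nonneg _) (norm_nonneg _)
      have k2 : ‖(FF x) 2‖ * ‖(∇ φ x) 2‖ ≤ ‖FF x‖ * N :=
        mul_le_mul c2 g2' (norm_nonneg _) (norm_nonneg _)
      have k3 : ‖FF x‖ * N ≤ |β| * (1 + ‖GG x‖ ^ (5 / 4 : ℝ)) * N :=
        mul_le_mul_of_nonneg_right e2 hN0
      linarith
    · rw [(zero_off hx).1, norm_zero]
      refine indicator_nonneg (fun y _ => ?_) _
      have : 0 ≤ ‖GG y‖ ^ (5 / 4 : ℝ) := Real.rpow_nonneg (norm_nonneg _) _
      positivity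
  have hgm : Measurable fun x : E 3 => ENNReal.ofReal (‖GG x‖ ^ (5 / 4 : ℝ)) :=
    ENNReal.measurable_ofReal.comp (meas.2.2.2.1.norm.pow_const _)
  calc ∫⁻ x, ‖P φ x‖ₑ ≤ ∫⁻ x, (ball (0 : E 3) 1).indicator (fun x => ENNReal.ofReal (2 * N * |β|) *
        (1 + ENNReal.ofReal (‖GG x‖ ^ (5 / 4 : ℝ)))) x := by
        refine lintegral_mono fun x => ?_
        rw [← ofReal_norm]
        refine (ENNReal.ofReal_le_ofReal (hb x)).trans ?_
        by_cases hx : x ∈ ball (0 : E 3) 1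
        · rw [indicator_of_mem hx, indicator_of_mem hx, ENNReal.ofReal_mul (by positivity),
            ENNReal.ofReal_add zero_le_one (Real.rpow_nonneg (norm_nonneg _) _), ENNReal.ofReal_one]
        · rw [indicator_of_notMem hx, indicator_of_notMem hx, ENNReal.ofReal_zero]
    _ = ENNReal.ofReal (2 * N * |β|) * (volume (ball (0 : E 3) 1) +
          ∫⁻ x in ball (0 : E 3) 1, ENNReal.ofReal (‖GG x‖ ^ (5 / 4 : ℝ))) := by
        rw [lintegral_indicator measurableSet_ball, lintegral_const_mul' _ _ ENNReal.ofReal_ne_top,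
          lintegral_add_left measurable_const, setLIntegral_const, one_mul]
    _ < ⊤ := ENNReal.mul_lt_top ENNReal.ofReal_lt_top
        (ENNReal.add_lt_top.2 ⟨measure_ball_lt_top, gl⟩)

theorem integrable_Q (cyl : S_CYL) (meas : S_MEAS) {φ : E 3 → ℝ}
    (h : IsTest (ball 0 1) φ) : Integrable (Q φ) (volume : Measure (E 3)) := by
  obtain ⟨h1, h2, h3⟩ := h
  obtain ⟨M, hM⟩ := h1.continuous.bounded_above_of_compact_support h2
  have hM0 : 0 ≤ M := le_trans (norm_nonneg _) (hM 0)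
  refine ⟨(measurable_Q meas h1).aestronglyMeasurable, ?_⟩
  refine lt_of_le_of_lt (lintegral_mono fun x => ?_) (WKA.lint cyl meas hM0)
  rw [← ofReal_norm]
  refine ENNReal.ofReal_le_ofReal ?_
  by_cases hx : x ∈ tsupport φ
  · by_cases hT : TT x
    · have hs1 : ss x < 1 := WKA.ss_lt_one (h3 hx)
      rw [indicator_of_mem (show x ∈ {x | TT x} ∩ {x | ss x < 1} from ⟨hT, hs1⟩)]
      have hp3 : 0 ≤ ss x ^ (-(3 / 2) : ℝ) := Real.rpow_nonneg (abs_nonneg _) _
      unfold Q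
      rw [indicator_of_mem (show x ∈ {x | TT x} from hT), norm_mul, norm_mul,
        Real.norm_of_nonneg (by norm_num : (0 : ℝ) ≤ 1 / 2),
        Real.norm_of_nonneg hp3]
      have h4 : 1 / 2 * ss x ^ (-(3 / 2) : ℝ) * ‖φ x‖ ≤ 1 / 2 * ss x ^ (-(3 / 2) : ℝ) * M :=
        mul_le_mul_of_nonneg_left (hM x) (by positivity)
      have h5 : 0 ≤ ss x ^ (-(3 / 2) : ℝ) * M := by positivity
      linarith
    · unfold Q
      rw [indicator_of_notMem (show x ∉ {x | TT x} from hT), norm_zero]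
      exact indicator_nonneg (fun y _ => mul_nonneg hM0 (Real.rpow_nonneg (abs_nonneg _) _)) _
  · rw [(zero_off hx).2, norm_zero]
    exact indicator_nonneg (fun y _ => mul_nonneg hM0 (Real.rpow_nonneg (abs_nonneg _) _)) _

/-- the integrand in cylindrical coordinates -/
theorem integrand {φ : E 3 → ℝ} (hφ : ContDiff ℝ ∞ φ) {t θ r : ℝ} (ht0 : 0 < |t|) (ht1 : |t| < 1)
    (hr : 0 < r) : r * (P φ (pt t r θ) - Q φ (pt t r θ)) =
      -(MM |t| r) * deriv (fun r => φ (pt t r θ)) r -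
        (if r < |t| ^ (3 / 2 : ℝ) then 1 / 2 * |t| ^ (-(3 / 2) : ℝ) * r * φ (pt t r θ) else 0) := by
  have hs := WKA.ss_pt t r θ
  have hρ := WKA.rr_pt t θ hr
  have hx1 : (pt t r θ) 1 = r * Real.cos θ := by simp [pt]
  have hx2 : (pt t r θ) 2 = r * Real.sin θ := by simp [pt]
  rw [(deriv_rad hφ t r θ).deriv]
  have hlt : |t| ^ (3 / 2 : ℝ) < |t| := by
    calc |t| ^ (3 / 2 : ℝ) < |t| ^ (1 : ℝ) :=
          Real.rpow_lt_rpow_of_exponent_gt ht0 ht1 (by norm_num)
      _ = |t| := Real.rpow_one _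
  have hT : TT (pt t r θ) ↔ r < |t| ^ (3 / 2 : ℝ) := by
    unfold TT
    rw [hs, hρ, not_le, not_le]
    exact ⟨fun h => h.2, fun h => ⟨h.trans hlt, h⟩⟩
  have hQ : r * Q φ (pt t r θ) =
      if r < |t| ^ (3 / 2 : ℝ) then 1 / 2 * |t| ^ (-(3 / 2) : ℝ) * r * φ (pt t r θ) else 0 := by
    unfold Q
    by_cases h : r < |t| ^ (3 / 2 : ℝ)
    · rw [indicator_of_mem (show pt t r θ ∈ {x | TT x} from hT.2 h), if_pos h, hs]
      ring
    · rw [indicator_of_notMem (show pt t r θ ∉ {x | TT x} from fun h1 => h (hT.1 h1)), if_neg h,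
        mul_zero]
  have hP : r * P φ (pt t r θ) = -(MM |t| r) *
      ((∇ φ (pt t r θ)) 1 * Real.cos θ + (∇ φ (pt t r θ)) 2 * Real.sin θ) := by
    unfold P FF MM
    rw [hs, hρ]
    by_cases h1 : |t| ≤ r
    · simp only [if_pos h1]
      have e : r ^ (-(9 / 8) : ℝ) * r * r = r ^ (7 / 8 : ℝ) := by
        rw [← Real.rpow_add_one hr.ne', ← Real.rpow_add_one hr.ne']
        norm_num
      simp [hx1, hx2]
      linear_combination (-((∇ φ (pt t r θ)) 1 * Real.cos θ + (∇ φ (pt t r θ)) 2 * Real.sin θ)) * e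
    · by_cases h2 : |t| ^ (3 / 2 : ℝ) ≤ r
      · simp only [if_neg h1, if_pos h2]
        have e : r ^ (-2 : ℝ) * r * r = 1 := by
          rw [← Real.rpow_add_one hr.ne', ← Real.rpow_add_one hr.ne']
          norm_num
        generalize r ^ (-2 : ℝ) = c at e ⊢
        simp [hx1, hx2]
        linear_combination (-(|t| ^ (7 / 8 : ℝ) *
          ((∇ φ (pt t r θ)) 1 * Real.cos θ + (∇ φ (pt t r θ)) 2 * Real.sin θ))) * e
      · simp only [if_neg h1, if_neg h2]
        simp [hx1, hx2]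
        ring
  rw [mul_sub, hP, hQ]

end WKB

open WKB

theorem t_WKB (cyb : S_CYB) (cyl : S_CYL) (rad : S_RAD) (cmp : S_CMP) (gl : S_GL)
    (meas : S_MEAS) : S_WKB := by
  intro φ hφ h0
  have hint : Integrable (fun x => P φ x - Q φ x) (volume : Measure (E 3)) :=
    (integrable_P cmp gl meas hφ).sub (integrable_Q cyl meas hφ)
  refine ⟨hint, ?_⟩
  have h1 := cyb _ hint
  show 0 ≤ ∫ x, (P φ x - Q φ x)
  rw [h1]
  refine integral_nonneg_of_ae ?_
  have hne : ∀ᵐ t : ℝ, t ≠ 0 := by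
    have : (volume : Measure ℝ) {0} = 0 := measure_singleton 0
    exact compl_mem_ae_iff.2 this
  filter_upwards [hne] with t ht
  show 0 ≤ ∫ θ in Ioo (-Real.pi) Real.pi, ∫ r in Ioi (0 : ℝ), r * (P φ (pt t r θ) - Q φ (pt t r θ))
  refine integral_nonneg fun θ => ?_
  show 0 ≤ ∫ r in Ioi (0 : ℝ), r * (P φ (pt t r θ) - Q φ (pt t r θ))
  by_cases ht1 : |t| < 1
  · have ht0 : 0 < |t| := abs_pos.2 ht
    have h2 : ∫ r in Ioi (0 : ℝ), r * (P φ (pt t r θ) - Q φ (pt t r θ)) =
        ∫ r in Ioi (0 : ℝ), (-(MM |t| r) * deriv (fun r => φ (pt t r θ)) r -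
          (if r < |t| ^ (3 / 2 : ℝ) then 1 / 2 * |t| ^ (-(3 / 2) : ℝ) * r * φ (pt t r θ) else 0)) :=
      setIntegral_congr_fun measurableSet_Ioi fun r hr => integrand hφ.1 ht0 ht1 hr
    rw [h2]
    refine rad |t| ht0 ht1 (fun r => φ (pt t r θ)) ?_ ?_ fun r => h0 _
    · have h3 : ContDiff ℝ ∞ (fun r => φ (pt t r θ)) := by
        refine hφ.1.comp ?_
        have h4 : (fun r => pt t r θ) = fun r => (!₂[t, 0, 0] : E 3) +
            r • (!₂[0, Real.cos θ, Real.sin θ] : E 3) := by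
          funext r
          exact pt_affine t r θ
        rw [h4]
        exact contDiff_const.add (contDiff_id.smul contDiff_const)
      exact h3.of_le (by simp)
    · refine HasCompactSupport.intro (isCompact_Icc (a := (-1 : ℝ)) (b := 1)) fun r hr => ?_
      refine image_eq_zero_of_notMem_tsupport fun h5 => hr ?_
      have h6 := hφ.2.2 h5
      rw [mem_ball, dist_zero_right] at h6
      have h7 := norm_pt t r θ
      have h8 := norm_nonneg (pt t r θ)
      rw [mem_Icc, ← abs_le]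
      by_contra hcon
      push Not at hcon
      have h9 : 1 < r ^ 2 := by
        rw [← sq_abs]
        nlinarith
      nlinarith [sq_nonneg t]
  · have h2 : ∀ r : ℝ, r * (P φ (pt t r θ) - Q φ (pt t r θ)) = 0 := by
      intro r
      have h3 : pt t r θ ∉ tsupport φ := by
        intro h5
        have h6 := hφ.2.2 h5
        rw [mem_ball, dist_zero_right] at h6
        have h7 := norm_pt t r θ
        have h8 := norm_nonneg (pt t r θ)
        push Not at ht1
        have h9 : 1 ≤ t ^ 2 := by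
          rw [← sq_abs]
          nlinarith
        nlinarith [sq_nonneg r]
      rw [(zero_off h3).1, (zero_off h3).2, sub_zero, mul_zero]
    simp [h2]

end Pool.Agent.Q64.LP
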