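import Pool.Agent.Q64.LP.ADM
import Pool.Agent.Q64.LP.AV
import Pool.Agent.Q64.LP.AX
import Pool.Agent.Q64.LP.CL
import Pool.Agent.Q64.LP.CMP
import Pool.Agent.Q64.LP.CYL
import Pool.Agent.Q64.LP.DIF
import Pool.Agent.Q64.LP.EI
import Pool.Agent.Q64.LP.GL
import Pool.Agent.Q64.LP.HG
import Pool.Agent.Q64.LP.LL
import Pool.Agent.Q64.LP.MEAS
import Pool.Agent.Q64.LP.MOL
import Pool.Agent.Q64.LP.POI
import Pool.Agent.Q64.LP.PV
import Pool.Agent.Q64.LP.RAD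
import Pool.Agent.Q64.LP.SOB
import Pool.Agent.Q64.LP.STR
import Pool.Agent.Q64.LP.UL
import Pool.Agent.Q64.LP.WK
import Pool.Agent.Q64.LP.WKA
import Pool.Agent.Q64.LP.WKB

/-! Assembly of project LP (helper64, lemmas by helper63, 87, 121, 123, 136, 164, 182, 195). -/

open MeasureTheory Filter Topology Set Metric
open scoped ENNReal NNReal RealInnerProductSpace ContDiff Gradient

namespace Pool.Agent.Q64.LP

theorem t_ALL :
    ∃ (A : E 3 → E 3 → E 3) (u : E 3 → ℝ),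
    Admissible 3 (5 / 4) (12 / 7) (fun _ => 1) ∧
    (5 / 4 : ℝ) ≤ 1 + 1 / (12 / 7) ∧
    IsStructure 3 (5 / 4) (fun _ => 1) A ∧
    IsSupersolution (5 / 4) (fun _ => 1) A (ball 0 1) u ∧
    IntegrableOn u (ball (0 : E 3) 1) ∧
    lowerLim (fun _ => 1) (ball 0 1) u 0 ≤ 0 ∧
    (∀ r : ℝ, 0 < r → r ≤ 1 / 10000 → 1 / 100 ≤ ⨍ y in ball (0 : E 3) r, u y) ∧
    ¬ GoodRepresentative (fun _ => 1) (ball (0 : E 3) 1) u := by
  have av : S_AV := t_AV t_CYL t_MEAS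
  have hg : S_HG := t_HG t_MOL t_LL (t_DIF t_CYL) (t_GL t_CYL t_MEAS) (t_UL t_CYL t_MEAS) t_MEAS
  have adm : S_ADM := t_ADM t_CL t_SOB t_POI
  have wk : S_WK := t_WK (t_WKA t_AXF t_AX t_CYL t_MEAS)
    (t_WKB t_CYB t_CYL t_RAD t_CMP (t_GL t_CYL t_MEAS) t_MEAS)
  obtain ⟨α, β, hα, hcmp⟩ := t_CMP
  obtain ⟨mss, mrr, muu, mGG, mFF, mTT⟩ := t_MEAS
  obtain ⟨A, hA, hAF⟩ := t_STR t_PV 3 (5 / 4) α β (by norm_num) hα (ball 0 1) measurableSet_ball
    GG FF mGG mFF hcmp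
  have hone : wm (fun _ : E 3 => (1 : ℝ)) = (volume : Measure (E 3)) := by
    unfold wm
    simp
  have hlow : lowerLim (fun _ => 1) (ball 0 1) uu 0 ≤ 0 := by
    unfold lowerLim
    rw [hone]
    refine iSup_le fun r => iSup_le fun hr => iSup_le fun _ => t_EI r hr
  refine ⟨A, uu, adm, by norm_num, hA, ⟨GG, hg, ?_⟩, av.1, hlow, av.2, ?_⟩
  · intro φ hφ hnn
    obtain ⟨hi, h0⟩ := wk φ hφ hnn
    have heq : (fun x => ⟪A x (GG x), ∇ φ x⟫) = fun x => ⟪FF x, ∇ φ x⟫ := by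
      funext x
      by_cases hx : x ∈ ball (0 : E 3) 1
      · rw [hAF x hx]
      · have hx' : x ∉ tsupport φ := fun h => hx (hφ.2.2 h)
        have hz : ∇ φ x = 0 := by
          have : fderiv ℝ φ x = 0 := by
            have h1 : x ∉ tsupport (fderiv ℝ φ) := fun h => hx' (tsupport_fderiv_subset ℝ h)
            exact image_eq_zero_of_notMem_tsupport h1
          unfold gradient
          rw [this]; simp
        rw [hz]; simp
    rw [heq]
    exact ⟨hi, h0⟩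
  · rintro ⟨v, -, -, hv⟩
    obtain ⟨hv1, hv2⟩ := hv 0 (mem_ball_self one_pos)
    rw [hone] at hv2
    have hle : v 0 ≤ 0 := by rw [hv1]; exact hlow
    have hge : ((1 / 100 : ℝ) : EReal) ≤ v 0 := by
      refine ge_of_tendsto hv2 ?_
      have : Ioc (0 : ℝ) (1 / 10000) ∈ 𝓝[>] (0 : ℝ) := Ioc_mem_nhdsGT (by norm_num)
      filter_upwards [this] with r hr
      exact_mod_cast av.2 r hr.1 hr.2
    have : ((1 / 100 : ℝ) : EReal) ≤ 0 := hge.trans hle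
    have h2 : (1 / 100 : ℝ) ≤ 0 := by exact_mod_cast this
    norm_num at h2

end Pool.Agent.Q64.LP
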