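import Pool.Agent.Q64.LP.CYL

/-! Job CYB of project LP: the theorem `Pool.Agent.Q64.LP.t_CYB` is in `Pool/Agent/Q64/LP/CYL.lean`. -/
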