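import Pool.Agent.Q64.LP.Stm

/-! # Cylindrical coordinates for functions of `ss x`, `rr x` (project LP, tools for GL, UL, AV) -/

open MeasureTheory Filter Topology Set Metric
open scoped ENNReal NNReal RealInnerProductSpace ContDiff Gradient

namespace Pool.Agent.Q64.LP.Cy

theorem ss_pt (t r θ : ℝ) : ss (pt t r θ) = |t| := by simp [ss, pt]

theorem rr_pt (t r θ : ℝ) (hr : 0 ≤ r) : rr (pt t r θ) = r := by
  have h : rr (pt t r θ) = Real.sqrt ((r * Real.cos θ) ^ 2 + (r * Real.sin θ) ^ 2) := by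
    simp [rr, pt]
  rw [h, show (r * Real.cos θ) ^ 2 + (r * Real.sin θ) ^ 2 = r ^ 2 by
    nlinarith [Real.sin_sq_add_cos_sq θ], Real.sqrt_sq hr]

theorem lint_abs (F : ℝ → ℝ≥0∞) : ∫⁻ t, F |t| = 2 * ∫⁻ t in Ioi (0 : ℝ), F t := by
  have h1 : ∫⁻ t in Ioi (0 : ℝ), F |t| = ∫⁻ t in Ioi (0 : ℝ), F t :=
    setLIntegral_congr_fun measurableSet_Ioi (fun t ht => by rw [abs_of_pos ht])
  have h2 : ∫⁻ t in Iic (0 : ℝ), F |t| = ∫⁻ t in Ioi (0 : ℝ), F t := by
    have e : (Iio (0 : ℝ)) = (MeasurableEquiv.neg ℝ) ⁻¹' (Ioi 0) := by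
      ext x; simp
    rw [← setLIntegral_congr (Iio_ae_eq_Iic), e]
    rw [← h1]
    have := (Measure.measurePreserving_neg (volume : Measure ℝ)).setLIntegral_comp_preimage_emb
      (MeasurableEquiv.neg ℝ).measurableEmbedding (fun t => F |t|) (Ioi 0)
    rw [← this]
    refine setLIntegral_congr_fun ?_ (fun t _ => by simp)
    exact (MeasurableEquiv.neg ℝ).measurable measurableSet_Ioi
  rw [← lintegral_add_compl (fun t => F |t|) (measurableSet_Ioi (a := (0 : ℝ))), compl_Ioi, h1, h2,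
    two_mul]

theorem cyl_lint (cyl : S_CYL) (meas : S_MEAS) (H : ℝ → ℝ → ℝ≥0∞)
    (hH : Measurable (Function.uncurry H)) :
    ∫⁻ x : E 3, H (ss x) (rr x) = ENNReal.ofReal (4 * Real.pi) *
      ∫⁻ s in Ioi (0 : ℝ), ∫⁻ r in Ioi (0 : ℝ), ENNReal.ofReal r * H s r := by
  have hm : Measurable (fun x : E 3 => H (ss x) (rr x)) :=
    hH.comp (meas.1.prodMk meas.2.1)
  rw [cyl _ hm]
  have e1 : ∀ t : ℝ, (∫⁻ θ in Ioo (-Real.pi) Real.pi, ∫⁻ r in Ioi (0 : ℝ),
      ENNReal.ofReal r * H (ss (pt t r θ)) (rr (pt t r θ))) =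
      ENNReal.ofReal (2 * Real.pi) * ∫⁻ r in Ioi (0 : ℝ), ENNReal.ofReal r * H |t| r := by
    intro t
    have : ∀ θ : ℝ, (∫⁻ r in Ioi (0 : ℝ),
      ENNReal.ofReal r * H (ss (pt t r θ)) (rr (pt t r θ))) =
        ∫⁻ r in Ioi (0 : ℝ), ENNReal.ofReal r * H |t| r := by
      intro θ
      refine setLIntegral_congr_fun measurableSet_Ioi (fun r hr => ?_)
      simp only [ss_pt, rr_pt t r θ (le_of_lt hr)]
    simp only [this]
    rw [lintegral_const, Measure.restrict_apply MeasurableSet.univ, univ_inter, Real.volume_Ioo,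
      mul_comm]
    congr 2
    ring
  simp only [e1]
  rw [lintegral_const_mul', lint_abs (fun t => ∫⁻ r in Ioi (0 : ℝ), ENNReal.ofReal r * H t r),
    ← mul_assoc]
  · congr 1
    rw [show (2 : ℝ≥0∞) = ENNReal.ofReal 2 by simp, ← ENNReal.ofReal_mul (by positivity)]
    congr 1
    ring
  · exact ENNReal.ofReal_ne_top

theorem norm_sq3 (a b c : ℝ) : ‖(!₂[a, b, c] : E 3)‖ ^ 2 = a ^ 2 + b ^ 2 + c ^ 2 := by
  rw [EuclideanSpace.real_norm_sq_eq]
  simp [Fin.sum_univ_three]

theorem rr_sq (x : E 3) : rr x ^ 2 = x 1 ^ 2 + x 2 ^ 2 :=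
  Real.sq_sqrt (by positivity)

theorem rr_nonneg (x : E 3) : 0 ≤ rr x := Real.sqrt_nonneg _

theorem ss_nonneg (x : E 3) : 0 ≤ ss x := abs_nonneg _

theorem norm_sq (x : E 3) : ‖x‖ ^ 2 = ss x ^ 2 + rr x ^ 2 := by
  rw [EuclideanSpace.real_norm_sq_eq, rr_sq, ss, sq_abs]
  simp [Fin.sum_univ_three, add_assoc]

theorem ss_lt {x : E 3} {r : ℝ} (hx : x ∈ ball (0 : E 3) r) : ss x < r := by
  have h := norm_sq x
  have h1 : ‖x‖ < r := by simpa using hx
  have := norm_nonneg x
  nlinarith [ss_nonneg x, rr_nonneg x, sq_nonneg (rr x)]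

theorem rr_lt {x : E 3} {r : ℝ} (hx : x ∈ ball (0 : E 3) r) : rr x < r := by
  have h := norm_sq x
  have h1 : ‖x‖ < r := by simpa using hx
  have := norm_nonneg x
  nlinarith [ss_nonneg x, rr_nonneg x, sq_nonneg (ss x)]

/-- the tail integral of a power -/
theorem lint_tail (a c : ℝ) (ha : a < -1) (hc : 0 < c) :
    ∫⁻ r in Ioi c, ENNReal.ofReal (r ^ a) = ENNReal.ofReal (-c ^ (a + 1) / (a + 1)) := by
  rw [← ofReal_integral_eq_lintegral_ofReal (integrableOn_Ioi_rpow_of_lt ha hc),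
    integral_Ioi_rpow_of_lt ha hc]
  refine (ae_restrict_mem measurableSet_Ioi).mono (fun r hr => ?_)
  exact Real.rpow_nonneg (hc.trans hr).le _

/-- the inner (radial) integral of a function with the three regions -/
theorem inner_le (δ s A B c D : ℝ) (hs : 0 < s) (hc : c < -2) (hA : 0 ≤ A)
    (hB : 0 ≤ B) (hD : 0 ≤ D) (X : ℝ → ℝ≥0∞)
    (hX : ∀ r, 0 < r → r < δ → ENNReal.ofReal r * X r ≤ ENNReal.ofReal A) :
    ∫⁻ r in Ioi (0 : ℝ), ENNReal.ofReal r * (if r < δ then (if s ≤ r then X r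
      else if s ^ (3 / 2 : ℝ) ≤ r then ENNReal.ofReal (B * r ^ c) else ENNReal.ofReal D) else 0)
    ≤ ENNReal.ofReal (A * δ) + ENNReal.ofReal (B * (-(s ^ (3 / 2 : ℝ)) ^ (c + 2) / (c + 2)))
      + ENNReal.ofReal (D * s ^ (3 / 2 : ℝ) * s ^ (3 / 2 : ℝ)) := by
  have hs0 : 0 < s ^ (3 / 2 : ℝ) := Real.rpow_pos_of_pos hs _
  set f1 : ℝ → ℝ≥0∞ := (Ioo (0 : ℝ) δ).indicator (fun _ => ENNReal.ofReal A) with hf1
  set f2 : ℝ → ℝ≥0∞ := (Ici (s ^ (3 / 2 : ℝ))).indicator
    (fun r => ENNReal.ofReal B * ENNReal.ofReal (r ^ (c + 1))) with hf2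
  set f3 : ℝ → ℝ≥0∞ := (Ioo (0 : ℝ) (s ^ (3 / 2 : ℝ))).indicator
    (fun _ => ENNReal.ofReal (D * s ^ (3 / 2 : ℝ))) with hf3
  have m1 : Measurable f1 := measurable_const.indicator measurableSet_Ioo
  have m3 : Measurable f3 := measurable_const.indicator measurableSet_Ioo
  have m2 : Measurable f2 := by
    refine Measurable.indicator ?_ measurableSet_Ici
    fun_prop
  have key : ∫⁻ r in Ioi (0 : ℝ), ENNReal.ofReal r * (if r < δ then (if s ≤ r then X r
      else if s ^ (3 / 2 : ℝ) ≤ r then ENNReal.ofReal (B * r ^ c) else ENNReal.ofReal D) else 0)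
      ≤ ∫⁻ r in Ioi (0 : ℝ), ((f1 r + f2 r) + f3 r) := by
    refine setLIntegral_mono ((m1.add m2).add m3) (fun r hr => ?_)
    have hr0 : (0 : ℝ) < r := hr
    by_cases h1 : r < δ
    · rw [if_pos h1]
      by_cases h2 : s ≤ r
      · rw [if_pos h2]
        refine (hX r hr0 h1).trans ?_
        have : f1 r = ENNReal.ofReal A := by
          rw [hf1, indicator_of_mem]; exact ⟨hr0, h1⟩
        rw [this, add_assoc]
        exact le_self_add
      · rw [if_neg h2]
        by_cases h3 : s ^ (3 / 2 : ℝ) ≤ r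
        · rw [if_pos h3]
          have : f2 r = ENNReal.ofReal B * ENNReal.ofReal (r ^ (c + 1)) := by
            rw [hf2, indicator_of_mem]; exact h3
          rw [this]
          have e : ENNReal.ofReal r * ENNReal.ofReal (B * r ^ c) =
              ENNReal.ofReal B * ENNReal.ofReal (r ^ (c + 1)) := by
            rw [← ENNReal.ofReal_mul hr0.le, ← ENNReal.ofReal_mul hB, Real.rpow_add_one hr0.ne']
            congr 1
            ring
          rw [e]
          exact (le_add_left le_rfl).trans le_self_add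
        · rw [if_neg h3]
          push Not at h3
          have : f3 r = ENNReal.ofReal (D * s ^ (3 / 2 : ℝ)) := by
            rw [hf3, indicator_of_mem]; exact ⟨hr0, h3⟩
          rw [this]
          refine le_trans ?_ (le_add_left le_rfl)
          rw [← ENNReal.ofReal_mul hr0.le]
          refine ENNReal.ofReal_le_ofReal ?_
          rw [mul_comm]
          exact mul_le_mul_of_nonneg_left h3.le hD
    · rw [if_neg h1, mul_zero]
      exact zero_le
  refine key.trans ?_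
  rw [lintegral_add_right _ m3, lintegral_add_left m1]
  refine add_le_add (add_le_add ?_ ?_) ?_
  · refine (setLIntegral_le_lintegral _ _).trans ?_
    rw [hf1, lintegral_indicator measurableSet_Ioo, lintegral_const, Measure.restrict_apply
      MeasurableSet.univ, univ_inter, Real.volume_Ioo, sub_zero, ← ENNReal.ofReal_mul hA]
  · refine (setLIntegral_le_lintegral _ _).trans ?_
    rw [hf2, lintegral_indicator measurableSet_Ici, lintegral_const_mul' _ _
      ENNReal.ofReal_ne_top, ← setLIntegral_congr Ioi_ae_eq_Ici,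
      lint_tail (c + 1) _ (by linarith) hs0, ← ENNReal.ofReal_mul hB]
    refine ENNReal.ofReal_le_ofReal ?_
    rw [show c + 1 + 1 = c + 2 by ring]
  · refine (setLIntegral_le_lintegral _ _).trans ?_
    rw [hf3, lintegral_indicator measurableSet_Ioo, lintegral_const, Measure.restrict_apply
      MeasurableSet.univ, univ_inter, Real.volume_Ioo, sub_zero,
      ← ENNReal.ofReal_mul (by positivity)]

end Pool.Agent.Q64.LP.Cy
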