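import Pool.Agent.Q64.LP.Stm

open MeasureTheory Filter Topology Set Metric
open scoped ENNReal NNReal RealInnerProductSpace ContDiff Gradient

namespace Pool.Agent.Q64.LP

namespace MAIN

theorem wm_one {n : ℕ} : wm (fun _ : E n => (1 : ℝ)) = (volume : Measure (E n)) := by
  unfold wm
  simp

end MAIN

theorem t_MAIN (str : S_STR) (adm : S_ADM) (meas : S_MEAS) (cmp : S_CMP) (wk : S_WK) (hg : S_HG)
    (av : S_AV) (ei : S_EI) : S_MAIN := by
  obtain ⟨α, β, hα, hcmp⟩ := cmp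
  obtain ⟨mss, mrr, muu, mGG, mFF, mTT⟩ := meas
  obtain ⟨A, hA, hAF⟩ := str 3 (5 / 4) α β (by norm_num) hα (ball 0 1) measurableSet_ball GG FF
    mGG mFF hcmp
  refine ⟨fun _ => 1, 12 / 7, A, uu, adm, by norm_num, hA, ⟨GG, hg, ?_⟩, ?_⟩
  · intro φ hφ hnn
    obtain ⟨hi, h0⟩ := wk φ hφ hnn
    have heq : (fun x => ⟪A x (GG x), ∇ φ x⟫) = fun x => ⟪FF x, ∇ φ x⟫ := by
      funext x
      by_cases hx : x ∈ ball (0 : E 3) 1
      · rw [hAF x hx]
      · have hx' : x ∉ tsupport φ := fun h => hx (hφ.2.2 h)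
        have hz : ∇ φ x = 0 := by
          have : fderiv ℝ φ x = 0 := by
            have h1 : x ∉ tsupport (fderiv ℝ φ) := fun h => hx' (tsupport_fderiv_subset ℝ h)
            exact image_eq_zero_of_notMem_tsupport h1
          unfold gradient
          rw [this]; simp
        rw [hz]; simp
    rw [heq]
    exact ⟨hi, h0⟩
  · rintro ⟨v, -, -, hv⟩
    obtain ⟨hv1, hv2⟩ := hv 0 (mem_ball_self one_pos)
    rw [MAIN.wm_one] at hv2
    have hle : v 0 ≤ 0 := by
      rw [hv1]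
      unfold lowerLim
      rw [MAIN.wm_one]
      refine iSup_le fun r => iSup_le fun hr => iSup_le fun _ => ei r hr
    have hge : ((1 / 100 : ℝ) : EReal) ≤ v 0 := by
      refine ge_of_tendsto hv2 ?_
      have : Ioc (0 : ℝ) (1 / 10000) ∈ 𝓝[>] (0 : ℝ) := Ioc_mem_nhdsGT (by norm_num)
      filter_upwards [this] with r hr
      exact_mod_cast av.2 r hr.1 hr.2
    have : ((1 / 100 : ℝ) : EReal) ≤ 0 := hge.trans hle
    have h2 : (1 / 100 : ℝ) ≤ 0 := by exact_mod_cast this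
    norm_num at h2

end Pool.Agent.Q64.LP
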