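import Pool.Agent.Q64.LP.Stm

/-! Job RAD of project LP: integration by parts in the radial direction. -/

set_option autoImplicit false

open MeasureTheory Filter Topology Set Metric
open scoped ENNReal NNReal

namespace Pool.Agent.Q64.LP

namespace RAD

/-- Integral over an interval of a function which is a derivative inside. -/
theorem piece {a b : ℝ} (hab : a ≤ b) {F G H : ℝ → ℝ} (h : ∀ r ∈ Ioo a b, F r = G r)
    (hd : ∀ r ∈ Icc a b, HasDerivAt H (G r) r) (hG : ContinuousOn G (Icc a b)) :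
    ∫ r in Ioc a b, F r = H b - H a := by
  rw [integral_Ioc_eq_integral_Ioo, setIntegral_congr_fun measurableSet_Ioo h,
    ← integral_Ioc_eq_integral_Ioo, ← intervalIntegral.integral_of_le hab]
  refine intervalIntegral.integral_eq_sub_of_hasDerivAt (fun r hr => ?_) ?_
  · rw [uIcc_of_le hab] at hr
    exact hd r hr
  · refine ContinuousOn.intervalIntegrable ?_
    rwa [uIcc_of_le hab]

end RAD

open RAD

/-- JOB RAD -/
theorem t_RAD : S_RAD := by
  intro s hs hs1 ψ hψ hc h0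
  set F : ℝ → ℝ := fun r => (-(MM s r) * deriv ψ r -
    (if r < s ^ (3 / 2 : ℝ) then 1 / 2 * s ^ (-(3 / 2) : ℝ) * r * ψ r else 0)) with hF
  by_cases hi : IntegrableOn F (Ioi 0)
  swap
  · rw [integral_undef hi]
  set b : ℝ := s ^ (3 / 2 : ℝ) with hb
  have hb0 : 0 < b := Real.rpow_pos_of_pos hs _
  have hbs : b < s := by
    have := Real.rpow_lt_rpow_of_exponent_gt hs hs1 (show (1 : ℝ) < 3 / 2 by norm_num)
    rwa [Real.rpow_one] at this
  have hdψ : ∀ r, HasDerivAt ψ (deriv ψ r) r := fun r =>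
    (hψ.differentiable (by norm_num)).differentiableAt.hasDerivAt
  have hcd : Continuous (deriv ψ) := hψ.continuous_deriv (by norm_num)
  have hcψ : Continuous ψ := hψ.continuous
  obtain ⟨R₀, hR₀, hz⟩ := hc.exists_pos_le_norm
  set R : ℝ := max R₀ s + 1 with hR
  have hRs : s < R := by have := le_max_right R₀ s; linarith
  have hzR : ∀ r, R - 1 ≤ r → ψ r = 0 := by
    intro r hr
    refine hz r (le_trans ?_ (le_abs_self r))
    have := le_max_left R₀ s
    linarith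
  have hzd : ∀ r, R ≤ r → deriv ψ r = 0 := by
    intro r hr
    have : ψ =ᶠ[𝓝 r] fun _ => 0 := by
      filter_upwards [eventually_gt_nhds (show R - 1 < r by linarith)] with t ht
      exact hzR t ht.le
    rw [this.deriv_eq, deriv_const]
  have e1 : Ioi (0 : ℝ) = Ioc 0 b ∪ (Ioc b s ∪ (Ioc s R ∪ Ioi R)) := by
    rw [Ioc_union_Ioi_eq_Ioi hRs.le, Ioc_union_Ioi_eq_Ioi hbs.le, Ioc_union_Ioi_eq_Ioi hb0.le]
  have hs3 : Ioc s R ∪ Ioi R = Ioi s := Ioc_union_Ioi_eq_Ioi hRs.le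
  have hs2 : Ioc b s ∪ Ioi s = Ioi b := Ioc_union_Ioi_eq_Ioi hbs.le
  have sub0 : ∀ {c : ℝ}, 0 ≤ c → Ioi c ⊆ Ioi (0 : ℝ) := fun h => Ioi_subset_Ioi h
  have i1 : IntegrableOn F (Ioc 0 b) := hi.mono_set Ioc_subset_Ioi_self
  have i2 : IntegrableOn F (Ioc b s) := hi.mono_set (Ioc_subset_Ioi_self.trans (sub0 hb0.le))
  have i3 : IntegrableOn F (Ioc s R) := hi.mono_set (Ioc_subset_Ioi_self.trans (sub0 hs.le))
  have i4 : IntegrableOn F (Ioi R) := hi.mono_set (sub0 (hs.trans hRs).le)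
  have hsplit : ∫ r in Ioi (0 : ℝ), F r = (∫ r in Ioc 0 b, F r) + ((∫ r in Ioc b s, F r) +
      ((∫ r in Ioc s R, F r) + ∫ r in Ioi R, F r)) := by
    rw [e1, setIntegral_union _ (measurableSet_Ioc.union (measurableSet_Ioc.union measurableSet_Ioi))
      i1 (i2.union (i3.union i4)), setIntegral_union _ (measurableSet_Ioc.union measurableSet_Ioi)
      i2 (i3.union i4), setIntegral_union _ measurableSet_Ioi i3 i4]
    · exact Ioc_disjoint_Ioi le_rfl
    · rw [hs3]; exact Ioc_disjoint_Ioi le_rfl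
    · rw [hs3, hs2]; exact Ioc_disjoint_Ioi le_rfl
  have c1 : ∫ r in Ioc 0 b, F r = -(1 / 4 * s ^ (3 / 2 : ℝ)) * ψ b := by
    rw [piece hb0.le (F := F)
      (G := fun r => -(1 / 4 * s ^ (-(3 / 2) : ℝ) * r ^ 2) * deriv ψ r -
        1 / 2 * s ^ (-(3 / 2) : ℝ) * r * ψ r)
      (H := fun r => -(1 / 4 * s ^ (-(3 / 2) : ℝ) * r ^ 2) * ψ r)]
    · have e : s ^ (-(3 / 2) : ℝ) * b ^ 2 = s ^ (3 / 2 : ℝ) := by
        rw [hb, ← Real.rpow_natCast, ← Real.rpow_mul hs.le, ← Real.rpow_add hs]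
        norm_num
      have e' : s ^ (3 / 2 : ℝ) = s ^ (-(3 / 2) : ℝ) * b ^ 2 := e.symm
      rw [e']
      ring
    · intro r hr
      have h1 : ¬ s ≤ r := not_le.2 (hr.2.trans hbs)
      have h2 : ¬ s ^ (3 / 2 : ℝ) ≤ r := not_le.2 hr.2
      have h3 : r < s ^ (3 / 2 : ℝ) := hr.2
      simp only [hF, MM, if_neg h1, if_neg h2]
      rw [if_pos (show r < b from h3)]
    · intro r _
      have h1 : HasDerivAt (fun r : ℝ => -(1 / 4 * s ^ (-(3 / 2) : ℝ) * r ^ 2))
          (-(1 / 4 * s ^ (-(3 / 2) : ℝ) * (2 * r))) r := by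
        have := (hasDerivAt_pow 2 r).const_mul (1 / 4 * s ^ (-(3 / 2) : ℝ))
        have := this.neg
        refine this.congr_deriv ?_
        norm_num
      refine (h1.mul (hdψ r)).congr_deriv ?_
      ring
    · exact Continuous.continuousOn (by fun_prop)
  have c2 : ∫ r in Ioc b s, F r = -(s ^ (7 / 8 : ℝ)) * ψ s + s ^ (7 / 8 : ℝ) * ψ b := by
    rw [piece hbs.le (F := F) (G := fun r => -(s ^ (7 / 8 : ℝ)) * deriv ψ r)
      (H := fun r => -(s ^ (7 / 8 : ℝ)) * ψ r)]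
    · ring
    · intro r hr
      have h1 : ¬ s ≤ r := not_le.2 hr.2
      have h2 : s ^ (3 / 2 : ℝ) ≤ r := hr.1.le
      simp only [hF, MM, if_neg h1, if_pos h2]
      rw [if_neg (not_lt.2 hr.1.le), sub_zero]
    · intro r _
      exact (hdψ r).const_mul _
    · exact Continuous.continuousOn (by fun_prop)
  have hne : ∀ r ∈ Icc s R, r ≠ 0 := fun r hr => (hs.trans_le hr.1).ne'
  have hp1 : ContinuousOn (fun r : ℝ => r ^ (7 / 8 : ℝ)) (Icc s R) := fun r hr =>
    (Real.continuousAt_rpow_const r _ (Or.inl (hne r hr))).continuousWithinAt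
  have hp2 : ContinuousOn (fun r : ℝ => r ^ (-(1 / 8) : ℝ)) (Icc s R) := fun r hr =>
    (Real.continuousAt_rpow_const r _ (Or.inl (hne r hr))).continuousWithinAt
  have c3 : s ^ (7 / 8 : ℝ) * ψ s ≤ ∫ r in Ioc s R, F r := by
    have hG : ContinuousOn (fun r : ℝ => -(r ^ (7 / 8 : ℝ)) * deriv ψ r -
        7 / 8 * r ^ (-(1 / 8) : ℝ) * ψ r) (Icc s R) :=
      (hp1.neg.mul hcd.continuousOn).sub ((continuousOn_const.mul hp2).mul hcψ.continuousOn)
    have h1 := piece hRs.le (F := fun r : ℝ => -(r ^ (7 / 8 : ℝ)) * deriv ψ r -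
        7 / 8 * r ^ (-(1 / 8) : ℝ) * ψ r)
      (G := fun r : ℝ => -(r ^ (7 / 8 : ℝ)) * deriv ψ r - 7 / 8 * r ^ (-(1 / 8) : ℝ) * ψ r)
      (H := fun r => -(r ^ (7 / 8 : ℝ)) * ψ r) (fun _ _ => rfl) (fun r hr => by
        have h2 : HasDerivAt (fun t : ℝ => t ^ (7 / 8 : ℝ)) (7 / 8 * r ^ (7 / 8 - 1 : ℝ)) r :=
          Real.hasDerivAt_rpow_const (Or.inl (hne r hr))
        have e : (7 / 8 - 1 : ℝ) = -(1 / 8) := by norm_num
        rw [e] at h2
        refine (h2.neg.mul (hdψ r)).congr_deriv ?_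
        simp only [Pi.neg_apply]
        ring) hG
    have h2 : ψ R = 0 := hzR R (by linarith)
    simp only [h2] at h1
    have h3 : s ^ (7 / 8 : ℝ) * ψ s = ∫ r in Ioc s R, (-(r ^ (7 / 8 : ℝ)) * deriv ψ r -
        7 / 8 * r ^ (-(1 / 8) : ℝ) * ψ r) := by
      rw [h1]; ring
    rw [h3]
    refine setIntegral_mono_on ?_ i3 measurableSet_Ioc fun r hr => ?_
    · exact (hG.mono Subset.rfl).integrableOn_Icc.mono_set Ioc_subset_Icc_self
    · have h4 : 0 < r := hs.trans hr.1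
      have h5 : ¬ r < b := not_lt.2 (hbs.le.trans hr.1.le)
      simp only [hF, MM, if_pos hr.1.le]
      rw [if_neg h5, sub_zero]
      have : 0 ≤ 7 / 8 * r ^ (-(1 / 8) : ℝ) * ψ r :=
        mul_nonneg (mul_nonneg (by norm_num) (Real.rpow_nonneg h4.le _)) (h0 r)
      linarith
  have c4 : ∫ r in Ioi R, F r = 0 := by
    refine setIntegral_eq_zero_of_forall_eq_zero fun r hr => ?_
    have h5 : ¬ r < b := not_lt.2 ((hbs.trans hRs).le.trans (le_of_lt hr))
    simp only [hF]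
    rw [hzd r (le_of_lt hr), if_neg h5, mul_zero, sub_zero]
  have c5 : s ^ (3 / 2 : ℝ) ≤ s ^ (7 / 8 : ℝ) :=
    Real.rpow_le_rpow_of_exponent_ge hs hs1.le (by norm_num)
  rw [hsplit, c1, c2, c4]
  have h6 := mul_nonneg (sub_nonneg.2 c5) (h0 b)
  have h7 := mul_nonneg hb0.le (h0 b)
  rw [← hb] at c5 h6 ⊢
  nlinarith [h6, h7, c3]

end Pool.Agent.Q64.LP
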