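import Mathlib

/-!
# Project LP (helper64): MP_8e48cc_an, Lebesgue points of weighted supersolutions for small p. DISPROOF.

`n = 3`, `p = 5/4`, `w = 1`, Sobolev exponent `κ = n/(n-p) = 12/7`, so `p ≤ 1 + 1/κ = 19/12`.
With `s = |x₀|`, `ρ = √(x₁² + x₂²)` the supersolution in the unit ball is
* region O (`s ≤ ρ`):            `u = -2 √ρ`
* region K (`s^(3/2) ≤ ρ < s`):  `u = s^(7/2) / (3 ρ³) - (7/3) √s`
* region T (`ρ < s^(3/2)`):      `u = 1/(3 s) - (7/3) √s`.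
`GG` is its gradient and `FF = A(x, ∇u)` the flux, a field with `-div FF ≥ 0`.
The essential lower limit of `u` at `0` is `≤ 0` but the averages over `B(0,r)` are `≥ 1/100`.
-/

open MeasureTheory Filter Topology Set Metric
open scoped ENNReal NNReal RealInnerProductSpace ContDiff Gradient

namespace Pool.Agent.Q64.LP

abbrev E (n : ℕ) := EuclideanSpace ℝ (Fin n)

/-- the measure `dμ = w dx` -/
noncomputable def wm {n : ℕ} (w : E n → ℝ) : Measure (E n) :=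
  (volume : Measure (E n)).withDensity (fun x => ENNReal.ofReal (w x))

/-- `φ ∈ C_0^∞(D)` -/
def IsTest {n : ℕ} (D : Set (E n)) (φ : E n → ℝ) : Prop :=
  ContDiff ℝ ∞ φ ∧ HasCompactSupport φ ∧ tsupport φ ⊆ D

/-- `p`-admissible weight; `κ > 1` is the exponent of the Sobolev inequality (III). -/
structure Admissible (n : ℕ) (p κ : ℝ) (w : E n → ℝ) : Prop where
  one_lt : 1 < κ
  meas : Measurable w
  nonneg : ∀ x, 0 ≤ w x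
  /-- (I) -/
  pos : ∀ᵐ x ∂(volume : Measure (E n)), 0 < w x
  locInt : LocallyIntegrable w (volume : Measure (E n))
  doubling : ∃ C : ℝ≥0, ∀ (x : E n) (r : ℝ), 0 < r → wm w (ball x (2 * r)) ≤ C * wm w (ball x r)
  /-- (II) -/
  closable : ∀ (D : Set (E n)), IsOpen D → ∀ (φ : ℕ → E n → ℝ) (v : E n → E n),
    (∀ i, IsTest D (φ i)) → Measurable v →
    Tendsto (fun i => ∫⁻ x in D, ENNReal.ofReal (|φ i x| ^ p) ∂(wm w)) atTop (𝓝 0) →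
    Tendsto (fun i => ∫⁻ x in D, ENNReal.ofReal (‖∇ (φ i) x - v x‖ ^ p) ∂(wm w)) atTop (𝓝 0) →
    ∀ᵐ x ∂((wm w).restrict D), v x = 0
  /-- (III) -/
  sobolev : ∃ C : ℝ, 0 < C ∧ ∀ (x : E n) (r : ℝ), 0 < r → ∀ φ : E n → ℝ, IsTest (ball x r) φ →
    ((∫⁻ y in ball x r, ENNReal.ofReal (|φ y| ^ (κ * p)) ∂(wm w)) / wm w (ball x r)) ^ (1 / (κ * p))
      ≤ ENNReal.ofReal (C * r) *
        ((∫⁻ y in ball x r, ENNReal.ofReal (‖∇ φ y‖ ^ p) ∂(wm w)) / wm w (ball x r)) ^ (1 / p)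
  /-- (IV) -/
  poincare : ∃ C : ℝ, 0 < C ∧ ∀ (x : E n) (r : ℝ), 0 < r → ∀ φ : E n → ℝ,
    ContDiffOn ℝ ∞ φ (ball x r) → (∃ M : ℝ, ∀ y ∈ ball x r, |φ y| ≤ M) →
    ∫⁻ y in ball x r, ENNReal.ofReal (|φ y - ⨍ z in ball x r, φ z ∂(wm w)| ^ p) ∂(wm w)
      ≤ ENNReal.ofReal (C * r ^ p) * ∫⁻ y in ball x r, ENNReal.ofReal (‖∇ φ y‖ ^ p) ∂(wm w)

/-- the structure conditions for `A(x,h)` with the weight `w` -/
structure IsStructure (n : ℕ) (p : ℝ) (w : E n → ℝ) (A : E n → E n → E n) : Prop where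
  meas : ∀ h, Measurable (fun x => A x h)
  cont : ∀ x, Continuous (A x)
  bounds : ∃ α β : ℝ, 0 < α ∧ α ≤ β ∧ ∀ x h : E n,
    α * w x * ‖h‖ ^ p ≤ ⟪A x h, h⟫ ∧ ‖A x h‖ ≤ β * w x * ‖h‖ ^ (p - 1)
  mono : ∀ x h₁ h₂ : E n, h₁ ≠ h₂ → 0 < ⟪A x h₁ - A x h₂, h₁ - h₂⟫
  homog : ∀ (x h : E n) (t : ℝ), t ≠ 0 → A x (t • h) = (t * |t| ^ (p - 2)) • A x h

/-- `u ∈ H^{1,p}_loc(Ω; μ)` with gradient `G`: on every compact `K ⊆ Ω` the pair `(u, G)` is the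
limit in `L^p(K; μ)` of `(φ_i, ∇φ_i)` with smooth `φ_i`. -/
def HasGrad {n : ℕ} (p : ℝ) (w : E n → ℝ) (Ω : Set (E n)) (u : E n → ℝ) (G : E n → E n) : Prop :=
  Measurable u ∧ Measurable G ∧ ∀ K : Set (E n), IsCompact K → K ⊆ Ω → ∃ φ : ℕ → E n → ℝ,
    (∀ i, ContDiff ℝ ∞ (φ i)) ∧
    Tendsto (fun i => ∫⁻ x in K, ENNReal.ofReal (|φ i x - u x| ^ p) ∂(wm w)) atTop (𝓝 0) ∧
    Tendsto (fun i => ∫⁻ x in K, ENNReal.ofReal (‖∇ (φ i) x - G x‖ ^ p) ∂(wm w)) atTop (𝓝 0)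

/-- `u` is a supersolution of `-div A(x,∇u) = 0` in `Ω` -/
def IsSupersolution {n : ℕ} (p : ℝ) (w : E n → ℝ) (A : E n → E n → E n) (Ω : Set (E n))
    (u : E n → ℝ) : Prop :=
  ∃ G : E n → E n, HasGrad p w Ω u G ∧ ∀ φ : E n → ℝ, IsTest Ω φ → (∀ x, 0 ≤ φ x) →
    Integrable (fun x => ⟪A x (G x), ∇ φ x⟫) (volume : Measure (E n)) ∧
    0 ≤ ∫ x, ⟪A x (G x), ∇ φ x⟫

/-- the essential lower limit: supremum over `r > 0` of the essential infimum of `u` on `B(x,r)`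
(with `Ω` open, radii with `B(x,r) ⊆ Ω`) -/
noncomputable def lowerLim {n : ℕ} (w : E n → ℝ) (Ω : Set (E n)) (u : E n → ℝ) (x : E n) : EReal :=
  ⨆ (r : ℝ) (_ : 0 < r) (_ : ball x r ⊆ Ω),
    essInf (fun y => ((u y : ℝ) : EReal)) ((wm w).restrict (ball x r))

/-- a representative with both properties of the question exists -/
def GoodRepresentative {n : ℕ} (w : E n → ℝ) (Ω : Set (E n)) (u : E n → ℝ) : Prop :=
  ∃ v : E n → EReal, LowerSemicontinuousOn v Ω ∧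
    (∀ᵐ x ∂((wm w).restrict Ω), v x = ((u x : ℝ) : EReal)) ∧
    ∀ x ∈ Ω, v x = lowerLim w Ω u x ∧
      Tendsto (fun r : ℝ => ((⨍ y in ball x r, u y ∂(wm w) : ℝ) : EReal)) (𝓝[>] 0) (𝓝 (v x))

/-! ## The example -/

noncomputable def ss (x : E 3) : ℝ := |x 0|
noncomputable def rr (x : E 3) : ℝ := Real.sqrt (x 1 ^ 2 + x 2 ^ 2)

/-- the supersolution (in the unit ball) -/
noncomputable def uu (x : E 3) : ℝ :=
  if ss x ≤ rr x then -2 * Real.sqrt (rr x)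
  else if ss x ^ (3 / 2 : ℝ) ≤ rr x then
    ss x ^ (7 / 2 : ℝ) / (3 * rr x ^ 3) - 7 / 3 * Real.sqrt (ss x)
  else 1 / (3 * ss x) - 7 / 3 * Real.sqrt (ss x)

/-- its gradient, `(axial part, radial part * x'/ρ)` -/
noncomputable def GG (x : E 3) : E 3 :=
  if ss x ≤ rr x then
    !₂[0, -(rr x ^ (-(3 / 2) : ℝ)) * x 1, -(rr x ^ (-(3 / 2) : ℝ)) * x 2]
  else if ss x ^ (3 / 2 : ℝ) ≤ rr x then
    !₂[SignType.sign (x 0) * (7 / 6 * (ss x ^ (5 / 2 : ℝ) * rr x ^ (-3 : ℝ) - ss x ^ (-(1 / 2) : ℝ))),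
      -(ss x ^ (7 / 2 : ℝ) * rr x ^ (-5 : ℝ)) * x 1,
      -(ss x ^ (7 / 2 : ℝ) * rr x ^ (-5 : ℝ)) * x 2]
  else
    !₂[SignType.sign (x 0) * (-(1 / 3) * ss x ^ (-2 : ℝ) - 7 / 6 * ss x ^ (-(1 / 2) : ℝ)), 0, 0]

/-- the flux -/
noncomputable def FF (x : E 3) : E 3 :=
  if ss x ≤ rr x then
    !₂[0, -(rr x ^ (-(9 / 8) : ℝ)) * x 1, -(rr x ^ (-(9 / 8) : ℝ)) * x 2]
  else if ss x ^ (3 / 2 : ℝ) ≤ rr x then
    !₂[0, -(ss x ^ (7 / 8 : ℝ) * rr x ^ (-2 : ℝ)) * x 1,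
      -(ss x ^ (7 / 8 : ℝ) * rr x ^ (-2 : ℝ)) * x 2]
  else
    !₂[-(SignType.sign (x 0) * ss x ^ (-(1 / 2) : ℝ)), -(1 / 4 * ss x ^ (-(3 / 2) : ℝ)) * x 1,
      -(1 / 4 * ss x ^ (-(3 / 2) : ℝ)) * x 2]

/-- cylindrical coordinates -/
noncomputable def pt (t r θ : ℝ) : E 3 := !₂[t, r * Real.cos θ, r * Real.sin θ]


/-- region T -/
def TT (x : E 3) : Prop := ¬ (ss x ≤ rr x) ∧ ¬ (ss x ^ (3 / 2 : ℝ) ≤ rr x)

/-- radial flux function: `r * (radial inward component of FF)` -/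
noncomputable def MM (s r : ℝ) : ℝ :=
  if s ≤ r then r ^ (7 / 8 : ℝ) else if s ^ (3 / 2 : ℝ) ≤ r then s ^ (7 / 8 : ℝ)
  else 1 / 4 * s ^ (-(3 / 2) : ℝ) * r ^ 2

/-! ## Lemma jobs. Each job: prove `theorem <name> : S_<NAME>` (with the stated hypotheses). -/

/-- PV. Proof. Continuity away from `0` is clear, at `0`: `‖‖h‖^(p-2) • h‖ = ‖h‖^(p-1) → 0`.
Monotonicity: with `a = ‖h₁‖`, `b = ‖h₂‖` the inner product is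
`a^p + b^p - (a^(p-2) + b^(p-2)) ⟪h₁,h₂⟫ ≥ a^p + b^p - (a^(p-2)+b^(p-2)) a b
 = (a^(p-1) - b^(p-1)) (a - b) ≥ 0` (Cauchy-Schwarz, treat `a = 0` or `b = 0` directly). Equality
forces `a = b` and, if `a > 0`, `⟪h₁,h₂⟫ = a b`, i.e. `h₁ = h₂`. -/
def S_PV : Prop := ∀ (n : ℕ) (p : ℝ), 1 < p →
  Continuous (fun h : E n => ‖h‖ ^ (p - 2) • h) ∧
  ∀ h₁ h₂ : E n, h₁ ≠ h₂ → 0 < ⟪‖h₁‖ ^ (p - 2) • h₁ - ‖h₂‖ ^ (p - 2) • h₂, h₁ - h₂⟫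

/-- STR (uses S_PV): every pair of fields `(G, F)` with `α|G|^p ≤ F·G`, `|F| ≤ β|G|^(p-1)` on `Ω` is
`F = A(x, G)` for an admissible `A` with weight `1`. Proof. For `x ∈ Ω` with `G = G x ≠ 0` put
`e = G/|G|`, `σ = (F·G)/|G|²  (> 0)`, `z = (F/σ - G)/|G|` (then `z·e = 0`, and
`|z| ≤ C := β/α + 1` since `σ ≥ α|G|^(p-2)`), `lam = (F·G)/|G|^p ∈ [α, β]`
(Cauchy-Schwarz for the upper bound; so `α ≤ β` at such a point), `L ξ = ξ + (z·ξ) e`,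
`Lᵀ η = η + (e·η) z`, and `A x ξ = lam • ‖L ξ‖^(p-2) • Lᵀ (L ξ)`. For all other `x` take `e = z = 0`,
`lam = 1`, so `A x ξ = ‖ξ‖^(p-2) • ξ` (if `G x = 0` then `F x = 0`, as `p - 1 > 0`). Then
(a) `L G = G` (since `z·G = 0`) and `Lᵀ G = G + |G| z = F/σ`, so `A x (G x) = lam |G|^(p-2) F/σ = F`.
(b) `⟪A x ξ, ξ⟫ = lam ‖Lξ‖^p`, `‖ξ‖ ≤ (1+C)‖Lξ‖` (inverse: `ξ = η - (z·η) e`, as `z·e = 0`) and
`‖Lξ‖ ≤ (1+C)‖ξ‖`, `‖Lᵀη‖ ≤ (1+C)‖η‖`: bounds with `min α 1 * (1+C)^(-p)`, `max β 1 * (1+C)^(p+1)`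
(take the larger constants; `p - 2` may be negative, so use `‖Lξ‖^(p-1) ≤ ((1+C)‖ξ‖)^(p-1)`).
(c) `⟪A x ξ - A x η, ξ - η⟫ = lam ⟪‖Lξ‖^(p-2)Lξ - ‖Lη‖^(p-2)Lη, Lξ - Lη⟫ > 0` by S_PV, `L` injective.
(d) `L(tξ) = tLξ`, so `A x (tξ) = |t|^(p-2) t A x ξ`. (e) for fixed `ξ` everything is a measurable
function of `x` (piecewise on the measurable set `Ω ∩ {G ≠ 0}`). -/
def S_STR : Prop := ∀ (n : ℕ) (p α β : ℝ), 1 < p → 0 < α → ∀ Ω : Set (E n), MeasurableSet Ω →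
  ∀ G F : E n → E n, Measurable G → Measurable F →
  (∀ x ∈ Ω, α * ‖G x‖ ^ p ≤ ⟪F x, G x⟫ ∧ ‖F x‖ ≤ β * ‖G x‖ ^ (p - 1)) →
  ∃ A : E n → E n → E n, IsStructure n p (fun _ => 1) A ∧ ∀ x ∈ Ω, A x (G x) = F x

/-- CL. Proof. For a test function `ψ` with support in `D` and a coordinate `j`:
`∫ v_j ψ = lim ∫ (∂_j φ_i) ψ = - lim ∫ φ_i ∂_j ψ = 0` (Hölder on the compact support of `ψ`; for
`p ≥ 1`, `L^p` convergence on a set of finite measure gives `L¹` convergence; `v` is in `L^p` near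
`tsupport ψ` because it is the limit of `∇φ_i`). Then `v_j = 0` a.e. in `D` by
`IsOpen.ae_eq_zero_of_integral_contDiff_smul_eq_zero`. -/
def S_CL : Prop := ∀ (n : ℕ) (p : ℝ), 1 ≤ p → ∀ (D : Set (E n)), IsOpen D →
  ∀ (φ : ℕ → E n → ℝ) (v : E n → E n), (∀ i, IsTest D (φ i)) → Measurable v →
    Tendsto (fun i => ∫⁻ x in D, ENNReal.ofReal (|φ i x| ^ p)) atTop (𝓝 0) →
    Tendsto (fun i => ∫⁻ x in D, ENNReal.ofReal (‖∇ (φ i) x - v x‖ ^ p)) atTop (𝓝 0) →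
    ∀ᵐ x ∂((volume : Measure (E n)).restrict D), v x = 0

/-- SOB. Proof: Gagliardo-Nirenberg-Sobolev in Mathlib (`MeasureTheory.eLpNorm_le_eLpNorm_fderiv_of_eq`
with `n = 3`, `p = 5/4`, `p' = 15/7`, `1/p' = 1/p - 1/3`) gives `(∫|φ|^(15/7))^(7/15) ≤ C (∫|∇φ|^(5/4))^(4/5)`;
`φ` and `∇φ` vanish off the ball; divide by `|B|^(7/15)`, where `|B| = (4π/3) r³` and
`|B|^(-7/15) = |B|^(-4/5) |B|^(1/3)`. -/
def S_SOB : Prop := ∃ C : ℝ, 0 < C ∧ ∀ (x : E 3) (r : ℝ), 0 < r → ∀ φ : E 3 → ℝ,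
  IsTest (ball x r) φ →
    ((∫⁻ y in ball x r, ENNReal.ofReal (|φ y| ^ (12 / 7 * (5 / 4) : ℝ))) /
        volume (ball x r)) ^ (1 / (12 / 7 * (5 / 4)) : ℝ)
      ≤ ENNReal.ofReal (C * r) *
        ((∫⁻ y in ball x r, ENNReal.ofReal (‖∇ φ y‖ ^ (5 / 4 : ℝ))) /
          volume (ball x r)) ^ (1 / (5 / 4) : ℝ)

/-- POI. Proof. `|φ(y) - φ_B|^p ≤ ⨍_B |φ(y) - φ(z)|^p dz` (Jensen / Hölder), and for `y,z ∈ B`:
`|φ(y)-φ(z)|^p ≤ (2r)^p ∫₀¹ |∇φ(y + t(z-y))|^p dt` (segment inside the ball, fundamental theorem,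
Hölder). Integrate over `y, z`; by symmetry `t ↔ 1-t` only `t ∈ [1/2,1]` (factor 2); for fixed `y, t`
substitute `z' = y + t(z-y) ∈ B`, Jacobian `t^(-3) ≤ 8`. Result with `C = 16 * 2^(5/4)`. All
integrals as `lintegral` (the right side may be `∞`, `∇φ` may be unbounded near the boundary).
Compare `Pool/Agent/Q186/PL/Poin.lean` (`poincare_lintegral`) and `Pool/Agent/Q186/PL/Pairs.lean`. -/
def S_POI : Prop := ∃ C : ℝ, 0 < C ∧ ∀ (x : E 3) (r : ℝ), 0 < r → ∀ φ : E 3 → ℝ,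
  ContDiffOn ℝ ∞ φ (ball x r) → (∃ M : ℝ, ∀ y ∈ ball x r, |φ y| ≤ M) →
    ∫⁻ y in ball x r, ENNReal.ofReal (|φ y - ⨍ z in ball x r, φ z| ^ (5 / 4 : ℝ))
      ≤ ENNReal.ofReal (C * r ^ (5 / 4 : ℝ)) *
        ∫⁻ y in ball x r, ENNReal.ofReal (‖∇ φ y‖ ^ (5 / 4 : ℝ))

/-- ADM (from S_CL, S_SOB, S_POI): `wm (fun _ => 1) = volume`; doubling with `C = 8`. -/
def S_ADM : Prop := Admissible 3 (5 / 4) (12 / 7) (fun _ => 1)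

/-- MEAS: measurability (piecewise, continuous pieces). -/
def S_MEAS : Prop := Measurable ss ∧ Measurable rr ∧ Measurable uu ∧ Measurable GG ∧ Measurable FF ∧
  MeasurableSet {x : E 3 | TT x}

/-- CMP. Proof. With `s = ss x < 1`, `ρ = rr x`. O: `|GG| = ρ^(-1/2)`, `|FF| = ρ^(-1/8)`, parallel, so
`⟪F,G⟫ = ρ^(-5/8) = |G|^(5/4)` (`ρ = 0` only at `x = 0`, where `F = G = 0`). K (`0 < s^(3/2) ≤ ρ < s`):
radial part of `G` is `g = s^(7/2)ρ^(-4)`, `|FF| = s^(7/8)ρ^(-1) = g^(1/4)`, axial part of `G` is at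
most `(7/6) g` in absolute value (`s^(5/2)ρ^(-3) = g ρ/s`, `s^(-1/2) = g (ρ/s)^4`), so `g ≤ |G| ≤ 2g`,
`⟪F,G⟫ = g^(5/4)`. T (`ρ < s^(3/2)`, `0 < s < 1`): `|G| = s^(-2)/3 + (7/6)s^(-1/2) ∈ [s^(-2)/3, (3/2)s^(-2)]`,
`⟪F,G⟫ = s^(-1/2)|G|`, `|F| ≤ s^(-1/2) + (1/4) s^(-3/2) ρ ≤ (5/4) s^(-1/2)`. E.g. `α = 1/4`, `β = 2`. -/
def S_CMP : Prop := ∃ α β : ℝ, 0 < α ∧ ∀ x ∈ ball (0 : E 3) 1,
  α * ‖GG x‖ ^ (5 / 4 : ℝ) ≤ ⟪FF x, GG x⟫ ∧ ‖FF x‖ ≤ β * ‖GG x‖ ^ (5 / 4 - 1 : ℝ)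

/-- CYL: cylindrical coordinates for `lintegral` (volume-preserving `E 3 ≃ ℝ × (ℝ × ℝ)`, e.g. from
`EuclideanSpace.volume_preserving_symm_measurableEquiv_toLp` / `MeasurableEquiv.piFinSuccAbove`, and
`lintegral_comp_polarCoord_symm`, Tonelli). -/
def S_CYL : Prop := ∀ g : E 3 → ℝ≥0∞, Measurable g → ∫⁻ x, g x =
  ∫⁻ t : ℝ, ∫⁻ θ in Ioo (-Real.pi) Real.pi, ∫⁻ r in Ioi (0 : ℝ), ENNReal.ofReal r * g (pt t r θ)

/-- CYB: the same for the Bochner integral of an integrable real function. -/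
def S_CYB : Prop := ∀ g : E 3 → ℝ, Integrable g → ∫ x, g x =
  ∫ t : ℝ, ∫ θ in Ioo (-Real.pi) Real.pi, ∫ r in Ioi (0 : ℝ), r * g (pt t r θ)

/-- AXF: Fubini with the coordinate `x 0` innermost. -/
def S_AXF : Prop := ∀ g : E 3 → ℝ, Integrable g → ∫ x, g x =
  ∫ y : ℝ × ℝ, ∫ t : ℝ, g (!₂[t, y.1, y.2])

/-- GL (from S_CYL, S_MEAS). Proof. In the ball `s, ρ < 1`. O: `∫ ρ^(-5/8) ρ dρ ds < ∞`. K:
`|G| ≤ 2 s^(7/2)ρ^(-4)`, so `∫ ds s^(35/8) ∫_{s^(3/2)}^s ρ^(-5) ρ dρ ≤ (1/3)∫₀¹ s^(35/8 - 9/2) ds < ∞`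
(exponent `-1/8`). T: `|G| ≤ (3/2) s^(-2)`: `∫ s^(-5/2) s³ ds < ∞`. -/
def S_GL : Prop := ∫⁻ x in ball (0 : E 3) 1, ENNReal.ofReal (‖GG x‖ ^ (5 / 4 : ℝ)) < ⊤

/-- UL (from S_CYL, S_MEAS). Proof. On `ball 0 δ`, `δ < 1`: `|uu| ≤ 3√δ + s^(7/2)ρ^(-3) 1_K + s^(-1) 1_T`,
`|a+b+c|^(5/4) ≤ 3^(5/4)(a^(5/4)+b^(5/4)+c^(5/4))`; the three integrals are at most constants times
`δ^(5/8+3)`, `∫₀^δ s^(35/8) s^(-21/8) ds ≤ δ^(11/4)`, `∫₀^δ s^(-5/4) s³ ds ≤ δ^(11/4)`; all are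
`o(δ^(5/4))`. -/
def S_UL : Prop := Tendsto (fun δ : ℝ => ENNReal.ofReal (δ ^ (-(5 / 4) : ℝ)) *
  ∫⁻ x in ball (0 : E 3) δ, ENNReal.ofReal (|uu x| ^ (5 / 4 : ℝ))) (𝓝[>] 0) (𝓝 0)

/-- RAD. Proof. Integration by parts on `(0, s^(3/2))`, `(s^(3/2), s)`, `(s, ∞)` (note
`s^(3/2) < s`): `∫ MM ψ' = (1/4)s^(3/2)ψ(s^(3/2)) - (1/2)s^(-3/2)∫_0^{s^(3/2)} rψ
+ s^(7/8)(ψ(s) - ψ(s^(3/2))) - s^(7/8)ψ(s) - (7/8)∫_s^∞ r^(-1/8)ψ`. So the integral in the statement is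
`(s^(7/8) - (1/4)s^(3/2)) ψ(s^(3/2)) + (7/8)∫_s^∞ r^(-1/8) ψ ≥ 0`. -/
def S_RAD : Prop := ∀ s : ℝ, 0 < s → s < 1 → ∀ ψ : ℝ → ℝ, ContDiff ℝ 1 ψ → HasCompactSupport ψ →
  (∀ r, 0 ≤ ψ r) →
  0 ≤ ∫ r in Ioi (0 : ℝ), (-(MM s r) * deriv ψ r -
    (if r < s ^ (3 / 2 : ℝ) then 1 / 2 * s ^ (-(3 / 2) : ℝ) * r * ψ r else 0))

/-- AX. Proof. On `(a, ∞)`: `-∫ t^(-1/2) ψ' = a^(-1/2) ψ(a) - (1/2) ∫ t^(-3/2) ψ`; the same on
`(-∞, -a)` by `t ↦ -t`. So the integral is `a^(-1/2)(ψ(a) + ψ(-a)) ≥ 0`. -/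
def S_AX : Prop := ∀ a : ℝ, 0 < a → ∀ ψ : ℝ → ℝ, ContDiff ℝ 1 ψ → HasCompactSupport ψ →
  (∀ r, 0 ≤ ψ r) →
  0 ≤ ∫ t : ℝ, (if a < |t| then -((SignType.sign t : ℝ) * |t| ^ (-(1 / 2) : ℝ)) * deriv ψ t
    + 1 / 2 * |t| ^ (-(3 / 2) : ℝ) * ψ t else 0)

/-- WKA (from S_AXF, S_AX, S_CYL, S_MEAS). Proof. Integrable: on the ball, `∫_T s^(-3/2) = c∫₀¹ s^(3/2) ds`
(and `s^(-1/2) ≤ s^(-3/2)`), `φ`, `∇φ` bounded and `0` off the ball. Fubini S_AXF; for a.e. `y`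
(`ρ = |y| > 0`) the inner function is that of S_AX with `a = ρ^(2/3)`, `ψ(t) = φ(t,y)`: for `|t| < 1`,
`TT ↔ ρ < |t|^(3/2)` (as `|t|^(3/2) ≤ |t|`), for `|t| ≥ 1` everything is `0`. -/
def S_WKA : Prop := ∀ φ : E 3 → ℝ, IsTest (ball 0 1) φ → (∀ x, 0 ≤ φ x) →
  Integrable (fun x => {x | TT x}.indicator (fun x =>
    -((SignType.sign (x 0) : ℝ) * ss x ^ (-(1 / 2) : ℝ)) * (∇ φ x) 0
      + 1 / 2 * ss x ^ (-(3 / 2) : ℝ) * φ x) x) (volume : Measure (E 3)) ∧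
  0 ≤ ∫ x, {x | TT x}.indicator (fun x =>
    -((SignType.sign (x 0) : ℝ) * ss x ^ (-(1 / 2) : ℝ)) * (∇ φ x) 0
      + 1 / 2 * ss x ^ (-(3 / 2) : ℝ) * φ x) x

/-- WKB (from S_CYB, S_CYL, S_RAD, S_CMP, S_GL, S_MEAS). Proof. Integrable: `|FF| ≤ β|GG|^(1/4) ≤
β(1+|GG|^(5/4))` on the ball and `∫_T s^(-3/2) < ∞`. By S_CYB the integral is
`∫_t ∫_θ (inner)`, and for `0 < |t| < 1` the inner integral is that of S_RAD with `s = |t|`,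
`ψ(r) = φ(pt t r θ)` (times a smooth compactly supported extension for `r < 0`: `r ↦ φ(pt t r θ)` is
smooth with compact support on all of `ℝ`), because `r (FF₁ ∂₁φ + FF₂ ∂₂φ) = -MM |t| r ψ'(r)`; for
`|t| ≥ 1` it is `0`; `t = 0` is null. -/
def S_WKB : Prop := ∀ φ : E 3 → ℝ, IsTest (ball 0 1) φ → (∀ x, 0 ≤ φ x) →
  Integrable (fun x => (FF x) 1 * (∇ φ x) 1 + (FF x) 2 * (∇ φ x) 2 -
    {x | TT x}.indicator (fun x => 1 / 2 * ss x ^ (-(3 / 2) : ℝ) * φ x) x)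
    (volume : Measure (E 3)) ∧
  0 ≤ ∫ x, ((FF x) 1 * (∇ φ x) 1 + (FF x) 2 * (∇ φ x) 2 -
    {x | TT x}.indicator (fun x => 1 / 2 * ss x ^ (-(3 / 2) : ℝ) * φ x) x)

/-- WK (from S_WKA, S_WKB): the sum of the two functions is `⟪FF, ∇φ⟫` (`FF x 0 = 0` off T). -/
def S_WK : Prop := ∀ φ : E 3 → ℝ, IsTest (ball 0 1) φ → (∀ x, 0 ≤ φ x) →
  Integrable (fun x => ⟪FF x, ∇ φ x⟫) (volume : Measure (E 3)) ∧ 0 ≤ ∫ x, ⟪FF x, ∇ φ x⟫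

/-- MOL. Proof. `φ_i = f ⋆ ρ_i` with normed bump functions of radius `1/(i+1)`: smooth,
`∇φ_i = g ⋆ ρ_i` (differentiate under the integral: `f` Lipschitz, difference quotients bounded by
the Lipschitz constant and converging a.e. to `⟪g, h⟫`), both converge a.e.
(`ContDiffBump.ae_convolution_tendsto_right_of_locallyIntegrable`; `f` even uniformly), are bounded
by constants (`‖g‖ ≤ Lip` a.e.) and vanish off a fixed ball: dominated convergence. -/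
def S_MOL : Prop := ∀ (n : ℕ) (p : ℝ), 1 ≤ p → ∀ f : E n → ℝ, (∃ C : ℝ≥0, LipschitzWith C f) →
  HasCompactSupport f → ∀ g : E n → E n, Measurable g →
  (∀ᵐ x ∂(volume : Measure (E n)), HasGradientAt f (g x) x) →
  ∃ φ : ℕ → E n → ℝ, (∀ i, ContDiff ℝ ∞ (φ i)) ∧
    Tendsto (fun i => ∫⁻ x, ENNReal.ofReal (|φ i x - f x| ^ p)) atTop (𝓝 0) ∧
    Tendsto (fun i => ∫⁻ x, ENNReal.ofReal (‖∇ (φ i) x - g x‖ ^ p)) atTop (𝓝 0)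

/-- LL. Proof. `uu` is Lipschitz near each point `x ≠ 0` of the unit ball (then `χ·uu` is locally
Lipschitz with compact support, hence Lipschitz): (i) near points with `s < ρ`: `uu = -2√ρ`,
`ρ > 0`. (ii) near points with `ρ < s^(3/2)`: `uu = 1/(3s) - (7/3)√s`, `s > 0`. (iii) near points
with `s^(3/2) ≤ ρ < s`: `uu = min (s^(7/2)/(3ρ³)) (1/(3s)) - (7/3)√s`, `s, ρ > 0`. (iv) near
points with `ρ = s > 0`, `s < 1`: `uu = -2√ρ + √s · d(min (ρ/s) 1)` with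
`d(l) = l^(-3)/3 - 7/3 + 2√l`, `d(1) = 0`. Each formula is a composition of locally Lipschitz
functions. -/
def S_LL : Prop := ∀ χ : E 3 → ℝ, ContDiff ℝ ∞ χ → HasCompactSupport χ →
  tsupport χ ⊆ ball (0 : E 3) 1 \ {0} → ∃ C : ℝ≥0, LipschitzWith C (fun x => χ x * uu x)

/-- DIF (may use S_CYL for the null sets). Proof. Off the null sets `ρ = s`, `ρ = s^(3/2)`, `ρ = 0`
one of the three formulas holds near `x`, and it is differentiable there with gradient `GG x`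
(`s = |x 0|` is differentiable where `x 0 ≠ 0`, with derivative `sign (x 0)`; in region O the
point `x 0 = 0` is harmless). -/
def S_DIF : Prop := ∀ᵐ x ∂((volume : Measure (E 3)).restrict (ball (0 : E 3) 1)),
  HasGradientAt uu (GG x) x

/-- HG (from S_MOL, S_LL, S_DIF, S_GL, S_UL, S_MEAS). Proof. Given compact `K ⊆ ball 0 1` take a
smooth `χ = 1` near `K` with compact support in the ball, and `η_δ(x) = η(x/δ)` smooth, `0` on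
`ball 0 δ`, `1` off `ball 0 (2δ)`, `0 ≤ η ≤ 1`, `|∇η_δ| ≤ C/δ`. `f = χ η_δ uu` is Lipschitz with
compact support (S_LL) and gradient `χη_δ GG + uu ∇(χη_δ)` a.e. (S_DIF). On `K`:
`∫|f-uu|^p ≤ ∫_{ball 2δ}|uu|^p → 0`, `∫|∇f-GG|^p ≤ 2^p(∫_{ball 2δ}|GG|^p + (C/δ)^p∫_{ball 2δ}|uu|^p) → 0`
(S_GL, S_UL). Approximate `f` by S_MOL and take a diagonal sequence. -/
def S_HG : Prop := HasGrad (5 / 4) (fun _ => 1) (ball (0 : E 3) 1) uu GG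

/-- AV (from S_CYL, S_MEAS). Proof. Integrable as in S_UL (with exponent 1). For `r ≤ 1/10000`:
`uu ≥ s^(7/2)/(3ρ³) 1_K' - (7/3)√r` on `ball 0 r`, `K' = {s < r/2, s^(3/2) < ρ < s} ⊆ ball 0 r`
(in O use `-2√ρ ≥ -(7/3)√r`, in T the first term is `≥ 0`). `∫_{K'} s^(7/2)/(3ρ³) =
2·(2π/3)∫₀^{r/2}(s² - s^(5/2)) ds = (4π/3)(r³/24 - (2/7)(r/2)^(7/2))`. Divide by `|B_r| = (4π/3)r³`:
`⨍ uu ≥ 1/24 - (2/7)√r - (7/3)√r ≥ 1/24 - 0.027 ≥ 1/100`. -/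
def S_AV : Prop := IntegrableOn uu (ball (0 : E 3) 1) ∧
  ∀ r : ℝ, 0 < r → r ≤ 1 / 10000 → 1 / 100 ≤ ⨍ y in ball (0 : E 3) r, uu y

/-- EI. Proof: `uu < 0` on the nonempty open set `{s < ρ} ∩ ball 0 r` of positive measure. -/
def S_EI : Prop := ∀ r : ℝ, 0 < r → essInf (fun y : E 3 => ((uu y : ℝ) : EReal))
  ((volume : Measure (E 3)).restrict (ball 0 r)) ≤ 0

/-- MAIN (from S_STR, S_ADM, S_MEAS, S_CMP, S_WK, S_HG, S_AV, S_EI). Proof. `A` from S_STR with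
`G = GG`, `F = FF`, `Ω = ball 0 1`; `wm (fun _ => 1) = volume`; the supersolution property is S_HG and
S_WK (off the ball `∇φ = 0`). If `v` were a good representative, `v 0 = lowerLim ≤ 0` by S_EI and
`v 0 = lim` of the averages `≥ 1/100` by S_AV. -/
def S_MAIN : Prop := ∃ (w : E 3 → ℝ) (κ : ℝ) (A : E 3 → E 3 → E 3) (u : E 3 → ℝ),
  Admissible 3 (5 / 4) κ w ∧ (5 / 4 : ℝ) ≤ 1 + 1 / κ ∧ IsStructure 3 (5 / 4) w A ∧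
  IsSupersolution (5 / 4) w A (ball 0 1) u ∧ ¬ GoodRepresentative w (ball 0 1) u

end Pool.Agent.Q64.LP
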